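import Pool.Agent.P.MP_731e7b_an.Defs

/-!
Basic estimates: continuity of translation in `L¹`, sums over separated families,
the Gaussian integral and a Bessel bound for exponential sums.
-/

open MeasureTheory Set Filter Topology

namespace Pool.Agent.P.MP_731e7b_an

/-- The `L¹` modulus of continuity is a continuous function of the shift. -/
theorem continuous_shift_L1 {g : ℝ → ℂ} (hg : Integrable g) :
    Continuous fun s : ℝ => ∫ y, ‖g (y + s) - g y‖ := by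
  have hm : ∀ s : ℝ, MeasurePreserving (⟨fun y : ℝ => y + s, by fun_prop⟩ : C(ℝ, ℝ))
      volume volume := fun s => measurePreserving_add_right volume s
  let G : Lp ℂ 1 (volume : Measure ℝ) := hg.toL1 g
  have hc : Continuous fun s : ℝ => (⟨fun y : ℝ => y + s, by fun_prop⟩ : C(ℝ, ℝ)) :=
    ContinuousMap.continuous_of_continuous_uncurry _ (by
      change Continuous fun p : ℝ × ℝ => p.2 + p.1
      fun_prop)
  have h1 : Continuous fun s : ℝ => Lp.compMeasurePreserving _ (hm s) G :=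
    Continuous.compMeasurePreservingLp continuous_const hc hm (by simp)
  have h2 : Continuous fun s : ℝ => ‖Lp.compMeasurePreserving _ (hm s) G - G‖ :=
    (h1.sub continuous_const).norm
  refine h2.congr fun s => ?_
  rw [L1.norm_eq_integral_norm]
  refine integral_congr_ae ?_
  have hG : (G : ℝ → ℂ) =ᵐ[volume] g := Integrable.coeFn_toL1 hg
  have h3 := Lp.coeFn_compMeasurePreserving G (hm s)
  have h4 := (hm s).quasiMeasurePreserving.ae_eq_comp hG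
  filter_upwards [Lp.coeFn_sub (Lp.compMeasurePreserving _ (hm s) G) G, h3, h4, hG]
    with y e1 e2 e3 e4
  rw [e1, Pi.sub_apply, e2, e3, e4]
  rfl

theorem shift_L1_le {g : ℝ → ℂ} (hg : Integrable g) (s : ℝ) :
    ∫ y, ‖g (y + s) - g y‖ ≤ 2 * ∫ y, ‖g y‖ := by
  have h1 : Integrable fun y => g (y + s) := hg.comp_add_right s
  calc ∫ y, ‖g (y + s) - g y‖ ≤ ∫ y, (‖g (y + s)‖ + ‖g y‖) :=
        integral_mono (h1.sub hg).norm (h1.norm.add hg.norm) fun y => norm_sub_le _ _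
    _ = 2 * ∫ y, ‖g y‖ := by
        rw [integral_add h1.norm hg.norm, integral_add_right_eq_self (fun y => ‖g y‖) s]; ring

theorem summable_int_inv_sq {δ : ℝ} (hδ : 0 < δ) :
    Summable fun k : ℤ => 1 / (1 + δ * |(k : ℝ)|) ^ 2 := by
  have h0 : Summable fun k : ℤ => (1 / δ ^ 2) * (1 / (k : ℝ) ^ 2) :=
    (Real.summable_one_div_int_pow.mpr one_lt_two).mul_left _
  refine Summable.of_norm_bounded_eventually h0 ?_
  refine (Set.finite_singleton (0 : ℤ)).subset fun k hk => ?_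
  by_contra hk0
  apply hk
  have hk1 : (k : ℝ) ≠ 0 := by exact_mod_cast hk0
  have hk2 : 0 < |(k : ℝ)| := abs_pos.mpr hk1
  change ‖1 / (1 + δ * |(k : ℝ)|) ^ 2‖ ≤ 1 / δ ^ 2 * (1 / (k : ℝ) ^ 2)
  rw [Real.norm_of_nonneg (by positivity), one_div_mul_one_div, ← sq_abs (k : ℝ), ← mul_pow]
  exact one_div_le_one_div_of_le (by positivity)
    (pow_le_pow_left₀ (by positivity) (by linarith) 2)

/-- The constant in sums over `δ`-separated families. -/
noncomputable def S0 (δ : ℝ) : ℝ := ∑' k : ℤ, (1 + δ) ^ 2 * (1 / (1 + δ * |(k : ℝ)|) ^ 2)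

theorem S0_nonneg {δ : ℝ} (hδ : 0 < δ) : 0 ≤ S0 δ := tsum_nonneg fun _ => by positivity

theorem sum_sep_le {ι : Type*} {δ : ℝ} (hδ : 0 < δ) (S : Finset ι) (μ : ι → ℝ)
    (h : ∀ i ∈ S, ∀ j ∈ S, i ≠ j → δ ≤ |μ i - μ j|) (x : ℝ) :
    ∑ j ∈ S, 1 / (1 + |μ j - x|) ^ 2 ≤ S0 δ := by
  classical
  let k : ι → ℤ := fun j => ⌊(μ j - x) / δ⌋
  have hinj : Set.InjOn k S := by
    intro i hi j hj hij
    by_contra hne
    have h1 := h i hi j hj hne
    have h2 := Int.abs_sub_lt_one_of_floor_eq_floor hij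
    rw [← sub_div, abs_div, abs_of_pos hδ, div_lt_one hδ] at h2
    have : μ i - x - (μ j - x) = μ i - μ j := by ring
    rw [this] at h2
    linarith
  have hs : Summable fun k : ℤ => (1 + δ) ^ 2 * (1 / (1 + δ * |(k : ℝ)|) ^ 2) :=
    (summable_int_inv_sq hδ).mul_left _
  calc ∑ j ∈ S, 1 / (1 + |μ j - x|) ^ 2
      ≤ ∑ j ∈ S, (1 + δ) ^ 2 * (1 / (1 + δ * |(k j : ℝ)|) ^ 2) := by
        refine Finset.sum_le_sum fun j _ => ?_
        have h1 : δ * |(k j : ℝ)| ≤ δ + |μ j - x| := by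
          have a1 : (k j : ℝ) ≤ (μ j - x) / δ := Int.floor_le _
          have a2 : (μ j - x) / δ < k j + 1 := Int.lt_floor_add_one _
          rw [le_div_iff₀ hδ] at a1
          rw [div_lt_iff₀ hδ] at a2
          have a3 := le_abs_self (μ j - x)
          have a4 := neg_abs_le (μ j - x)
          rcases abs_cases (k j : ℝ) with hk | hk <;> rw [hk.1] <;> nlinarith
        rw [mul_one_div, div_le_div_iff₀ (by positivity) (by positivity), one_mul, ← mul_pow]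
        refine pow_le_pow_left₀ (by positivity) ?_ 2
        nlinarith [abs_nonneg (μ j - x)]
    _ = ∑ m ∈ S.image k, (1 + δ) ^ 2 * (1 / (1 + δ * |(m : ℝ)|) ^ 2) := by
        rw [Finset.sum_image hinj]
    _ ≤ S0 δ := hs.sum_le_tsum _ fun _ _ => by positivity

theorem summable_sep {ι : Type*} {δ : ℝ} (hδ : 0 < δ) (μ : ι → ℝ)
    (h : ∀ i j, i ≠ j → δ ≤ |μ i - μ j|) (x : ℝ) :
    Summable fun j => 1 / (1 + |μ j - x|) ^ 2 :=
  summable_of_sum_le (fun _ => by positivity)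
    fun S => sum_sep_le hδ S μ (fun i _ j _ hij => h i j hij) x

theorem tsum_sep_le {ι : Type*} {δ : ℝ} (hδ : 0 < δ) (μ : ι → ℝ)
    (h : ∀ i j, i ≠ j → δ ≤ |μ i - μ j|) (x : ℝ) :
    ∑' j, 1 / (1 + |μ j - x|) ^ 2 ≤ S0 δ :=
  Real.tsum_le_of_sum_le (fun _ => by positivity)
    fun S => sum_sep_le hδ S μ (fun i _ j _ hij => h i j hij) x

theorem Sep.family {δ : ℝ} {Λ : Set ℝ} (h : Sep δ Λ) (i j : Λ) (hij : i ≠ j) :
    δ ≤ |(i : ℝ) - j| := h _ i.2 _ j.2 fun e => hij (Subtype.ext e)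

theorem Sep.countable {δ : ℝ} (hδ : 0 < δ) {Λ : Set ℝ} (h : Sep δ Λ) : Countable Λ := by
  have h1 := (summable_sep hδ (fun l : Λ => (l : ℝ)) h.family 0).countable_support
  have h2 : Function.support (fun j : Λ => 1 / (1 + |(j : ℝ) - 0|) ^ 2) = univ :=
    eq_univ_of_forall fun j => by
      rw [Function.mem_support]; positivity
  rw [h2] at h1
  exact countable_univ_iff.mp h1

/-- Window sums over separated families. -/
theorem IsWin.summable_sep {b : ℝ → ℝ} {C : ℝ} (hb : IsWin b C) {ι : Type*} {δ : ℝ}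
    (hδ : 0 < δ) (μ : ι → ℝ) (h : ∀ i j, i ≠ j → δ ≤ |μ i - μ j|) (x : ℝ) :
    Summable fun j => b (μ j - x) :=
  Summable.of_nonneg_of_le (fun _ => (hb.pos _).le) (fun _ => hb.decay2 _)
    ((MP_731e7b_an.summable_sep hδ μ h x).mul_left C)

theorem IsWin.tsum_sep_le {b : ℝ → ℝ} {C : ℝ} (hb : IsWin b C) {ι : Type*} {δ : ℝ}
    (hδ : 0 < δ) (μ : ι → ℝ) (h : ∀ i j, i ≠ j → δ ≤ |μ i - μ j|) (x : ℝ) :
    ∑' j, b (μ j - x) ≤ C * S0 δ := by
  refine ((hb.summable_sep hδ μ h x).tsum_le_tsum (fun _ => hb.decay2 _)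
    ((MP_731e7b_an.summable_sep hδ μ h x).mul_left C)).trans ?_
  rw [tsum_mul_left]
  exact mul_le_mul_of_nonneg_left (MP_731e7b_an.tsum_sep_le hδ μ h x) hb.C_pos.le

theorem integrable_gauss {r : ℝ} (hr : 0 < r) :
    Integrable fun τ : ℝ => Real.exp (-(Real.pi * r * τ ^ 2)) := by
  have := integrable_exp_neg_mul_sq (b := Real.pi * r) (by positivity)
  simpa [neg_mul] using this

theorem integrable_gauss_ee {r : ℝ} (hr : 0 < r) (u : ℝ) :
    Integrable fun τ : ℝ => (Real.exp (-(Real.pi * r * τ ^ 2)) : ℂ) * ee (τ * u) := by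
  refine Integrable.mono' (integrable_gauss hr) (Continuous.aestronglyMeasurable (by fun_prop))
    (Eventually.of_forall fun τ => ?_)
  rw [norm_mul, norm_ee, mul_one, Complex.norm_real, Real.norm_of_nonneg (Real.exp_pos _).le]

/-- The Fourier transform of the Gaussian. -/
theorem integral_gauss_ee {r : ℝ} (hr : 0 < r) (u : ℝ) :
    ∫ τ : ℝ, (Real.exp (-(Real.pi * r * τ ^ 2)) : ℂ) * ee (τ * u) =
      ((Real.exp (-(Real.pi * u ^ 2 / r)) / √r : ℝ) : ℂ) := by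
  have hb : ((-(Real.pi * r) : ℝ) : ℂ).re < 0 := by
    rw [Complex.ofReal_re]; have := Real.pi_pos; nlinarith
  have h := integral_cexp_quadratic hb (2 * Real.pi * u * Complex.I) 0
  have e1 : ∀ τ : ℝ, (Real.exp (-(Real.pi * r * τ ^ 2)) : ℂ) * ee (τ * u) =
      Complex.exp (((-(Real.pi * r) : ℝ) : ℂ) * τ ^ 2 + 2 * Real.pi * u * Complex.I * τ + 0) := by
    intro τ
    rw [Complex.ofReal_exp, ee, ← Complex.exp_add]
    congr 1; push_cast; ring
  simp_rw [e1]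
  rw [h]
  have hπ : (Real.pi : ℂ) ≠ 0 := by exact_mod_cast Real.pi_ne_zero
  have hr' : (r : ℂ) ≠ 0 := by exact_mod_cast hr.ne'
  have e2 : ((Real.pi : ℂ) / -((-(Real.pi * r) : ℝ) : ℂ)) = ((r⁻¹ : ℝ) : ℂ) := by
    push_cast; field_simp
  have e3 : (0 : ℂ) - (2 * Real.pi * u * Complex.I) ^ 2 / (4 * ((-(Real.pi * r) : ℝ) : ℂ)) =
      ((-(Real.pi * u ^ 2 / r) : ℝ) : ℂ) := by
    push_cast; field_simp; ring_nf; simp
  rw [e2, e3, ← Complex.ofReal_exp]
  have e4 : ((r⁻¹ : ℝ) : ℂ) ^ (1 / 2 : ℂ) = (((√r)⁻¹ : ℝ) : ℂ) := by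
    rw [← Real.sqrt_inv, Real.sqrt_eq_rpow, Complex.ofReal_cpow (by positivity)]
    norm_num
  rw [e4]; push_cast; ring

theorem gauss_le {r : ℝ} (hr : 0 < r) (u : ℝ) :
    Real.exp (-(Real.pi * u ^ 2 / r)) ≤ 2 * (1 + r) * (1 / (1 + |u|) ^ 2) := by
  have h1 : 1 + u ^ 2 / r ≤ Real.exp (Real.pi * u ^ 2 / r) := by
    have := Real.add_one_le_exp (Real.pi * u ^ 2 / r)
    have h2 : u ^ 2 / r ≤ Real.pi * u ^ 2 / r :=
      div_le_div_of_nonneg_right (by nlinarith [Real.pi_gt_three, sq_nonneg u]) hr.le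
    linarith
  rw [Real.exp_neg, mul_one_div, inv_eq_one_div,
    div_le_div_iff₀ (Real.exp_pos _) (by positivity), one_mul]
  have h3 : (1 + |u|) ^ 2 ≤ 2 * (1 + u ^ 2) := by nlinarith [sq_abs u, sq_nonneg (|u| - 1)]
  have h4 : 1 + u ^ 2 ≤ (1 + r) * (1 + u ^ 2 / r) := by
    have : (1 + r) * (1 + u ^ 2 / r) = 1 + r + u ^ 2 / r + u ^ 2 := by field_simp; ring
    rw [this]; have : 0 ≤ u ^ 2 / r := by positivity
    linarith
  nlinarith [mul_le_mul_of_nonneg_left h1 (by positivity : (0 : ℝ) ≤ 1 + r)]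

theorem norm_sq_sum_ee {ι : Type*} (S : Finset ι) (μ : ι → ℝ) (z : ι → ℂ) (ξ : ℝ) :
    ((‖∑ j ∈ S, z j * ee (ξ * μ j)‖ ^ 2 : ℝ) : ℂ) =
      ∑ i ∈ S, ∑ j ∈ S, z i * (starRingEnd ℂ) (z j) * ee (ξ * (μ i - μ j)) := by
  rw [← Complex.normSq_eq_norm_sq, ← Complex.mul_conj, map_sum, Finset.sum_mul_sum]
  refine Finset.sum_congr rfl fun i _ => Finset.sum_congr rfl fun j _ => ?_
  rw [map_mul, ← ee_neg, show ξ * (μ i - μ j) = ξ * μ i + -(ξ * μ j) by ring, ee_add]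
  ring

theorem integrable_gauss_sum {ι : Type*} {r : ℝ} (hr : 0 < r) (S : Finset ι) (μ : ι → ℝ)
    (z : ι → ℂ) :
    Integrable fun ξ : ℝ =>
      Real.exp (-(Real.pi * r * ξ ^ 2)) * ‖∑ j ∈ S, z j * ee (ξ * μ j)‖ ^ 2 := by
  refine Integrable.mono' ((integrable_gauss hr).mul_const ((∑ j ∈ S, ‖z j‖) ^ 2))
    (Continuous.aestronglyMeasurable (by fun_prop)) (Eventually.of_forall fun ξ => ?_)
  rw [Real.norm_of_nonneg (by positivity)]
  refine mul_le_mul_of_nonneg_left (pow_le_pow_left₀ (norm_nonneg _) ?_ 2) (Real.exp_pos _).le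
  refine (norm_sum_le _ _).trans (Finset.sum_le_sum fun j _ => ?_)
  rw [norm_mul, norm_ee, mul_one]

/-- Bessel bound with a Gaussian weight. -/
theorem bessel_gauss {ι : Type*} {δ r : ℝ} (hδ : 0 < δ) (hr : 0 < r) (S : Finset ι) (μ : ι → ℝ)
    (h : ∀ i ∈ S, ∀ j ∈ S, i ≠ j → δ ≤ |μ i - μ j|) (z : ι → ℂ) :
    ∫ ξ : ℝ, Real.exp (-(Real.pi * r * ξ ^ 2)) * ‖∑ j ∈ S, z j * ee (ξ * μ j)‖ ^ 2 ≤
      (2 * (1 + r) / √r * S0 δ) * ∑ j ∈ S, ‖z j‖ ^ 2 := by
  have hsr : 0 < √r := Real.sqrt_pos.mpr hr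
  set G : ℝ → ℝ := fun u => Real.exp (-(Real.pi * u ^ 2 / r)) / √r with hG
  have hG0 : ∀ u, 0 ≤ G u := fun u => by positivity
  have e1 : ((∫ ξ : ℝ, Real.exp (-(Real.pi * r * ξ ^ 2)) *
      ‖∑ j ∈ S, z j * ee (ξ * μ j)‖ ^ 2 : ℝ) : ℂ) =
      ∑ i ∈ S, ∑ j ∈ S, z i * (starRingEnd ℂ) (z j) * G (μ i - μ j) := by
    rw [← integral_complex_ofReal]
    have : ∀ ξ : ℝ, ((Real.exp (-(Real.pi * r * ξ ^ 2)) *
        ‖∑ j ∈ S, z j * ee (ξ * μ j)‖ ^ 2 : ℝ) : ℂ) = ∑ i ∈ S, ∑ j ∈ S,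
          z i * (starRingEnd ℂ) (z j) *
            ((Real.exp (-(Real.pi * r * ξ ^ 2)) : ℂ) * ee (ξ * (μ i - μ j))) := by
      intro ξ
      rw [Complex.ofReal_mul, norm_sq_sum_ee, Finset.mul_sum]
      refine Finset.sum_congr rfl fun i _ => ?_
      rw [Finset.mul_sum]
      refine Finset.sum_congr rfl fun j _ => by ring
    simp_rw [this]
    rw [integral_finsetSum _ fun i _ => integrable_finsetSum _ fun j _ =>
      (integrable_gauss_ee hr _).const_mul _]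
    refine Finset.sum_congr rfl fun i _ => ?_
    rw [integral_finsetSum _ fun j _ => (integrable_gauss_ee hr _).const_mul _]
    refine Finset.sum_congr rfl fun j _ => ?_
    rw [integral_const_mul, integral_gauss_ee hr]
  have hrow : ∀ i ∈ S, ∑ j ∈ S, G (μ j - μ i) ≤ 2 * (1 + r) / √r * S0 δ := by
    intro i _
    calc ∑ j ∈ S, G (μ j - μ i)
        ≤ ∑ j ∈ S, 2 * (1 + r) / √r * (1 / (1 + |μ j - μ i|) ^ 2) := by
          refine Finset.sum_le_sum fun j _ => ?_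
          simp only [hG]
          rw [div_mul_eq_mul_div]
          exact div_le_div_of_nonneg_right (gauss_le hr _) hsr.le
      _ ≤ _ := by
          rw [← Finset.mul_sum]
          exact mul_le_mul_of_nonneg_left (sum_sep_le hδ S μ h _) (by positivity)
  have hsym : ∀ u v, G (u - v) = G (v - u) := fun u v => by
    simp only [hG]; congr 4; ring
  have e2 := congrArg (fun t : ℂ => ‖t‖) e1
  simp only [Complex.norm_real] at e2
  refine (le_abs_self _).trans ?_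
  rw [← Real.norm_eq_abs, e2]
  calc ‖∑ i ∈ S, ∑ j ∈ S, z i * (starRingEnd ℂ) (z j) * (G (μ i - μ j) : ℂ)‖
      ≤ ∑ i ∈ S, ∑ j ∈ S, (‖z i‖ ^ 2 / 2 * G (μ j - μ i) + ‖z j‖ ^ 2 / 2 * G (μ i - μ j)) := by
        refine (norm_sum_le _ _).trans (Finset.sum_le_sum fun i _ => ?_)
        refine (norm_sum_le _ _).trans (Finset.sum_le_sum fun j _ => ?_)
        rw [norm_mul, norm_mul, Complex.norm_conj, Complex.norm_real,
          Real.norm_of_nonneg (hG0 _), hsym (μ j) (μ i)]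
        nlinarith [mul_nonneg (sq_nonneg (‖z i‖ - ‖z j‖)) (hG0 (μ i - μ j))]
    _ = ∑ i ∈ S, ‖z i‖ ^ 2 * ∑ j ∈ S, G (μ j - μ i) := by
        simp_rw [Finset.sum_add_distrib]
        rw [Finset.sum_comm (f := fun i j => ‖z j‖ ^ 2 / 2 * G (μ i - μ j)),
          ← Finset.sum_add_distrib]
        refine Finset.sum_congr rfl fun i _ => ?_
        rw [← Finset.mul_sum]; ring
    _ ≤ ∑ i ∈ S, ‖z i‖ ^ 2 * (2 * (1 + r) / √r * S0 δ) :=
        Finset.sum_le_sum fun i hi => mul_le_mul_of_nonneg_left (hrow i hi) (by positivity)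
    _ = _ := by rw [← Finset.sum_mul, mul_comm]

/-- Bessel bound on a bounded set. -/
theorem bessel_bdd {δ : ℝ} (hδ : 0 < δ) (R : ℝ) :
    ∃ B : ℝ, 0 < B ∧ ∀ {ι : Type} (K : Set ℝ), K ⊆ Icc (-R) R → ∀ (S : Finset ι) (μ : ι → ℝ),
      (∀ i ∈ S, ∀ j ∈ S, i ≠ j → δ ≤ |μ i - μ j|) → ∀ z : ι → ℂ,
        ∫ ξ in K, ‖∑ j ∈ S, z j * ee (ξ * μ j)‖ ^ 2 ≤ B * ∑ j ∈ S, ‖z j‖ ^ 2 := by
  have hS := S0_nonneg hδ
  refine ⟨Real.exp (Real.pi * R ^ 2) * (2 * (1 + 1) / √1 * S0 δ) + 1, by positivity, ?_⟩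
  intro ι K hK S μ h z
  have hint := integrable_gauss_sum one_pos S μ z
  have hc : Continuous fun ξ : ℝ => ‖∑ j ∈ S, z j * ee (ξ * μ j)‖ ^ 2 := by fun_prop
  calc ∫ ξ in K, ‖∑ j ∈ S, z j * ee (ξ * μ j)‖ ^ 2
      ≤ ∫ ξ in Icc (-R) R, ‖∑ j ∈ S, z j * ee (ξ * μ j)‖ ^ 2 :=
        setIntegral_mono_set hc.integrableOn_Icc (Eventually.of_forall fun _ => by positivity)
          hK.eventuallyLE
    _ ≤ ∫ ξ in Icc (-R) R, Real.exp (Real.pi * R ^ 2) *
          (Real.exp (-(Real.pi * 1 * ξ ^ 2)) * ‖∑ j ∈ S, z j * ee (ξ * μ j)‖ ^ 2) := by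
        refine setIntegral_mono_on hc.integrableOn_Icc (hint.const_mul _).integrableOn
          measurableSet_Icc fun ξ hξ => ?_
        rw [← mul_assoc, ← Real.exp_add]
        refine le_mul_of_one_le_left (by positivity) (Real.one_le_exp ?_)
        have : ξ ^ 2 ≤ R ^ 2 := sq_le_sq' hξ.1 hξ.2
        nlinarith [Real.pi_pos]
    _ ≤ ∫ ξ, Real.exp (Real.pi * R ^ 2) *
          (Real.exp (-(Real.pi * 1 * ξ ^ 2)) * ‖∑ j ∈ S, z j * ee (ξ * μ j)‖ ^ 2) :=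
        setIntegral_le_integral (hint.const_mul _) (Eventually.of_forall fun _ => by positivity)
    _ ≤ Real.exp (Real.pi * R ^ 2) * ((2 * (1 + 1) / √1 * S0 δ) * ∑ j ∈ S, ‖z j‖ ^ 2) := by
        rw [integral_const_mul]
        exact mul_le_mul_of_nonneg_left (bessel_gauss hδ one_pos S μ h z) (by positivity)
    _ ≤ _ := by
        have : 0 ≤ ∑ j ∈ S, ‖z j‖ ^ 2 := by positivity
        nlinarith

end Pool.Agent.P.MP_731e7b_an
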