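import Pool.Agent.P.MP_731e7b_an.Basic

/-!
Construction of a positive log-Lipschitz window reproduced by an integrable kernel.
-/

open MeasureTheory Set Filter Topology FourierTransform

namespace Pool.Agent.P.MP_731e7b_an

namespace Bump

/-- A smooth bump as a complex Schwartz function. -/
noncomputable def sch (β : ContDiffBump (0 : ℝ)) : SchwartzMap ℝ ℂ :=
  HasCompactSupport.toSchwartzMap (f := fun x => ((β x : ℝ) : ℂ))
    (β.hasCompactSupport.comp_left (g := fun t : ℝ => (t : ℂ)) Complex.ofReal_zero)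
    (Complex.ofRealCLM.contDiff.comp β.contDiff)

theorem sch_apply (β : ContDiffBump (0 : ℝ)) (x : ℝ) : sch β x = ((β x : ℝ) : ℂ) := rfl

theorem fourier_eq_ee (f : ℝ → ℂ) (t : ℝ) : 𝓕 f t = ∫ y, f y * ee (-(t * y)) := by
  rw [Real.fourier_real_eq_integral_exp_smul]
  refine integral_congr_ae (Eventually.of_forall fun y => ?_)
  simp only [smul_eq_mul, ee]
  rw [mul_comm]
  congr 2
  push_cast
  ring

theorem fourierInv_eq_ee (f : ℝ → ℂ) (x : ℝ) : 𝓕⁻ f x = ∫ s, f s * ee (s * x) := by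
  rw [Real.fourierInv_eq_fourier_neg, fourier_eq_ee]
  refine integral_congr_ae (Eventually.of_forall fun y => ?_)
  simp only
  congr 2
  ring

theorem exists_phi : ∃ Φ : ℝ → ℂ, Integrable Φ ∧
    ∀ t : ℝ, |t| ≤ 1 → ∫ y, Φ y * ee (-(t * y)) = 1 := by
  let β : ContDiffBump (0 : ℝ) := ⟨1, 2, one_pos, one_lt_two⟩
  refine ⟨(𝓕⁻ (sch β) : SchwartzMap ℝ ℂ), (𝓕⁻ (sch β) : SchwartzMap ℝ ℂ).integrable,
    fun t ht => ?_⟩
  rw [← fourier_eq_ee, ← SchwartzMap.fourier_coe, fourier_fourierInv_eq, sch_apply,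
    β.one_of_mem_closedBall (by simpa using ht)]
  simp

theorem exists_psi : ∃ (m : ℝ → ℂ) (p : ℝ → ℝ) (D : ℝ), Integrable m ∧
    (∀ s : ℝ, 1 / 2 < |s| → m s = 0) ∧ (∀ x, ∫ s, m s * ee (s * x) = (p x : ℂ)) ∧
    Continuous p ∧ p 0 ≠ 0 ∧ ∀ x, (1 + |x|) ^ 2 * |p x| ≤ D := by
  let β : ContDiffBump (0 : ℝ) := ⟨1 / 4, 1 / 2, by norm_num, by norm_num⟩
  let ψ : SchwartzMap ℝ ℂ := 𝓕⁻ (sch β)
  have hψ : ∀ x, ψ x = ∫ s, ((β s : ℝ) : ℂ) * ee (s * x) := fun x => by
    have := fourierInv_eq_ee (sch β) x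
    rw [← SchwartzMap.fourierInv_coe] at this
    exact this
  have hreal : ∀ x, ((ψ x).re : ℂ) = ψ x := fun x => by
    rw [← Complex.conj_eq_iff_re, hψ, ← integral_conj,
      ← integral_neg_eq_self (fun s => ((β s : ℝ) : ℂ) * ee (s * x))]
    refine integral_congr_ae (Eventually.of_forall fun s => ?_)
    simp only
    rw [map_mul, Complex.conj_ofReal, ← ee_neg, β.neg, neg_mul]
  refine ⟨fun s => ((β s : ℝ) : ℂ), fun x => (ψ x).re,
    2 * (SchwartzMap.seminorm ℝ 0 0 ψ + SchwartzMap.seminorm ℝ 2 0 ψ), (sch β).integrable,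
    fun s hs => ?_, fun x => ?_, Complex.continuous_re.comp ψ.continuous, ?_, fun x => ?_⟩
  · have : β s = 0 := β.zero_of_le_dist (by rw [Real.dist_eq, sub_zero]; exact hs.le)
    simp [this]
  · rw [hreal, hψ]
  · have h1 : ψ 0 = ((∫ s, β s : ℝ) : ℂ) := by
      rw [hψ, ← integral_complex_ofReal]
      simp [ee_zero]
    simp only [h1, Complex.ofReal_re]
    exact β.integral_pos.ne'
  · have h0 := SchwartzMap.norm_le_seminorm ℝ ψ x
    have h2 := SchwartzMap.norm_pow_mul_le_seminorm ℝ ψ 2 x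
    have h3 : |(ψ x).re| ≤ ‖ψ x‖ := Complex.abs_re_le_norm _
    rw [Real.norm_eq_abs] at h2
    have h4 : (1 + |x|) ^ 2 ≤ 2 * (1 + |x| ^ 2) := by nlinarith [sq_nonneg (|x| - 1)]
    calc (1 + |x|) ^ 2 * |(ψ x).re| ≤ (2 * (1 + |x| ^ 2)) * ‖ψ x‖ :=
          mul_le_mul h4 h3 (abs_nonneg _) (by positivity)
      _ = 2 * (‖ψ x‖ + |x| ^ 2 * ‖ψ x‖) := by ring
      _ ≤ _ := by linarith

/-- `G` and its modulations of frequency at most `a` are reproduced by `Φ`. -/
def Rep (Φ : ℝ → ℂ) (a : ℝ) (G : ℝ → ℂ) : Prop :=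
  ∀ t : ℝ, |t| ≤ a → ∀ x, ∫ y, Φ y * (G (x - y) * ee (t * (x - y))) = G x * ee (t * x)

theorem rep_one {Φ : ℝ → ℂ} (h : ∀ t : ℝ, |t| ≤ 1 → ∫ y, Φ y * ee (-(t * y)) = 1) :
    Rep Φ 1 fun _ => 1 := by
  intro t ht x
  have : ∀ y, Φ y * (1 * ee (t * (x - y))) = ee (t * x) * (Φ y * ee (-(t * y))) := fun y => by
    rw [show t * (x - y) = t * x + -(t * y) by ring, ee_add]; ring
  simp_rw [this]
  rw [integral_const_mul, h t ht]
  ring

theorem rep_step {Φ G m : ℝ → ℂ} {a a' M : ℝ} (hΦ : Integrable Φ) (hG : Continuous G)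
    (hM : ∀ x, ‖G x‖ ≤ M) (h : Rep Φ a G) (hm : Integrable m)
    (hm0 : ∀ s : ℝ, a' < |s| → m s = 0) :
    Rep Φ (a - a') fun x => G x * ∫ s, m s * ee (s * x) := by
  intro t ht x
  have hint : Integrable (Function.uncurry fun y s : ℝ =>
      m s * (Φ y * (G (x - y) * ee ((s + t) * (x - y))))) (volume.prod volume) := by
    have h1 : Integrable (fun z : ℝ × ℝ => Φ z.1 * m z.2) (volume.prod volume) :=
      hΦ.mul_prod hm
    have h2 : Continuous fun z : ℝ × ℝ => G (x - z.1) * ee ((z.2 + t) * (x - z.1)) := by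
      fun_prop
    have h3 := h1.mul_bdd (c := M) h2.aestronglyMeasurable (Eventually.of_forall fun z => by
      rw [norm_mul, norm_ee, mul_one]; exact hM _)
    refine h3.congr (Eventually.of_forall fun z => ?_)
    simp only [Function.uncurry]
    ring
  have e1 : ∀ y, Φ y * ((G (x - y) * ∫ s, m s * ee (s * (x - y))) * ee (t * (x - y))) =
      ∫ s, m s * (Φ y * (G (x - y) * ee ((s + t) * (x - y)))) := fun y => by
    rw [← integral_const_mul, ← integral_mul_const, ← integral_const_mul]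
    refine integral_congr_ae (Eventually.of_forall fun s => ?_)
    simp only
    rw [add_mul, ee_add]; ring
  simp only
  simp_rw [e1]
  rw [integral_integral_swap hint, ← integral_const_mul, ← integral_mul_const]
  refine integral_congr_ae (Eventually.of_forall fun s => ?_)
  simp only
  rw [integral_const_mul]
  by_cases hs : a' < |s|
  · rw [hm0 s hs]; simp
  · have hst : |s + t| ≤ a := (abs_add_le s t).trans (by linarith [not_lt.mp hs])
    rw [h (s + t) hst x, add_mul, ee_add]; ring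

theorem exists_b0 : ∃ (Φ : ℝ → ℂ) (b0 : ℝ → ℝ) (D : ℝ), Integrable Φ ∧ Continuous b0 ∧
    (∀ x, 0 ≤ b0 x) ∧ 0 < b0 0 ∧ (∀ x, (1 + |x|) ^ 4 * b0 x ≤ D) ∧
    ∀ x, ∫ y, Φ y * (b0 (x - y) : ℂ) = b0 x := by
  obtain ⟨Φ, hΦ, h0⟩ := exists_phi
  obtain ⟨m, p, D, hm, hm0, hp, hc, hp0, hD⟩ := exists_psi
  have hpD : ∀ x, |p x| ≤ D := fun x =>
    (le_mul_of_one_le_left (abs_nonneg _) (one_le_pow₀ (by linarith [abs_nonneg x]))).trans (hD x)
  have r1 := rep_step (M := 1) hΦ continuous_const (fun _ => by simp) (rep_one h0) hm hm0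
  simp only [hp, one_mul] at r1
  have r2 := rep_step (M := D) hΦ (Complex.continuous_ofReal.comp hc)
    (fun x => by simpa using hpD x) r1 hm hm0
  simp only [hp] at r2
  refine ⟨Φ, fun x => p x ^ 2, D ^ 2, hΦ, by fun_prop, fun x => sq_nonneg _, by positivity,
    fun x => ?_, fun x => ?_⟩
  · have h1 := pow_le_pow_left₀ (by positivity) (hD x) 2
    rw [mul_pow, sq_abs] at h1
    calc (1 + |x|) ^ 4 * p x ^ 2 = ((1 + |x|) ^ 2) ^ 2 * p x ^ 2 := by ring
      _ ≤ _ := h1
  · have h1 := r2 0 (by norm_num) x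
    simp only [zero_mul, ee_zero, mul_one, Function.comp_apply] at h1
    push_cast
    simp_rw [sq]
    exact h1

theorem weight_le (v : ℝ) :
    (1 + |v|) ^ 4 * Real.exp (-|v|) ≤ 720 * Real.exp 1 * (1 + v ^ 2)⁻¹ := by
  have h1 := Real.pow_div_factorial_le_exp (1 + |v|) (by positivity) 6
  have h2 : ((Nat.factorial 6 : ℕ) : ℝ) = 720 := by norm_num [Nat.factorial]
  rw [h2, div_le_iff₀ (by norm_num), Real.exp_add] at h1
  have h3 : 1 + v ^ 2 ≤ (1 + |v|) ^ 2 := by nlinarith [abs_nonneg v, sq_abs v]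
  rw [Real.exp_neg, ← div_eq_mul_inv, ← div_eq_mul_inv,
    div_le_div_iff₀ (Real.exp_pos _) (by positivity)]
  calc (1 + |v|) ^ 4 * (1 + v ^ 2) ≤ (1 + |v|) ^ 4 * (1 + |v|) ^ 2 :=
        mul_le_mul_of_nonneg_left h3 (by positivity)
    _ = (1 + |v|) ^ 6 := by ring
    _ ≤ _ := by linarith

theorem integrable_weight : Integrable fun v : ℝ => (1 + |v|) ^ 4 * Real.exp (-|v|) := by
  refine Integrable.mono' (integrable_inv_one_add_sq.const_mul (720 * Real.exp 1))
    (Continuous.aestronglyMeasurable (by fun_prop)) (Eventually.of_forall fun v => ?_)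
  rw [Real.norm_of_nonneg (by positivity)]
  exact weight_le v

theorem integrable_expabs : Integrable fun v : ℝ => Real.exp (-|v|) := by
  refine Integrable.mono' integrable_weight
    (Continuous.aestronglyMeasurable (by fun_prop)) (Eventually.of_forall fun v => ?_)
  rw [Real.norm_of_nonneg (by positivity)]
  exact le_mul_of_one_le_left (by positivity) (one_le_pow₀ (by linarith [abs_nonneg v]))

end Bump

open Bump in
theorem exists_win : ∃ (Φ : ℝ → ℂ) (b : ℝ → ℝ) (C : ℝ), Integrable Φ ∧ IsWin b C ∧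
    ∀ x, ∫ y, Φ y * (b (x - y) : ℂ) = b x := by
  obtain ⟨Φ, b0, D, hΦ, hc, hnn, h0, hD, hrep⟩ := exists_b0
  have hbD : ∀ x, b0 x ≤ D := fun x =>
    (le_mul_of_one_le_left (hnn x) (one_le_pow₀ (by linarith [abs_nonneg x]))).trans (hD x)
  have hD0 : 0 ≤ D := (hnn 0).trans (hbD 0)
  have hint : ∀ u w : ℝ, Integrable fun v : ℝ => b0 (u - v) * Real.exp (-|v + w|) := fun u w => by
    refine (integrable_expabs.comp_add_right w).bdd_mul (c := D)
      (Continuous.aestronglyMeasurable (by fun_prop)) (Eventually.of_forall fun v => ?_)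
    rw [Real.norm_of_nonneg (hnn _)]
    exact hbD _
  have hint0 : ∀ u : ℝ, Integrable fun v : ℝ => b0 (u - v) * Real.exp (-|v|) := fun u => by
    simpa using hint u 0
  refine ⟨Φ, fun u => ∫ v, b0 (u - v) * Real.exp (-|v|),
    D * ∫ v, (1 + |v|) ^ 4 * Real.exp (-|v|), hΦ, ⟨fun u => ?_, fun u w => ?_, fun u => ?_⟩,
    fun x => ?_⟩
  · refine integral_pos_of_integrable_nonneg_nonzero (x := u) (by fun_prop) (hint0 u)
      (fun v => mul_nonneg (hnn _) (Real.exp_pos _).le) ?_
    rw [sub_self]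
    exact (mul_pos h0 (Real.exp_pos _)).ne'
  · have e1 : ∫ v, b0 (u + w - v) * Real.exp (-|v|) =
        ∫ v, b0 (u - v) * Real.exp (-|v + w|) := by
      rw [← integral_add_right_eq_self (fun v => b0 (u + w - v) * Real.exp (-|v|)) w]
      refine integral_congr_ae (Eventually.of_forall fun v => ?_)
      simp only
      congr 2
      ring
    rw [e1, ← integral_const_mul]
    refine integral_mono (hint u w) ((hint0 u).const_mul _) fun v => ?_
    simp only
    rw [mul_left_comm, ← Real.exp_add]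
    refine mul_le_mul_of_nonneg_left (Real.exp_le_exp.mpr ?_) (hnn _)
    have := abs_sub (v + w) w
    rw [add_sub_cancel_right] at this
    linarith
  · rw [le_div_iff₀ (by positivity), ← integral_mul_const, ← integral_const_mul]
    refine integral_mono ((hint0 u).mul_const _) (integrable_weight.const_mul _) fun v => ?_
    simp only
    have h1 : 1 + |u| ≤ (1 + |u - v|) * (1 + |v|) := by
      have := abs_add_le (u - v) v
      rw [sub_add_cancel] at this
      nlinarith [mul_nonneg (abs_nonneg (u - v)) (abs_nonneg v)]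
    have h2 : (1 + |u|) ^ 4 ≤ (1 + |u - v|) ^ 4 * (1 + |v|) ^ 4 := by
      rw [← mul_pow]; exact pow_le_pow_left₀ (by positivity) h1 4
    have h3 := hD (u - v)
    have h4 := hnn (u - v)
    have h5 := Real.exp_pos (-|v|)
    calc b0 (u - v) * Real.exp (-|v|) * (1 + |u|) ^ 4
        ≤ b0 (u - v) * Real.exp (-|v|) * ((1 + |u - v|) ^ 4 * (1 + |v|) ^ 4) :=
          mul_le_mul_of_nonneg_left h2 (by positivity)
      _ = ((1 + |u - v|) ^ 4 * b0 (u - v)) * ((1 + |v|) ^ 4 * Real.exp (-|v|)) := by ring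
      _ ≤ _ := mul_le_mul_of_nonneg_right h3 (by positivity)
  · have hI : Integrable (Function.uncurry fun y v : ℝ =>
        (Real.exp (-|v|) : ℂ) * (Φ y * (b0 (x - v - y) : ℂ))) (volume.prod volume) := by
      have h1 : Integrable (fun z : ℝ × ℝ => Φ z.1 * (Real.exp (-|z.2|) : ℂ))
          (volume.prod volume) := hΦ.mul_prod integrable_expabs.ofReal
      have h2 : Continuous fun z : ℝ × ℝ => (b0 (x - z.2 - z.1) : ℂ) := by fun_prop
      have h3 := h1.mul_bdd (c := D) h2.aestronglyMeasurable (Eventually.of_forall fun z => by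
        rw [Complex.norm_real, Real.norm_of_nonneg (hnn _)]; exact hbD _)
      refine h3.congr (Eventually.of_forall fun z => ?_)
      simp only [Function.uncurry]
      ring
    have e1 : ∀ y, Φ y * ((∫ v, b0 (x - y - v) * Real.exp (-|v|) : ℝ) : ℂ) =
        ∫ v, (Real.exp (-|v|) : ℂ) * (Φ y * (b0 (x - v - y) : ℂ)) := fun y => by
      rw [← integral_complex_ofReal, ← integral_const_mul]
      refine integral_congr_ae (Eventually.of_forall fun v => ?_)
      simp only
      rw [show x - y - v = x - v - y by ring, Complex.ofReal_mul]; ring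
    simp only
    simp_rw [e1]
    rw [integral_integral_swap hI, ← integral_complex_ofReal]
    refine integral_congr_ae (Eventually.of_forall fun v => ?_)
    simp only
    rw [integral_const_mul, hrep, Complex.ofReal_mul, mul_comm]

end Pool.Agent.P.MP_731e7b_an
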