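import Pool.Agent.P.MP_731e7b_an.Basic

/-!
A Riesz lower bound for translates in `L²` gives a lower bound for exponentials on a compact set.
-/

open MeasureTheory Set Filter Topology

namespace Pool.Agent.P.MP_731e7b_an

namespace Coer

/-- The `L¹` modulus of continuity. -/
noncomputable def om (f : ℝ → ℂ) (s : ℝ) : ℝ := ∫ y, ‖f (y + s) - f y‖

theorem om_nonneg (f : ℝ → ℂ) (s : ℝ) : 0 ≤ om f s := integral_nonneg fun _ => norm_nonneg _

theorem om_zero (f : ℝ → ℂ) : om f 0 = 0 := by simp [om]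

theorem cs (S : Finset ℝ) (y : ℝ → ℝ) (g : ℝ → ℂ) :
    ‖∑ l ∈ S, (y l : ℂ) * g l‖ ^ 2 ≤ (∑ l ∈ S, ‖g l‖) * ∑ l ∈ S, y l ^ 2 * ‖g l‖ := by
  have h1 : ‖∑ l ∈ S, (y l : ℂ) * g l‖ ≤ ∑ l ∈ S, |y l| * ‖g l‖ := by
    refine (norm_sum_le _ _).trans (Finset.sum_le_sum fun l _ => ?_)
    rw [norm_mul, Complex.norm_real, Real.norm_eq_abs]
  refine (pow_le_pow_left₀ (norm_nonneg _) h1 2).trans ?_
  refine Finset.sum_sq_le_sum_mul_sum_of_sq_le_mul S (fun l _ => norm_nonneg _)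
    (fun l _ => by positivity) fun l _ => le_of_eq ?_
  rw [mul_pow, sq_abs]; ring

theorem integrable_comb {g : ℝ → ℂ} (hg : Integrable g) (S : Finset ℝ) (y : ℝ → ℝ) :
    Integrable fun x => ∑ l ∈ S, (y l : ℂ) * g (x - l) :=
  integrable_finsetSum _ fun l _ => (hg.comp_sub_right l).const_mul _

theorem sq_bound {g : ℝ → ℂ} (hg : Integrable g) (S : Finset ℝ) (y : ℝ → ℝ) {V : ℝ}
    (hV : ∀ᵐ x, ∑ l ∈ S, ‖g (x - l)‖ ≤ V) :
    Integrable (fun x => ‖∑ l ∈ S, (y l : ℂ) * g (x - l)‖ ^ 2) ∧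
      ∫ x, ‖∑ l ∈ S, (y l : ℂ) * g (x - l)‖ ^ 2 ≤ V * (∫ x, ‖g x‖) * ∑ l ∈ S, y l ^ 2 := by
  have hb : Integrable fun x => V * ∑ l ∈ S, y l ^ 2 * ‖g (x - l)‖ :=
    (integrable_finsetSum _ fun l _ => (hg.comp_sub_right l).norm.const_mul _).const_mul _
  have hle : ∀ᵐ x, ‖∑ l ∈ S, (y l : ℂ) * g (x - l)‖ ^ 2 ≤
      V * ∑ l ∈ S, y l ^ 2 * ‖g (x - l)‖ := by
    filter_upwards [hV] with x hx
    exact (cs S y fun l => g (x - l)).trans
      (mul_le_mul_of_nonneg_right hx (Finset.sum_nonneg fun l _ => by positivity))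
  have hi : Integrable (fun x => ‖∑ l ∈ S, (y l : ℂ) * g (x - l)‖ ^ 2) := by
    refine Integrable.mono' hb ((integrable_comb hg S y).norm.aestronglyMeasurable.pow 2) ?_
    filter_upwards [hle] with x hx
    rwa [Real.norm_of_nonneg (by positivity)]
  refine ⟨hi, (integral_mono_ae hi hb hle).trans (le_of_eq ?_)⟩
  rw [integral_const_mul, integral_finsetSum _ fun l _ =>
    (hg.comp_sub_right l).norm.const_mul _, mul_assoc]
  congr 1
  rw [Finset.mul_sum]
  refine Finset.sum_congr rfl fun l _ => ?_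
  rw [integral_const_mul, integral_sub_right_eq_self (fun x => ‖g x‖) l, mul_comm]

theorem fin_bound {f : ℝ → ℂ} {Λ : Set ℝ} {W : ℝ}
    (hbdd : ∀ᵐ x, Summable (fun l : Λ => ‖f (x - l)‖) ∧ ∑' l : Λ, ‖f (x - l)‖ ≤ W)
    (S : Finset ℝ) (hS : (S : Set ℝ) ⊆ Λ) : ∀ᵐ x, ∑ l ∈ S, ‖f (x - l)‖ ≤ W := by
  classical
  filter_upwards [hbdd] with x hx
  refine le_trans ?_ hx.2
  rw [← Finset.sum_subtype_of_mem (p := fun l => l ∈ Λ) (fun l => ‖f (x - l)‖) fun l hl => hS hl]
  exact hx.1.sum_le_tsum _ fun _ _ => norm_nonneg _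

theorem shift_bound {f : ℝ → ℂ} (hf : Integrable f) (S : Finset ℝ) (y : ℝ → ℝ) {W : ℝ}
    (hW : ∀ᵐ x, ∑ l ∈ S, ‖f (x - l)‖ ≤ W) (s : ℝ) :
    ∫ x, ‖∑ l ∈ S, (y l : ℂ) * f (x + s - l) - ∑ l ∈ S, (y l : ℂ) * f (x - l)‖ ^ 2 ≤
      2 * W * om f s * ∑ l ∈ S, y l ^ 2 := by
  have hg : Integrable fun x => f (x + s) - f x := (hf.comp_add_right s).sub hf
  have hW' : ∀ᵐ x, ∑ l ∈ S, ‖f (x + s - l)‖ ≤ W :=
    (measurePreserving_add_right volume s).quasiMeasurePreserving.ae hW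
  have hV : ∀ᵐ x, ∑ l ∈ S, ‖(fun x => f (x + s) - f x) (x - l)‖ ≤ 2 * W := by
    filter_upwards [hW, hW'] with x h1 h2
    calc ∑ l ∈ S, ‖(fun x => f (x + s) - f x) (x - l)‖
        ≤ ∑ l ∈ S, (‖f (x + s - l)‖ + ‖f (x - l)‖) := Finset.sum_le_sum fun l _ => by
          rw [show x + s - l = x - l + s by ring]; exact norm_sub_le _ _
      _ ≤ 2 * W := by rw [Finset.sum_add_distrib]; linarith
  refine le_trans (le_of_eq ?_) (sq_bound hg S y hV).2
  refine integral_congr_ae (Eventually.of_forall fun x => ?_)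
  simp only [← Finset.sum_sub_distrib, ← mul_sub]
  congr 2
  refine Finset.sum_congr rfl fun l _ => ?_
  rw [show x + s - l = x - l + s by ring]

/-- The autocorrelation. -/
noncomputable def ac (F : ℝ → ℂ) (s : ℝ) : ℂ := ∫ x, (starRingEnd ℂ) (F x) * F (x + s)

theorem re_ac {F : ℝ → ℂ} (hF : Integrable F) (h2 : Integrable fun x => ‖F x‖ ^ 2) (s : ℝ) :
    (ac F s).re = (∫ x, ‖F x‖ ^ 2) - (∫ x, ‖F (x + s) - F x‖ ^ 2) / 2 := by
  have h3 : Integrable fun x => ‖F (x + s)‖ ^ 2 := h2.comp_add_right s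
  have hm : AEStronglyMeasurable (fun x => (starRingEnd ℂ) (F x) * F (x + s)) volume :=
    (Complex.continuous_conj.comp_aestronglyMeasurable hF.aestronglyMeasurable).mul
      (hF.comp_add_right s).aestronglyMeasurable
  have h4 : Integrable fun x => (starRingEnd ℂ) (F x) * F (x + s) := by
    refine Integrable.mono' (h2.add h3) hm (Eventually.of_forall fun x => ?_)
    rw [norm_mul, Complex.norm_conj, Pi.add_apply]
    nlinarith [sq_nonneg (‖F x‖ - ‖F (x + s)‖), norm_nonneg (F x), norm_nonneg (F (x + s))]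
  have e : ∀ x, ‖F (x + s) - F x‖ ^ 2 = ‖F x‖ ^ 2 + ‖F (x + s)‖ ^ 2 -
      2 * ((starRingEnd ℂ) (F x) * F (x + s)).re := by
    intro x
    simp only [← Complex.normSq_eq_norm_sq, Complex.normSq_apply, Complex.sub_re, Complex.sub_im,
      Complex.mul_re, Complex.conj_re, Complex.conj_im]
    ring
  have h5 : Integrable fun x => ((starRingEnd ℂ) (F x) * F (x + s)).re := h4.re
  have h23 : Integrable fun x => ‖F x‖ ^ 2 + ‖F (x + s)‖ ^ 2 := h2.add h3
  simp_rw [e]
  rw [integral_sub h23 (h5.const_mul 2), integral_add h2 h3, integral_const_mul,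
    integral_add_right_eq_self (fun x => ‖F x‖ ^ 2) s]
  have h6 : (ac F s).re = ∫ x, ((starRingEnd ℂ) (F x) * F (x + s)).re :=
    (integral_re h4).symm
  rw [h6]; ring

theorem integrable_ac_prod {F : ℝ → ℂ} (hF : Integrable F) :
    Integrable (fun z : ℝ × ℝ => (starRingEnd ℂ) (F z.1) * F (z.1 + z.2))
      (volume.prod volume) := by
  have h0 : Integrable fun x => (starRingEnd ℂ) (F x) :=
    Integrable.mono' hF.norm
      (Complex.continuous_conj.comp_aestronglyMeasurable hF.aestronglyMeasurable)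
      (Eventually.of_forall fun x => by rw [Complex.norm_conj])
  have h1 := h0.mul_prod hF
  exact (measurePreserving_prod_add (volume : Measure ℝ) volume).integrable_comp_of_integrable h1

theorem integrable_ac {F : ℝ → ℂ} (hF : Integrable F) : Integrable (ac F) :=
  (integrable_ac_prod hF).integral_prod_right

theorem fh_ac {F : ℝ → ℂ} (hF : Integrable F) (ξ : ℝ) :
    fh (ac F) ξ = ((‖fh F ξ‖ ^ 2 : ℝ) : ℂ) := by
  have h1 : Integrable (fun z : ℝ × ℝ =>
      (starRingEnd ℂ) (F z.1) * F (z.1 + z.2) * ee (ξ * z.2)) (volume.prod volume) := by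
    refine Integrable.mono' (integrable_ac_prod hF).norm
      ((integrable_ac_prod hF).aestronglyMeasurable.mul
        (Continuous.aestronglyMeasurable (by fun_prop))) (Eventually.of_forall fun z => ?_)
    rw [norm_mul _ (ee _), norm_ee, mul_one]
  have e1 : fh (ac F) ξ = ∫ s, ∫ x, (starRingEnd ℂ) (F x) * F (x + s) * ee (ξ * s) := by
    simp only [fh, ac, integral_mul_const]
  have e2 : ∀ x, ∫ s, (starRingEnd ℂ) (F x) * F (x + s) * ee (ξ * s) =
      (starRingEnd ℂ) (F x * ee (ξ * x)) * fh F ξ := by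
    intro x
    rw [fh, ← integral_add_left_eq_self (fun v => F v * ee (ξ * v)) x, ← integral_const_mul]
    refine integral_congr_ae (Eventually.of_forall fun s => ?_)
    simp only
    rw [map_mul, ← ee_neg, show ξ * s = -(ξ * x) + ξ * (x + s) by ring, ee_add]
    ring
  rw [e1, ← integral_integral_swap (f := fun x s =>
    (starRingEnd ℂ) (F x) * F (x + s) * ee (ξ * s)) h1]
  simp_rw [e2]
  rw [integral_mul_const, integral_conj, ← Complex.normSq_eq_norm_sq, ← Complex.mul_conj, mul_comm]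
  rfl

theorem gauss_fh {A : ℝ → ℂ} (hA : Integrable A) {r : ℝ} (hr : 0 < r) :
    ∫ ξ, (Real.exp (-(Real.pi * r * ξ ^ 2)) : ℂ) * fh A ξ =
      ∫ s, ((Real.exp (-(Real.pi * s ^ 2 / r)) / √r : ℝ) : ℂ) * A s := by
  have h0 : Integrable fun ξ : ℝ => (Real.exp (-(Real.pi * r * ξ ^ 2)) : ℂ) :=
    (integrable_gauss hr).ofReal
  have h1 : Integrable (fun z : ℝ × ℝ =>
      (Real.exp (-(Real.pi * r * z.1 ^ 2)) : ℂ) * A z.2 * ee (z.1 * z.2)) (volume.prod volume) := by
    refine Integrable.mono' (h0.mul_prod hA).norm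
      ((h0.mul_prod hA).aestronglyMeasurable.mul
        (Continuous.aestronglyMeasurable (by fun_prop))) (Eventually.of_forall fun z => ?_)
    rw [norm_mul _ (ee _), norm_ee, mul_one]
  have e1 : ∀ ξ : ℝ, (Real.exp (-(Real.pi * r * ξ ^ 2)) : ℂ) * fh A ξ =
      ∫ s, (Real.exp (-(Real.pi * r * ξ ^ 2)) : ℂ) * A s * ee (ξ * s) := by
    intro ξ
    rw [fh, ← integral_const_mul]
    refine integral_congr_ae (Eventually.of_forall fun s => ?_)
    simp only; ring
  simp_rw [e1]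
  rw [integral_integral_swap (f := fun ξ s =>
    (Real.exp (-(Real.pi * r * ξ ^ 2)) : ℂ) * A s * ee (ξ * s)) h1]
  refine integral_congr_ae (Eventually.of_forall fun s => ?_)
  simp only
  rw [← integral_gauss_ee hr s, ← integral_mul_const]
  refine integral_congr_ae (Eventually.of_forall fun ξ => ?_)
  simp only; ring

theorem fh_comb {f : ℝ → ℂ} (hf : Integrable f) (S : Finset ℝ) (y : ℝ → ℝ) (ξ : ℝ) :
    fh (fun x => ∑ l ∈ S, (y l : ℂ) * f (x - l)) ξ =
      fh f ξ * ∑ l ∈ S, (y l : ℂ) * ee (ξ * l) := by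
  have hi : ∀ l : ℝ, Integrable fun x => (y l : ℂ) * f (x - l) * ee (ξ * x) := fun l => by
    have h0 : Integrable fun x => (y l : ℂ) * f (x - l) := (hf.comp_sub_right l).const_mul _
    refine Integrable.mono' h0.norm (h0.aestronglyMeasurable.mul
      (Continuous.aestronglyMeasurable (by fun_prop))) (Eventually.of_forall fun z => ?_)
    rw [norm_mul _ (ee _), norm_ee, mul_one]
  simp only [fh, Finset.sum_mul]
  rw [integral_finsetSum _ fun l _ => hi l, Finset.mul_sum]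
  refine Finset.sum_congr rfl fun l _ => ?_
  rw [← integral_add_right_eq_self (fun x => (y l : ℂ) * f (x - l) * ee (ξ * x)) l,
    ← integral_mul_const]
  refine integral_congr_ae (Eventually.of_forall fun x => ?_)
  simp only
  rw [add_sub_cancel_right, mul_add, ee_add]; ring

theorem norm_fh_le (f : ℝ → ℂ) (ξ : ℝ) : ‖fh f ξ‖ ≤ ∫ x, ‖f x‖ := by
  refine (norm_integral_le_integral_norm _).trans (le_of_eq ?_)
  simp only [norm_mul, norm_ee, mul_one]

theorem continuous_fh {f : ℝ → ℂ} (hf : Integrable f) : Continuous (fh f) := by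
  refine continuous_of_dominated (bound := fun v => ‖f v‖) (fun ξ => hf.aestronglyMeasurable.mul
    (Continuous.aestronglyMeasurable (by fun_prop))) (fun ξ => Eventually.of_forall fun v => ?_)
    hf.norm (Eventually.of_forall fun v => by fun_prop)
  rw [norm_mul, norm_ee, mul_one]

theorem tendsto_fh (f : ℝ → ℂ) : Tendsto (fh f) (cocompact ℝ) (𝓝 0) := by
  have h1 := (Real.tendsto_integral_exp_smul_cocompact f).comp
    (Homeomorph.neg ℝ).map_cocompact.le
  refine h1.congr fun ξ => ?_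
  change ∫ v : ℝ, Real.fourierChar (-(v * -ξ)) • f v = ∫ v, f v * ee (ξ * v)
  refine integral_congr_ae (Eventually.of_forall fun v => ?_)
  simp only [Circle.smul_def, Real.fourierChar_apply, smul_eq_mul, ee]
  rw [mul_comm]
  congr 2
  push_cast; ring

theorem isCompact_level {f : ℝ → ℂ} (hf : Integrable f) {θ : ℝ} (hθ : 0 < θ) :
    IsCompact {ξ | θ ≤ ‖fh f ξ‖} := by
  have h1 : ∀ᶠ ξ in cocompact ℝ, ‖fh f ξ‖ < θ := by
    have := (tendsto_fh f).norm
    rw [norm_zero] at this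
    exact this.eventually (gt_mem_nhds hθ)
  obtain ⟨K, hK, hK2⟩ := mem_cocompact.mp h1
  refine hK.of_isClosed_subset (isClosed_le continuous_const (continuous_fh hf).norm) ?_
  intro ξ hξ
  by_contra hn
  have h3 : ‖fh f ξ‖ < θ := hK2 hn
  exact absurd h3 (not_lt.mpr hξ)

theorem integrable_psi {r : ℝ} (hr : 0 < r) :
    Integrable fun s : ℝ => Real.exp (-(Real.pi * s ^ 2 / r)) / √r := by
  refine ((integrable_gauss (r := r⁻¹) (inv_pos.mpr hr)).div_const (√r)).congr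
    (Eventually.of_forall fun s => ?_)
  simp only
  congr 3; ring

theorem integral_psi {r : ℝ} (hr : 0 < r) :
    ∫ s : ℝ, Real.exp (-(Real.pi * s ^ 2 / r)) / √r = 1 := by
  have h1 := integral_gaussian (Real.pi / r)
  have e : ∀ s : ℝ, Real.exp (-(Real.pi * s ^ 2 / r)) = Real.exp (-(Real.pi / r) * s ^ 2) :=
    fun s => by congr 1; ring
  simp_rw [e]
  rw [integral_div, h1, show Real.pi / (Real.pi / r) = r by
    have := Real.pi_pos; field_simp]
  exact div_self (Real.sqrt_pos.mpr hr).ne'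

theorem exists_r {f : ℝ → ℂ} (hf : Integrable f) {ε : ℝ} (hε : 0 < ε) :
    ∃ r : ℝ, 0 < r ∧ ∫ s : ℝ, Real.exp (-(Real.pi * s ^ 2 / r)) / √r * om f s ≤ ε := by
  have hc : Continuous (om f) := continuous_shift_L1 hf
  have hJ : Continuous fun ρ : ℝ => ∫ t : ℝ, Real.exp (-(Real.pi * 1 * t ^ 2)) * om f (ρ * t) := by
    refine continuous_of_dominated
      (bound := fun t => Real.exp (-(Real.pi * 1 * t ^ 2)) * (2 * ∫ y, ‖f y‖))
      (fun ρ => Continuous.aestronglyMeasurable (by fun_prop))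
      (fun ρ => Eventually.of_forall fun t => ?_) ((integrable_gauss one_pos).mul_const _)
      (Eventually.of_forall fun t => by fun_prop)
    rw [Real.norm_of_nonneg (mul_nonneg (Real.exp_pos _).le (om_nonneg _ _))]
    exact mul_le_mul_of_nonneg_left (shift_L1_le hf _) (Real.exp_pos _).le
  have h0 := hJ.tendsto 0
  simp only [zero_mul, om_zero, mul_zero, integral_zero] at h0
  have h1 := (h0.eventually (gt_mem_nhds hε)).filter_mono (nhdsWithin_le_nhds (s := Ioi 0))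
  obtain ⟨ρ, h2, h3⟩ := (h1.and self_mem_nhdsWithin).exists
  have hρ : 0 < ρ := h3
  refine ⟨ρ ^ 2, by positivity, le_trans (le_of_eq ?_) h2.le⟩
  have h4 := Measure.integral_comp_mul_left
    (fun s : ℝ => Real.exp (-(Real.pi * s ^ 2 / ρ ^ 2)) * om f s) ρ
  have e : ∀ t : ℝ, Real.exp (-(Real.pi * (ρ * t) ^ 2 / ρ ^ 2)) =
      Real.exp (-(Real.pi * 1 * t ^ 2)) := fun t => by congr 2; field_simp
  simp_rw [e] at h4
  rw [h4, Real.sqrt_sq hρ.le, abs_of_pos (inv_pos.mpr hρ), smul_eq_mul, ← integral_const_mul]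
  refine integral_congr_ae (Eventually.of_forall fun s => ?_)
  simp only; ring

theorem exists_sep {f : ℝ → ℂ} (hf : Integrable f) {Λ : Set ℝ} {W c : ℝ} (hc : 0 < c)
    (hbdd : ∀ᵐ x, Summable (fun l : Λ => ‖f (x - l)‖) ∧ ∑' l : Λ, ‖f (x - l)‖ ≤ W)
    (hR : ∀ S : Finset ℝ, (S : Set ℝ) ⊆ Λ → ∀ y : ℝ → ℝ,
      c * ∑ l ∈ S, y l ^ 2 ≤ ∫ x, ‖∑ l ∈ S, (y l : ℂ) * f (x - l)‖ ^ 2) :
    ∃ δ : ℝ, 0 < δ ∧ Sep δ Λ := by
  classical
  have h0 : Tendsto (fun s => W * om f s) (𝓝 0) (𝓝 0) := by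
    have : Continuous fun s => W * om f s := continuous_const.mul (continuous_shift_L1 hf)
    simpa [om_zero] using this.tendsto 0
  obtain ⟨δ, hδ, h1⟩ := Metric.eventually_nhds_iff.mp (h0.eventually (gt_mem_nhds hc))
  refine ⟨δ, hδ, fun l hl l' hl' hne => ?_⟩
  by_contra hlt
  have h2 := h1 (y := l - l') (by simpa [Real.dist_eq] using not_le.mp hlt)
  have h3 := hR {l, l'} (by
    intro z hz
    simp only [Finset.coe_insert, Finset.coe_singleton, mem_insert_iff, mem_singleton_iff] at hz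
    rcases hz with rfl | rfl <;> assumption) (fun z => if z = l then -1 else 1)
  have h4 := shift_bound hf {l} (fun _ => 1)
    (fin_bound hbdd {l} (by simpa using hl)) (l - l')
  simp only [Finset.sum_pair hne, if_neg hne.symm, if_true] at h3
  simp only [Finset.sum_singleton] at h4
  have e : ∀ x : ℝ, ((-1 : ℝ) : ℂ) * f (x - l) + ((1 : ℝ) : ℂ) * f (x - l') =
      ((1 : ℝ) : ℂ) * f (x + (l - l') - l) - ((1 : ℝ) : ℂ) * f (x - l) := fun x => by
    rw [show x + (l - l') - l = x - l' by ring]; push_cast; ring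
  simp_rw [e] at h3
  linarith

end Coer

open Coer in
theorem coer (f : ℝ → ℂ) (hf : Integrable f) (Λ : Set ℝ) (W c : ℝ) (hc : 0 < c)
    (hbdd : ∀ᵐ x, Summable (fun l : Λ => ‖f (x - l)‖) ∧ ∑' l : Λ, ‖f (x - l)‖ ≤ W)
    (hR : ∀ S : Finset ℝ, (S : Set ℝ) ⊆ Λ → ∀ y : ℝ → ℝ,
      c * ∑ l ∈ S, y l ^ 2 ≤ ∫ x, ‖∑ l ∈ S, (y l : ℂ) * f (x - l)‖ ^ 2) :
    ∃ (K : Set ℝ) (c0 : ℝ), IsCompact K ∧ (∀ ξ ∈ K, fh f ξ ≠ 0) ∧ 0 < c0 ∧
      ∀ S : Finset ℝ, (S : Set ℝ) ⊆ Λ → ∀ y : ℝ → ℝ,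
        c0 * ∑ l ∈ S, y l ^ 2 ≤ ∫ ξ in K, ‖∑ l ∈ S, (y l : ℂ) * ee (ξ * l)‖ ^ 2 := by
  obtain ⟨δ, hδ, hsep⟩ := exists_sep hf hc hbdd hR
  have hW : 0 ≤ W := by
    obtain ⟨x, hx⟩ := hbdd.exists
    exact (tsum_nonneg fun _ => norm_nonneg _).trans hx.2
  obtain ⟨r, hr, hr2⟩ := exists_r hf (ε := c / (2 * (W + 1))) (by positivity)
  set B : ℝ := 2 * (1 + r) / √r * S0 δ with hB
  have hB0 : 0 ≤ B := by have := S0_nonneg hδ; positivity
  set θ : ℝ := √(c / (4 * (B + 1))) with hθ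
  have hθ0 : 0 < θ := Real.sqrt_pos.mpr (by positivity)
  have hθ2 : θ ^ 2 * B ≤ c / 4 := by
    rw [hθ, Real.sq_sqrt (by positivity), div_mul_eq_mul_div, div_le_div_iff₀ (by positivity)
      (by positivity)]
    nlinarith
  set M : ℝ := ∫ x, ‖f x‖ with hM
  have hK := isCompact_level hf hθ0
  refine ⟨{ξ | θ ≤ ‖fh f ξ‖}, c / (4 * (M ^ 2 + 1)), hK, fun ξ hξ h0 => ?_, by positivity,
    fun S hS y => ?_⟩
  · have : θ ≤ ‖fh f ξ‖ := hξ
    rw [h0, norm_zero] at this
    linarith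
  set Y : ℝ := ∑ l ∈ S, y l ^ 2 with hY
  have hY0 : 0 ≤ Y := Finset.sum_nonneg fun _ _ => sq_nonneg _
  set F : ℝ → ℂ := fun x => ∑ l ∈ S, (y l : ℂ) * f (x - l) with hF
  set E : ℝ → ℝ := fun ξ => ‖∑ l ∈ S, (y l : ℂ) * ee (ξ * l)‖ ^ 2 with hE
  have hE0 : ∀ ξ, 0 ≤ E ξ := fun ξ => by positivity
  have hEc : Continuous E := by simp only [hE]; fun_prop
  have hFi : Integrable F := integrable_comb hf S y
  have hfb := fin_bound hbdd S hS
  have hF2 : Integrable fun x => ‖F x‖ ^ 2 := (sq_bound hf S y hfb).1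
  set ψ : ℝ → ℝ := fun s => Real.exp (-(Real.pi * s ^ 2 / r)) / √r with hψ
  have hψ0 : ∀ s, 0 ≤ ψ s := fun s => by positivity
  have hψi : Integrable ψ := integrable_psi hr
  have hψc : Continuous ψ := by simp only [hψ]; fun_prop
  have hψb : ∀ s, ‖ψ s‖ ≤ 1 / √r := fun s => by
    rw [Real.norm_of_nonneg (hψ0 s)]
    refine div_le_div_of_nonneg_right (Real.exp_le_one_iff.mpr ?_) (Real.sqrt_nonneg _)
    have := Real.pi_pos
    have : 0 ≤ Real.pi * s ^ 2 / r := by positivity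
    linarith
  have hlow : ∀ s, (c - W * om f s) * Y ≤ (ac F s).re := fun s => by
    rw [re_ac hFi hF2 s]
    have a1 := hR S hS y
    have a2 := shift_bound hf S y hfb s
    simp only [hF]
    linarith
  have hom : Integrable fun s => ψ s * om f s := by
    refine Integrable.mono' (hψi.mul_const (2 * M))
      (hψc.mul (continuous_shift_L1 hf)).aestronglyMeasurable (Eventually.of_forall fun s => ?_)
    rw [Real.norm_of_nonneg (mul_nonneg (hψ0 s) (om_nonneg _ _))]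
    exact mul_le_mul_of_nonneg_left (shift_L1_le hf s) (hψ0 s)
  have hac : Integrable fun s => (ψ s : ℂ) * ac F s := by
    refine (integrable_ac hFi).bdd_mul (c := 1 / √r)
      (Complex.continuous_ofReal.comp hψc).aestronglyMeasurable (Eventually.of_forall fun s => ?_)
    rw [Complex.norm_real]; exact hψb s
  have e1 : ∫ ξ, Real.exp (-(Real.pi * r * ξ ^ 2)) * (‖fh f ξ‖ ^ 2 * E ξ) =
      ∫ s, ψ s * (ac F s).re := by
    have a1 := gauss_fh (integrable_ac hFi) hr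
    have a2 : ∀ ξ : ℝ, (Real.exp (-(Real.pi * r * ξ ^ 2)) : ℂ) * fh (ac F) ξ =
        ((Real.exp (-(Real.pi * r * ξ ^ 2)) * (‖fh f ξ‖ ^ 2 * E ξ) : ℝ) : ℂ) := fun ξ => by
      rw [fh_ac hFi, hF, fh_comb hf S y ξ, norm_mul, mul_pow, ← Complex.ofReal_mul]
    simp_rw [a2] at a1
    rw [integral_complex_ofReal] at a1
    have a3 := congrArg Complex.re a1
    rw [Complex.ofReal_re] at a3
    rw [a3]
    have a4 : (∫ s, (ψ s : ℂ) * ac F s).re = ∫ s, ((ψ s : ℂ) * ac F s).re :=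
      (integral_re hac).symm
    refine a4.trans (integral_congr_ae (Eventually.of_forall fun s => ?_))
    simp only [Complex.re_ofReal_mul]
  have e2 : c / 2 * Y ≤ ∫ s, ψ s * (ac F s).re := by
    have a1 : Integrable fun s => ψ s * (ac F s).re :=
      hac.re.congr (Eventually.of_forall fun s => by simp)
    have a2 : ∫ s, (c * Y * ψ s - W * Y * (ψ s * om f s)) ≤ ∫ s, ψ s * (ac F s).re := by
      refine integral_mono ((hψi.const_mul _).sub (hom.const_mul _)) a1 fun s => ?_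
      have := mul_le_mul_of_nonneg_left (hlow s) (hψ0 s)
      simp only
      linarith
    rw [integral_sub (hψi.const_mul _) (hom.const_mul _), integral_const_mul, integral_const_mul,
      integral_psi hr] at a2
    have a3 : W * ∫ s, ψ s * om f s ≤ c / 2 := by
      refine (mul_le_mul_of_nonneg_left hr2 hW).trans ?_
      rw [mul_div_assoc', div_le_div_iff₀ (by positivity) (by positivity)]
      nlinarith
    nlinarith [mul_le_mul_of_nonneg_right a3 hY0]
  have hG := integrable_gauss_sum hr S (fun l => l) (fun l => (y l : ℂ))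
  have hbes := bessel_gauss hδ hr S (fun l => l)
    (fun i hi j hj hij => hsep i (hS hi) j (hS hj) hij) (fun l => (y l : ℂ))
  simp only [Complex.norm_real, Real.norm_eq_abs, sq_abs] at hbes
  have hind : Integrable (indicator {ξ | θ ≤ ‖fh f ξ‖} fun ξ => M ^ 2 * E ξ) :=
    (integrable_indicator_iff hK.measurableSet).mpr
      ((continuous_const.mul hEc).continuousOn.integrableOn_compact hK)
  have e3 : ∫ ξ, Real.exp (-(Real.pi * r * ξ ^ 2)) * (‖fh f ξ‖ ^ 2 * E ξ) ≤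
      ∫ ξ, (indicator {ξ | θ ≤ ‖fh f ξ‖} (fun ξ => M ^ 2 * E ξ) ξ +
        θ ^ 2 * (Real.exp (-(Real.pi * r * ξ ^ 2)) * E ξ)) := by
    refine integral_mono_of_nonneg (Eventually.of_forall fun ξ => by
      have := hE0 ξ; positivity) (hind.add (hG.const_mul _)) (Eventually.of_forall fun ξ => ?_)
    have b0 := hE0 ξ
    have b1 : Real.exp (-(Real.pi * r * ξ ^ 2)) ≤ 1 := Real.exp_le_one_iff.mpr (by
      have := Real.pi_pos
      have : 0 ≤ Real.pi * r * ξ ^ 2 := by positivity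
      linarith)
    have b2 := Real.exp_pos (-(Real.pi * r * ξ ^ 2))
    simp only
    by_cases hξ : θ ≤ ‖fh f ξ‖
    · rw [indicator_of_mem (show ξ ∈ {ξ | θ ≤ ‖fh f ξ‖} from hξ)]
      have b3 : ‖fh f ξ‖ ^ 2 ≤ M ^ 2 := pow_le_pow_left₀ (norm_nonneg _) (norm_fh_le f ξ) 2
      have b4 : Real.exp (-(Real.pi * r * ξ ^ 2)) * (‖fh f ξ‖ ^ 2 * E ξ) ≤ 1 * (M ^ 2 * E ξ) :=
        mul_le_mul b1 (mul_le_mul_of_nonneg_right b3 b0) (by positivity) zero_le_one
      have b5 : 0 ≤ θ ^ 2 * (Real.exp (-(Real.pi * r * ξ ^ 2)) * E ξ) := by positivity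
      linarith
    · rw [indicator_of_notMem (show ξ ∉ {ξ | θ ≤ ‖fh f ξ‖} from hξ), zero_add]
      have b3 : ‖fh f ξ‖ ^ 2 ≤ θ ^ 2 := pow_le_pow_left₀ (norm_nonneg _) (not_le.mp hξ).le 2
      nlinarith [mul_le_mul_of_nonneg_right b3 (mul_nonneg b2.le b0)]
  rw [integral_add hind (hG.const_mul _), integral_indicator hK.measurableSet, integral_const_mul,
    integral_const_mul] at e3
  have e4 : θ ^ 2 * ∫ ξ, Real.exp (-(Real.pi * r * ξ ^ 2)) * E ξ ≤ c / 4 * Y := by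
    refine (mul_le_mul_of_nonneg_left hbes (sq_nonneg θ)).trans ?_
    rw [← mul_assoc]
    exact mul_le_mul_of_nonneg_right hθ2 hY0
  have e5 : 0 ≤ ∫ ξ in {ξ | θ ≤ ‖fh f ξ‖}, E ξ := integral_nonneg hE0
  rw [div_mul_eq_mul_div, div_le_iff₀ (by positivity)]
  nlinarith

end Pool.Agent.P.MP_731e7b_an
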