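import Pool.Agent.P.MP_731e7b_an.Rigid

/-!
Compactness argument: good sequences are periodic.
-/

open MeasureTheory Set Filter Topology

namespace Pool.Agent.P.MP_731e7b_an

theorem exists_subseq {δ0 δ1 : ℝ} (hδ : 0 < δ0) (L : ℕ → ℤ → ℝ) (hL : ∀ i, Gaps δ0 δ1 (L i))
    {A : ℝ} (hA : ∀ i, |L i 0| ≤ A) :
    ∃ (z : ℤ → ℝ) (φ : ℕ → ℕ), StrictMono φ ∧
      ∀ n, Tendsto (fun i => L (φ i) n) atTop (𝓝 (z n)) := by
  have hK : IsCompact (Set.pi univ fun n : ℤ => Icc (-(A + δ1 * |(n : ℝ)|)) (A + δ1 * |(n : ℝ)|)) :=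
    isCompact_univ_pi fun _ => isCompact_Icc
  obtain ⟨z, -, φ, hφ, hz⟩ := hK.tendsto_subseq (x := L) fun i n _ => by
    have h1 := ((hL i).abs_bounds hδ n 0).2
    have h2 := hA i
    simp only [Int.cast_zero, sub_zero] at h1
    rw [abs_le] at h1 h2
    constructor <;> linarith [h1.1, h1.2, h2.1, h2.2]
  exact ⟨z, φ, hφ, fun n => tendsto_pi_nhds.mp hz n⟩

theorem Bal.limit {P : Par} {ι : Type*} {F : Filter ι} [F.NeBot] {L L' : ι → ℤ → ℝ}
    {l l' : ℤ → ℝ} (hL : ∀ i, Good P (L i)) (hL' : ∀ i, Good P (L' i))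
    (hb : ∀ i, Bal P (L i) (L' i)) (h : ∀ n, Tendsto (fun i => L i n) F (𝓝 (l n)))
    (h' : ∀ n, Tendsto (fun i => L' i n) F (𝓝 (l' n))) : Bal P l l' := by
  have h1 := tendsto_TT (P.continuous_B 0 0) P.δ0_pos (P.norm_B_le 0 0) (fun i => (hL i).gaps)
    (fun i => (hL' i).gaps) h h'
  have h2 : (fun i => TT (P.B 0 0) (L i) (L' i)) = fun _ => 0 := funext hb
  rw [h2] at h1
  exact tendsto_nhds_unique h1 tendsto_const_nhds

theorem propagate (P : Par) {ρ : ℝ} (hρ : 0 < ρ)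
    (hrig : ∀ l l' : ℤ → ℝ, Good P l → Good P l' → Bal P l l' →
      (∀ n ≤ 0, |l' n - l n| ≤ ρ) → l' = l) :
    ∃ N : ℕ, ∀ l l' : ℤ → ℝ, Good P l → Good P l' → Bal P l l' → ∀ k : ℤ,
      (∀ n, k - N ≤ n → n ≤ k → |l' n - l n| ≤ ρ) → |l' (k + 1) - l (k + 1)| ≤ ρ := by
  by_contra hcon
  push Not at hcon
  choose l l' hl hl' hb k hk hk' using hcon
  set L : ℕ → ℤ → ℝ := fun N n => l N (n + k N) + -l N (k N) with hL
  set L' : ℕ → ℤ → ℝ := fun N n => l' N (n + k N) + -l N (k N) with hL'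
  have g : ∀ N, Good P (L N) := fun N => (hl N).shift _ _
  have g' : ∀ N, Good P (L' N) := fun N => (hl' N).shift _ _
  have gb : ∀ N, Bal P (L N) (L' N) := fun N => (hb N).shift (hl N) (hl' N) _ _
  have hd : ∀ N n, L' N n - L N n = l' N (n + k N) - l N (n + k N) := fun N n => by
    simp only [hL, hL']; ring
  obtain ⟨z, φ, hφ, hz⟩ := exists_subseq P.δ0_pos L (fun N => (g N).gaps) (A := 0)
    fun N => by simp [hL]
  obtain ⟨z', ψ, hψ, hz'⟩ := exists_subseq P.δ0_pos (fun i => L' (φ i))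
    (fun N => (g' _).gaps) (A := ρ) fun N => by
      have := hk (φ N) (k (φ N)) (by omega) le_rfl
      simpa [hL', sub_eq_add_neg] using this
  have hz2 : ∀ n, Tendsto (fun i => L (φ (ψ i)) n) atTop (𝓝 (z n)) :=
    fun n => (hz n).comp hψ.tendsto_atTop
  have gz : Good P z := Good.limit (fun i => g _) hz2
  have gz' : Good P z' := Good.limit (fun i => g' _) hz'
  have bz : Bal P z z' := Bal.limit (fun i => g _) (fun i => g' _) (fun i => gb _) hz2 hz'
  have hlim : ∀ n, Tendsto (fun i => |L' (φ (ψ i)) n - L (φ (ψ i)) n|) atTop (𝓝 |z' n - z n|) :=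
    fun n => ((hz' n).sub (hz2 n)).abs
  have e := hrig z z' gz gz' bz fun n hn => by
    refine le_of_tendsto (hlim n) ?_
    filter_upwards [(hφ.comp hψ).tendsto_atTop.eventually_ge_atTop n.natAbs] with i hi
    rw [hd]
    simp only [Function.comp] at hi
    exact hk _ _ (by omega) (by omega)
  have h1 : ρ ≤ |z' 1 - z 1| := ge_of_tendsto' (hlim 1) fun i => by
    rw [hd, add_comm]; exact (hk' _).le
  rw [e, sub_self, abs_zero] at h1
  linarith

/-- Good sequences are periodic. -/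
theorem Good.periodic {P : Par} {l : ℤ → ℝ} (h : Good P l) :
    ∃ p : ℕ, 0 < p ∧ ∃ t : ℝ, ∀ n, l (n + p) = l n + t := by
  obtain ⟨ρ, hρ, hrig⟩ := rigid P
  obtain ⟨N, hN⟩ := propagate P hρ hrig
  obtain ⟨z, φ, hφ, hz⟩ := exists_subseq P.δ0_pos (fun i n => l (n + -(i : ℤ)) + -l (-(i : ℤ)))
    (fun i => h.gaps.shift _ _) (A := 0) fun i => by simp
  have gz : Good P z := Good.limit (fun i => h.shift _ _) hz
  set Z : ℕ → ℤ → ℝ := fun a n => z (n + a) + -z a with hZ
  have gZ : ∀ a, Good P (Z a) := fun a => gz.shift _ _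
  obtain ⟨y, ψ, hψ, hy⟩ := exists_subseq P.δ0_pos Z (fun a => (gZ a).gaps) (A := 0)
    fun a => by simp [hZ]
  have hy' : ∀ n, Tendsto (fun j => Z (ψ (j + 1)) n) atTop (𝓝 (y n)) :=
    fun n => (hy n).comp (tendsto_add_atTop_nat 1)
  -- balancing constants
  have g0 : ∀ a : ℕ, Good P fun n => l (n + a) + 0 := fun a => h.shift _ _
  choose t ht using fun j => exists_bal (g0 (ψ j)) (g0 (ψ (j + 1)))
  set s : ℕ → ℝ := fun j => z (ψ j) + t j - z (ψ (j + 1)) with hs
  have conv : ∀ (a : ℕ) (c : ℝ) (n : ℤ),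
      Tendsto (fun i => l (n + -(φ i : ℤ) + a) + 0 + c + -l (-(φ i : ℤ))) atTop
        (𝓝 (z (n + a) + c)) := by
    intro a c n
    refine ((hz (n + a)).add_const c).congr fun i => ?_
    rw [show n + a + -(φ i : ℤ) = n + -(φ i : ℤ) + a by ring]; ring
  have bz : ∀ j, Bal P (fun n => Z (ψ j) n + s j) (Z (ψ (j + 1))) := by
    intro j
    have b1 : Bal P (fun n => z (n + ψ j) + t j) (fun n => z (n + ψ (j + 1)) + 0) :=
      Bal.limit (F := atTop)
        (fun i => ((g0 (ψ j)).transl (t j)).shift (-(φ i : ℤ)) (-l (-(φ i : ℤ))))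
        (fun i => (g0 (ψ (j + 1))).shift (-(φ i : ℤ)) (-l (-(φ i : ℤ))))
        (fun i => (ht j).shift ((g0 (ψ j)).transl (t j)) (g0 (ψ (j + 1))) _ _)
        (conv (ψ j) (t j)) fun n => by simpa using conv (ψ (j + 1)) 0 n
    have b2 := b1.shift (gz.shift _ _) (gz.shift _ _) 0 (-z (ψ (j + 1)))
    convert b2 using 2 with n n
    · simp only [hZ, hs, add_zero]; ring
    · simp only [hZ, add_zero]
  have hs0 : Tendsto s atTop (𝓝 0) := by
    have h1 := tendsto_TT (P.continuous_B 0 0) P.δ0_pos (P.norm_B_le 0 0)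
      (fun j => (gZ (ψ j)).gaps) (fun j => (gZ (ψ (j + 1))).gaps) hy hy'
    rw [TT_self] at h1
    have h2 : ∀ j, TT (P.B 0 0) (Z (ψ j)) (Z (ψ (j + 1))) = s j * P.c 0 := fun j => by
      rw [← TT_B_add (gZ _) ((gZ _).transl (s j)) (gZ _), (gZ _).TT_transl P.zero_mem_U, bz j,
        add_zero]
    simp_rw [h2] at h1
    have h3 := h1.mul_const (P.c 0)⁻¹
    simp only [zero_mul, mul_assoc, mul_inv_cancel₀ h.c_zero_ne, mul_one] at h3
    have h4 := (Complex.continuous_re.tendsto _).comp h3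
    simpa [Function.comp_def] using h4
  -- choose a good pair
  have hev : ∀ᶠ j in atTop, ∀ n ∈ Finset.Icc (-(N : ℤ)) 0,
      |Z (ψ (j + 1)) n - (Z (ψ j) n + s j)| < ρ := by
    rw [eventually_all_finset]
    intro n _
    have := ((hy' n).sub ((hy n).add hs0)).abs
    simp only [add_zero, sub_self, abs_zero] at this
    exact this.eventually_lt_const hρ
  obtain ⟨j, hj⟩ := hev.exists
  set l1 : ℤ → ℝ := fun n => l (n + ψ j) + 0 + t j with hl1
  set l2 : ℤ → ℝ := fun n => l (n + ψ (j + 1)) + 0 with hl2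
  have g1 : Good P l1 := (g0 _).transl _
  have g2 : Good P l2 := g0 _
  have b12 : Bal P l1 l2 := ht j
  have hev2 : ∀ᶠ i in atTop, ∀ n ∈ Finset.Icc (-(N : ℤ)) 0,
      |l2 (n + -(φ i : ℤ)) - l1 (n + -(φ i : ℤ))| < ρ := by
    rw [eventually_all_finset]
    intro n hn
    have h1 := ((conv (ψ (j + 1)) 0 n).sub (conv (ψ j) (t j) n)).abs
    have h2 : |z (n + ψ (j + 1)) + 0 - (z (n + ψ j) + t j)| < ρ := by
      have := hj n hn
      simp only [hZ, hs] at this
      convert this using 2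
      ring
    refine (h1.eventually_lt_const h2).mono fun i hi => ?_
    refine lt_of_eq_of_lt ?_ hi
    congr 1
    simp only [hl1, hl2]; ring
  have hall : ∀ n, |l2 n - l1 n| ≤ ρ := by
    intro n
    obtain ⟨i, hi, hi2⟩ := (hev2.and (hφ.tendsto_atTop.eventually_ge_atTop n.natAbs)).exists
    have prop : ∀ m : ℕ, ∀ n', -(φ i : ℤ) - N ≤ n' → n' ≤ -(φ i : ℤ) + m → |l2 n' - l1 n'| ≤ ρ := by
      intro m
      induction m with
      | zero =>
        intro n' h1 h2
        have := hi (n' + φ i) (by rw [Finset.mem_Icc]; omega)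
        rw [show n' + φ i + -(φ i : ℤ) = n' by ring] at this
        exact this.le
      | succ m ih =>
        intro n' h1 h2
        rcases eq_or_lt_of_le h2 with h3 | h3
        · have := hN l1 l2 g1 g2 b12 (-(φ i : ℤ) + m) fun n'' a b => ih n'' (by omega) b
          rw [h3]; push_cast; rw [← add_assoc]; exact this
        · exact ih n' h1 (by push_cast at h3; omega)
    exact prop (n + φ i).toNat n (by omega) (by omega)
  have e := hrig l1 l2 g1 g2 b12 fun n _ => hall n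
  have hlt : ψ j < ψ (j + 1) := hψ (Nat.lt_succ_self j)
  refine ⟨ψ (j + 1) - ψ j, by omega, t j, fun n => ?_⟩
  have := congrFun e (n - ψ j)
  simp only [hl1, hl2, add_zero, sub_add_cancel] at this
  rw [← this]
  congr 1
  push_cast [hlt.le]
  ring

end Pool.Agent.P.MP_731e7b_an
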