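import Pool.Agent.P.MP_731e7b_an.Basic

/-!
Enumeration of separated relatively dense sets by the integers, and periodic sequences as unions
of arithmetic progressions.
-/

open MeasureTheory Set Filter Topology

namespace Pool.Agent.P.MP_731e7b_an

namespace Enum

theorem rel_dense (Λ : Set ℝ) (δ : ℝ) (hδ : 0 < δ) (hsep : Sep δ Λ) (hne : Λ.Nonempty)
    (b : ℝ → ℝ) (C : ℝ) (hb : IsWin b C) (c : ℝ) (h : ∀ x, ∑' l : Λ, b (l - x) = c) :
    ∃ G : ℝ, 0 ≤ G ∧ ∀ x, ∃ l ∈ Λ, |l - x| ≤ G := by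
  obtain ⟨x0, hx0⟩ := hne
  have hb0 := hb.pos 0
  have hC := hb.C_pos
  have hS := S0_nonneg hδ
  have hc : b 0 ≤ c := by
    rw [← h x0]
    have := (hb.summable_sep hδ (fun l : Λ => (l : ℝ)) hsep.family x0).le_tsum ⟨x0, hx0⟩
      fun j _ => (hb.pos _).le
    simpa using this
  refine ⟨C * S0 δ / b 0, by positivity, fun x => ?_⟩
  by_contra hn
  push Not at hn
  set G := C * S0 δ / b 0 with hG
  have hG0 : 0 ≤ G := by positivity
  have h1 : ∀ l : Λ, b (l - x) ≤ C / (1 + G) * (1 / (1 + |(l : ℝ) - x|) ^ 2) := by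
    intro l
    have h2 := hn l l.2
    refine (hb.decay _).trans ?_
    rw [div_mul_div_comm, mul_one]
    refine div_le_div_of_nonneg_left hC.le (by positivity) ?_
    have h3 : 1 + G ≤ (1 + |(l : ℝ) - x|) ^ 2 := by nlinarith [abs_nonneg ((l : ℝ) - x)]
    calc (1 + G) * (1 + |(l : ℝ) - x|) ^ 2
        ≤ (1 + |(l : ℝ) - x|) ^ 2 * (1 + |(l : ℝ) - x|) ^ 2 :=
          mul_le_mul_of_nonneg_right h3 (by positivity)
      _ = _ := by ring
  have h2 : c ≤ C / (1 + G) * S0 δ := by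
    rw [← h x]
    refine ((hb.summable_sep hδ (fun l : Λ => (l : ℝ)) hsep.family x).tsum_le_tsum h1
      ((summable_sep hδ (fun l : Λ => (l : ℝ)) hsep.family x).mul_left _)).trans ?_
    rw [tsum_mul_left]
    exact mul_le_mul_of_nonneg_left (tsum_sep_le hδ (fun l : Λ => (l : ℝ)) hsep.family x)
      (by positivity)
  have h3 : C * S0 δ = G * b 0 := by rw [hG]; field_simp
  rw [div_mul_eq_mul_div, le_div_iff₀ (by positivity), h3] at h2
  nlinarith

theorem finite_Icc (Λ : Set ℝ) (δ : ℝ) (hδ : 0 < δ) (hsep : Sep δ Λ) (a b : Λ) :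
    (Set.Icc a b).Finite := by
  refine Set.Finite.of_finite_image (f := fun l : Λ => ⌊(l : ℝ) / δ⌋)
    ((Set.finite_Icc ⌊(a : ℝ) / δ⌋ ⌊(b : ℝ) / δ⌋).subset ?_) ?_
  · rintro _ ⟨l, hl, rfl⟩
    exact ⟨Int.floor_le_floor (div_le_div_of_nonneg_right hl.1 hδ.le),
      Int.floor_le_floor (div_le_div_of_nonneg_right hl.2 hδ.le)⟩
  · intro i _ j _ hij
    by_contra hne
    have h1 := hsep.family i j hne
    have h2 := Int.abs_sub_lt_one_of_floor_eq_floor hij
    rw [← sub_div, abs_div, abs_of_pos hδ, div_lt_one hδ] at h2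
    linarith

theorem shift (l : ℤ → ℝ) (p : ℕ) (t : ℝ) (h : ∀ n, l (n + p) = l n + t) (n k : ℤ) :
    l (n + k * p) = l n + t * k := by
  induction k using Int.induction_on with
  | zero => simp
  | succ k ih =>
    rw [add_mul, one_mul, ← add_assoc, h, ih]
    push_cast; ring
  | pred k ih =>
    have := h (n + (-(k : ℤ) - 1) * p)
    rw [show n + (-(k : ℤ) - 1) * p + p = n + -(k : ℤ) * p by ring, ih] at this
    push_cast at this ⊢
    linarith

end Enum

theorem enum (Λ : Set ℝ) (δ : ℝ) (hδ : 0 < δ) (hsep : Sep δ Λ) (hne : Λ.Nonempty)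
    (b : ℝ → ℝ) (C : ℝ) (hb : IsWin b C) (c : ℝ) (h : ∀ x, ∑' l : Λ, b (l - x) = c) :
    ∃ (δ1 : ℝ) (l : ℤ → ℝ), range l = Λ ∧ (∀ n, l n + δ ≤ l (n + 1)) ∧
      ∀ n, l (n + 1) ≤ l n + δ1 := by
  obtain ⟨G, hG0, hG⟩ := Enum.rel_dense Λ δ hδ hsep hne b C hb c h
  let : LocallyFiniteOrder Λ := LocallyFiniteOrder.ofFiniteIcc (Enum.finite_Icc Λ δ hδ hsep)
  let : SuccOrder Λ := LinearLocallyFiniteOrder.succOrder Λ
  let : PredOrder Λ := LinearLocallyFiniteOrder.predOrder Λ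
  have : Nonempty Λ := hne.to_subtype
  have : NoMaxOrder Λ := ⟨fun a => by
    obtain ⟨l, hl, h1⟩ := hG (a + G + 1)
    exact ⟨⟨l, hl⟩, show (a : ℝ) < l by linarith [(abs_le.1 h1).1]⟩⟩
  have : NoMinOrder Λ := ⟨fun a => by
    obtain ⟨l, hl, h1⟩ := hG (a - G - 1)
    exact ⟨⟨l, hl⟩, show l < (a : ℝ) by linarith [(abs_le.1 h1).2]⟩⟩
  let e : Λ ≃o ℤ := orderIsoIntOfLinearSuccPredArch
  refine ⟨2 * G + 1, fun n => (e.symm n : ℝ), ?_, fun n => ?_, fun n => ?_⟩
  · ext x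
    constructor
    · rintro ⟨n, rfl⟩
      exact (e.symm n).2
    · intro hx
      exact ⟨e ⟨x, hx⟩, by simp⟩
  · have h1 : e.symm n < e.symm (n + 1) := e.symm.strictMono (lt_add_one n)
    have h2 := hsep.family _ _ h1.ne'
    have h3 : (e.symm n : ℝ) < e.symm (n + 1) := h1
    rw [abs_of_pos (by linarith)] at h2
    linarith
  · obtain ⟨l, hl, h1⟩ := hG (e.symm n + G + 1)
    have h2 : e.symm n < ⟨l, hl⟩ := show (e.symm n : ℝ) < l by linarith [(abs_le.1 h1).1]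
    have h3 : n + 1 ≤ e ⟨l, hl⟩ := by
      have := e.strictMono h2
      rw [e.apply_symm_apply] at this
      exact this
    have h4 : e.symm (n + 1) ≤ ⟨l, hl⟩ := by
      have := e.symm.monotone h3
      rwa [e.symm_apply_apply] at this
    have h5 : (e.symm (n + 1) : ℝ) ≤ l := h4
    change (e.symm (n + 1) : ℝ) ≤ e.symm n + (2 * G + 1)
    linarith [(abs_le.1 h1).2]

theorem periodic_structure (l : ℤ → ℝ) (hl : StrictMono l) (p : ℕ) (hp : 0 < p) (t : ℝ)
    (h : ∀ n, l (n + p) = l n + t) :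
    ∃ a : ℝ, 0 < a ∧ ∃ (N : ℕ) (β : Fin N → ℝ),
      range l = ⋃ j, {x | ∃ k : ℤ, x = a * k + β j} ∧
      Pairwise fun i j => Disjoint {x | ∃ k : ℤ, x = a * k + β i} {x | ∃ k : ℤ, x = a * k + β j} := by
  have hp' : (0 : ℤ) < p := by exact_mod_cast hp
  have ht : 0 < t := by
    have h1 := hl (show (0 : ℤ) < 0 + p by omega)
    rw [h] at h1
    linarith
  refine ⟨t, ht, p, fun j => l (j : ℕ), ?_, fun i j hij => ?_⟩
  · ext x
    simp only [mem_range, mem_iUnion, mem_ofPred_eq]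
    constructor
    · rintro ⟨n, rfl⟩
      have h0 := Int.emod_nonneg n hp'.ne'
      have h1 := Int.emod_lt_of_pos n hp'
      refine ⟨⟨(n % p).toNat, by omega⟩, n / p, ?_⟩
      have h2 := Enum.shift l p t h (n % p) (n / p)
      rw [Int.emod_add_ediv_mul] at h2
      rw [h2, add_comm]
      congr 2
      exact (Int.toNat_of_nonneg h0).symm
    · rintro ⟨j, k, rfl⟩
      exact ⟨(j : ℕ) + k * p, by rw [Enum.shift l p t h, add_comm]⟩
  · refine Set.disjoint_left.2 ?_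
    rintro x ⟨k, rfl⟩ ⟨k', hk⟩
    beta_reduce at hk
    have h1 := Enum.shift l p t h (i : ℕ) k
    have h2 := Enum.shift l p t h (j : ℕ) k'
    have h3 : ((i : ℕ) : ℤ) + k * p = (j : ℕ) + k' * p := hl.injective (by rw [h1, h2]; linarith)
    have h4 := congrArg (· % (p : ℤ)) h3
    simp only [Int.add_mul_emod_self_right] at h4
    rw [Int.emod_eq_of_lt (by positivity) (by exact_mod_cast i.2),
      Int.emod_eq_of_lt (by positivity) (by exact_mod_cast j.2)] at h4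
    exact hij (Fin.ext (by exact_mod_cast h4))

end Pool.Agent.P.MP_731e7b_an
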