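import Pool.Agent.P.MP_731e7b_an.Basic

open MeasureTheory Set Filter Topology

namespace Pool.Agent.P.MP_731e7b_an

namespace Tauber

theorem integrable_mul_bdd {g V : ℝ → ℂ} (hg : Integrable g) (hV : Continuous V) {M : ℝ}
    (hM : ∀ x, ‖V x‖ ≤ M) : Integrable fun y => g y * V y :=
  hg.mul_bdd hV.aestronglyMeasurable (Eventually.of_forall hM)

theorem swap_aux {ι : Type*} {g : ℝ → ℂ} (hg : Integrable g) {G : ι → ℝ → ℂ}
    (hG : ∀ i, Continuous (G i)) {B : ℝ} (hB : ∀ y (S : Finset ι), ∑ i ∈ S, ‖G i y‖ ≤ B) :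
    (∀ i, Integrable fun y => g y * G i y) ∧ Summable fun i => ∫ y, ‖g y * G i y‖ := by
  have h1 : ∀ i, Integrable fun y => g y * G i y := fun i =>
    integrable_mul_bdd hg (hG i) (M := B) fun y => by simpa using hB y {i}
  refine ⟨h1, summable_of_sum_le (c := ∫ y, ‖g y‖ * B)
    (fun i => integral_nonneg fun y => norm_nonneg _) fun S => ?_⟩
  rw [← integral_finsetSum _ fun i _ => (h1 i).norm]
  refine integral_mono (integrable_finsetSum _ fun i _ => (h1 i).norm) (hg.norm.mul_const B)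
    fun y => ?_
  simp only [norm_mul, ← Finset.mul_sum]
  exact mul_le_mul_of_nonneg_left (hB y S) (norm_nonneg _)

theorem key {φ f V : ℝ → ℂ} (hφ : Integrable φ) (hf : Integrable f) (hV : Continuous V)
    {B : ℝ} (hB : ∀ x, ‖V x‖ ≤ B) (hrep : ∀ x, V x = ∫ y, φ y * V (x + y)) {ξ : ℝ}
    (h0 : ∀ x, ∫ v, f v * ee (ξ * v) * V (x - v) = 0)
    (hε : ∫ v, ‖f v‖ * ∫ y, ‖φ (y + v) - φ y‖ < ‖fh f ξ‖) (x : ℝ) : V x = 0 := by
  have hbd : BddAbove (range fun x => ‖V x‖) := ⟨B, by rintro _ ⟨x, rfl⟩; exact hB x⟩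
  set M := ⨆ x, ‖V x‖ with hMdef
  have hM : ∀ x, ‖V x‖ ≤ M := fun x => le_ciSup hbd x
  have hM0 : 0 ≤ M := (norm_nonneg _).trans (hM 0)
  set om : ℝ → ℝ := fun v => ∫ y, ‖φ (y + v) - φ y‖ with hom
  have h1 : ∀ x v, ‖V (x - v) - V x‖ ≤ om v * M := by
    intro x v
    have hc : Continuous fun y => V (x + y) := by fun_prop
    have e : V (x - v) = ∫ y, φ (y + v) * V (x + y) := by
      rw [hrep (x - v), ← integral_add_right_eq_self (fun y => φ y * V (x - v + y)) v]
      refine integral_congr_ae (Eventually.of_forall fun y => ?_)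
      simp only
      congr 2
      ring
    have i1 := integrable_mul_bdd (hφ.comp_add_right v) hc fun y => hM _
    have i2 := integrable_mul_bdd hφ hc fun y => hM _
    rw [e, hrep x, ← integral_sub i1 i2, hom]
    simp only
    rw [← integral_mul_const]
    refine norm_integral_le_of_norm_le (((hφ.comp_add_right v).sub hφ).norm.mul_const M)
      (Eventually.of_forall fun y => ?_)
    rw [← sub_mul, norm_mul]
    exact mul_le_mul_of_nonneg_left (hM _) (norm_nonneg _)
  have hfe : Integrable fun v => f v * ee (ξ * v) :=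
    integrable_mul_bdd hf (by fun_prop) (M := 1) fun v => (norm_ee _).le
  have hfo : Integrable fun v => ‖f v‖ * om v :=
    hf.norm.mul_bdd (continuous_shift_L1 hφ).aestronglyMeasurable
      (Eventually.of_forall fun v => by
        rw [Real.norm_of_nonneg (integral_nonneg fun y => norm_nonneg _)]
        exact shift_L1_le hφ v)
  have h2 : ∀ x, ‖fh f ξ‖ * ‖V x‖ ≤ (∫ v, ‖f v‖ * om v) * M := by
    intro x
    have i1 := integrable_mul_bdd hfe (V := fun v => V (x - v)) (by fun_prop) fun v => hM _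
    have e : fh f ξ * V x = -∫ v, f v * ee (ξ * v) * (V (x - v) - V x) := by
      simp only [mul_sub]
      rw [integral_sub i1 (hfe.mul_const _), h0, integral_mul_const, fh]
      ring
    rw [← norm_mul, e, norm_neg, ← integral_mul_const]
    refine norm_integral_le_of_norm_le (hfo.mul_const M) (Eventually.of_forall fun v => ?_)
    rw [norm_mul, norm_mul, norm_ee, mul_one, mul_assoc]
    exact mul_le_mul_of_nonneg_left (h1 x v) (norm_nonneg _)
  have hpos : 0 < ‖fh f ξ‖ :=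
    lt_of_le_of_lt (integral_nonneg fun v =>
      mul_nonneg (norm_nonneg _) (integral_nonneg fun y => norm_nonneg _)) hε
  have h3 : M ≤ (∫ v, ‖f v‖ * om v) * M / ‖fh f ξ‖ :=
    ciSup_le fun x => by
      rw [le_div_iff₀ hpos, mul_comm]
      exact h2 x
  rw [le_div_iff₀ hpos] at h3
  have h4 : M ≤ 0 := by
    by_contra hc
    push Not at hc
    have := mul_lt_mul_of_pos_right hε hc
    linarith
  exact norm_le_zero_iff.mp ((hM x).trans h4)

theorem exists_eta {Φ f : ℝ → ℂ} (hΦ : Integrable Φ) (hf : Integrable f) {θ : ℝ} (hθ : 0 < θ) :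
    ∃ η : ℝ, 0 < η ∧ η ≤ 1 ∧ ∫ v, ‖f v‖ * ∫ y, ‖Φ (y + η * v) - Φ y‖ < θ := by
  have hc := continuous_shift_L1 hΦ
  have h1 : Continuous fun η : ℝ => ∫ v, ‖f v‖ * ∫ y, ‖Φ (y + η * v) - Φ y‖ := by
    refine continuous_of_dominated (bound := fun v => ‖f v‖ * (2 * ∫ y, ‖Φ y‖))
      (fun η => hf.norm.aestronglyMeasurable.mul
        (hc.comp (continuous_const.mul continuous_id)).aestronglyMeasurable)
      (fun η => Eventually.of_forall fun v => ?_) (hf.norm.mul_const _)
      (Eventually.of_forall fun v =>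
        continuous_const.mul (hc.comp (continuous_id.mul continuous_const)))
    rw [Real.norm_of_nonneg
      (mul_nonneg (norm_nonneg _) (integral_nonneg fun y => norm_nonneg _))]
    exact mul_le_mul_of_nonneg_left (shift_L1_le hΦ _) (norm_nonneg _)
  have h2 : ∀ᶠ η : ℝ in 𝓝 0, ∫ v, ‖f v‖ * ∫ y, ‖Φ (y + η * v) - Φ y‖ < θ :=
    (h1.tendsto 0).eventually (gt_mem_nhds (by simpa using hθ))
  have h3 : ∀ᶠ η : ℝ in 𝓝[>] 0, η ∈ Ioc (0 : ℝ) 1 := Ioc_mem_nhdsGT one_pos
  obtain ⟨η, a, b⟩ := (h3.and (h2.filter_mono nhdsWithin_le_nhds)).exists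
  exact ⟨η, a.1, a.2, b⟩

theorem isWin_scale {b : ℝ → ℝ} {C η : ℝ} (hb : IsWin b C) (h0 : 0 < η) (h1 : η ≤ 1) :
    IsWin (fun u => b (η * u)) (C / η ^ 4) where
  pos := fun u => hb.pos _
  lip := fun u v => by
    rw [mul_add]
    refine (hb.lip _ _).trans (mul_le_mul_of_nonneg_right (Real.exp_le_exp.mpr ?_) (hb.pos _).le)
    rw [abs_mul, abs_of_pos h0]
    exact mul_le_of_le_one_left (abs_nonneg _) h1
  decay := fun u => by
    refine (hb.decay _).trans ?_
    rw [div_div, ← mul_pow, abs_mul, abs_of_pos h0]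
    refine div_le_div_of_nonneg_left hb.C_pos.le (by positivity)
      (pow_le_pow_left₀ (by positivity) (by linarith) 4)

/-- The rescaled window. -/
theorem exists_win (hwin : ∃ (Φ : ℝ → ℂ) (b : ℝ → ℝ) (C : ℝ), Integrable Φ ∧ IsWin b C ∧
      ∀ x, ∫ y, Φ y * (b (x - y) : ℂ) = b x) {f : ℝ → ℂ} (hf : Integrable f) {θ : ℝ}
    (hθ : 0 < θ) : ∃ (φ : ℝ → ℂ) (b : ℝ → ℝ) (C : ℝ), Integrable φ ∧ IsWin b C ∧
      (∀ x, ∫ y, φ y * (b (x - y) : ℂ) = b x) ∧
      ∫ v, ‖f v‖ * ∫ y, ‖φ (y + v) - φ y‖ < θ := by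
  obtain ⟨Φ, b, C, hΦ, hb, hrep⟩ := hwin
  obtain ⟨η, h0, h1, h2⟩ := exists_eta hΦ hf hθ
  refine ⟨fun y => η * Φ (η * y), fun u => b (η * u), C / η ^ 4,
    (hΦ.comp_mul_left' h0.ne').const_mul _, isWin_scale hb h0 h1, fun x => ?_, ?_⟩
  · have h := Measure.integral_comp_mul_left (fun t => Φ t * (b (η * x - t) : ℂ)) η
    rw [hrep, abs_of_pos (inv_pos.mpr h0)] at h
    simp only [mul_assoc, mul_sub]
    rw [integral_const_mul, h, Complex.real_smul, ← mul_assoc, ← Complex.ofReal_mul,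
      mul_inv_cancel₀ h0.ne', Complex.ofReal_one, one_mul]
  · refine lt_of_eq_of_lt (integral_congr_ae (Eventually.of_forall fun v => ?_)) h2
    have h := Measure.integral_comp_mul_left (fun t => ‖Φ (t + η * v) - Φ t‖) η
    rw [abs_of_pos (inv_pos.mpr h0)] at h
    simp only [← mul_sub, norm_mul, mul_add, Complex.norm_real, Real.norm_of_nonneg h0.le]
    rw [integral_const_mul, h, smul_eq_mul, ← mul_assoc η, mul_inv_cancel₀ h0.ne', one_mul]

/-- The windowed exponential sum. -/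
noncomputable def U (Λ : Set ℝ) (b : ℝ → ℝ) (ξ x : ℝ) : ℂ :=
  ∑' l : Λ, ee (ξ * l) * (b (l - x) : ℂ)

variable {Λ : Set ℝ} {δ C : ℝ} {b : ℝ → ℝ}

theorem norm_term (hb : IsWin b C) (s t : ℝ) : ‖ee s * (b t : ℂ)‖ = b t := by
  rw [norm_mul, norm_ee, one_mul, Complex.norm_real, Real.norm_of_nonneg (hb.pos _).le]

theorem sum_term (hδ : 0 < δ) (hsep : Sep δ Λ) (hb : IsWin b C) (x : ℝ) (S : Finset Λ) :
    ∑ l ∈ S, b (l - x) ≤ C * S0 δ :=
  ((hb.summable_sep hδ (fun l : Λ => (l : ℝ)) hsep.family x).sum_le_tsum S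
    fun _ _ => (hb.pos _).le).trans (hb.tsum_sep_le hδ (fun l : Λ => (l : ℝ)) hsep.family x)

theorem norm_U_le (hδ : 0 < δ) (hsep : Sep δ Λ) (hb : IsWin b C) (ξ x : ℝ) :
    ‖U Λ b ξ x‖ ≤ C * S0 δ :=
  (tsum_of_norm_bounded (hb.summable_sep hδ (fun l : Λ => (l : ℝ)) hsep.family x).hasSum
    fun _ => (norm_term hb _ _).le).trans
      (hb.tsum_sep_le hδ (fun l : Λ => (l : ℝ)) hsep.family x)

theorem continuous_U (hδ : 0 < δ) (hsep : Sep δ Λ) (hb : IsWin b C) (ξ : ℝ) :
    Continuous (U Λ b ξ) := by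
  have hs : ∀ x, Summable fun l : Λ => ee (ξ * l) * (b (l - x) : ℂ) := fun x =>
    Summable.of_norm_bounded (hb.summable_sep hδ (fun l : Λ => (l : ℝ)) hsep.family x)
      fun _ => (norm_term hb _ _).le
  rw [continuous_iff_continuousAt]
  intro u
  have h1 : Tendsto (fun x : ℝ => (Real.exp |u - x| - 1) * ∑' l : Λ, b (l - u)) (𝓝 u) (𝓝 0) := by
    have : Continuous (fun x : ℝ => (Real.exp |u - x| - 1) * ∑' l : Λ, b (l - u)) := by fun_prop
    have := this.tendsto u
    simpa using this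
  rw [ContinuousAt, tendsto_iff_norm_sub_tendsto_zero]
  refine squeeze_zero (fun x => norm_nonneg _) (fun x => ?_) h1
  rw [U, U, ← (hs x).tsum_sub (hs u)]
  refine tsum_of_norm_bounded
    ((hb.summable_sep hδ (fun l : Λ => (l : ℝ)) hsep.family u).hasSum.mul_left _) fun l => ?_
  rw [← mul_sub, norm_mul, norm_ee, one_mul, ← Complex.ofReal_sub, Complex.norm_real,
    Real.norm_eq_abs, show (l : ℝ) - x = l - u + (u - x) by ring]
  exact hb.abs_sub_le _ _

theorem U_rep (hδ : 0 < δ) (hsep : Sep δ Λ) (hb : IsWin b C) {φ : ℝ → ℂ} (hφ : Integrable φ)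
    (hrep : ∀ x, ∫ y, φ y * (b (x - y) : ℂ) = b x) (ξ x : ℝ) :
    U Λ b ξ x = ∫ y, φ y * U Λ b ξ (x + y) := by
  have := hsep.countable hδ
  have hc := hb.continuous
  obtain ⟨h1, h2⟩ := swap_aux hφ (G := fun (l : Λ) y => ee (ξ * l) * (b (l - (x + y)) : ℂ))
    (fun l => by fun_prop) (B := C * S0 δ) fun y S => by
      simp only [norm_term hb]
      exact sum_term hδ hsep hb _ S
  simp only [U, ← tsum_mul_left]
  rw [← integral_tsum_of_summable_integral_norm h1 h2]
  refine tsum_congr fun l => ?_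
  rw [← hrep, ← integral_const_mul]
  refine integral_congr_ae (Eventually.of_forall fun y => ?_)
  simp only
  rw [sub_sub]
  ring

theorem U_conv (hδ : 0 < δ) (hsep : Sep δ Λ) (hb : IsWin b C) {f : ℝ → ℂ} (hf : Integrable f)
    {w : ℂ} (htile : ∀ᵐ x, ∑' l : Λ, f (x - l) = w) (ξ x : ℝ) :
    ∫ v, f v * ee (ξ * v) * U Λ b ξ (x - v) =
      ee (ξ * x) * (w * ∫ y, ee (ξ * y) * (b y : ℂ)) := by
  have := hsep.countable hδ
  have hc := hb.continuous
  obtain ⟨h1, h2⟩ := swap_aux hf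
    (G := fun (l : Λ) v => ee (ξ * (v + l)) * (b (l - (x - v)) : ℂ))
    (fun l => by fun_prop) (B := C * S0 δ) fun y S => by
      simp only [norm_term hb]
      exact sum_term hδ hsep hb _ S
  have e : ∀ (l : Λ) (y : ℝ), f (y - l) * (ee (ξ * (y - l + l)) * (b (l - (x - (y - l))) : ℂ)) =
      f (y - l) * (ee (ξ * y) * (b (y - x) : ℂ)) := fun l y => by
    rw [sub_add_cancel, show (l : ℝ) - (x - (y - l)) = y - x by ring]
  have h3 : ∀ l : Λ, Integrable fun y => f (y - l) * (ee (ξ * y) * (b (y - x) : ℂ)) := fun l => by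
    simpa only [e] using (h1 l).comp_sub_right l
  have h4 : Summable fun l : Λ => ∫ y, ‖f (y - l) * (ee (ξ * y) * (b (y - x) : ℂ))‖ := by
    refine h2.congr fun l => ?_
    rw [← integral_sub_right_eq_self _ (l : ℝ)]
    simp only [e]
  calc _ = ∫ v, ∑' l : Λ, f v * (ee (ξ * (v + l)) * (b (l - (x - v)) : ℂ)) := by
        refine integral_congr_ae (Eventually.of_forall fun v => ?_)
        simp only [U, ← tsum_mul_left]
        refine tsum_congr fun l => ?_
        rw [mul_add, ee_add]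
        ring
    _ = ∑' l : Λ, ∫ y, f (y - l) * (ee (ξ * y) * (b (y - x) : ℂ)) := by
        rw [← integral_tsum_of_summable_integral_norm h1 h2]
        refine tsum_congr fun l => ?_
        rw [← integral_sub_right_eq_self _ (l : ℝ)]
        simp only [e]
    _ = ∫ y, w * (ee (ξ * y) * (b (y - x) : ℂ)) := by
        rw [integral_tsum_of_summable_integral_norm h3 h4]
        refine integral_congr_ae ?_
        filter_upwards [htile] with y hy
        rw [tsum_mul_right, hy]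
    _ = _ := by
        rw [← integral_add_right_eq_self _ x, ← integral_const_mul, ← integral_const_mul]
        refine integral_congr_ae (Eventually.of_forall fun y => ?_)
        simp only
        rw [add_sub_cancel_right, mul_add, ee_add]
        ring

end Tauber

open Tauber in
theorem tauber (hwin : ∃ (Φ : ℝ → ℂ) (b : ℝ → ℝ) (C : ℝ), Integrable Φ ∧ IsWin b C ∧
      ∀ x, ∫ y, Φ y * (b (x - y) : ℂ) = b x)
    (f : ℝ → ℂ) (hf : Integrable f) (Λ : Set ℝ) (δ : ℝ) (hδ : 0 < δ) (hsep : Sep δ Λ) (w : ℂ)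
    (htile : ∀ᵐ x, ∑' l : Λ, f (x - l) = w) (θ : ℝ) (hθ : 0 < θ) :
    ∃ (b : ℝ → ℝ) (C : ℝ), IsWin b C ∧ ∀ ξ, θ ≤ ‖fh f ξ‖ → ∃ c : ℂ,
      (∀ x, ∑' l : Λ, (b (l - x) : ℂ) * ee (ξ * (l - x)) = c) ∧ (fh f 0 = 0 → c = 0) := by
  obtain ⟨φ, b, C, hφ, hb, hrep, hε⟩ := exists_win hwin hf hθ
  refine ⟨b, C, hb, fun ξ hξ => ?_⟩
  have hc := continuous_U hδ hsep hb ξ
  have hB := norm_U_le hδ hsep hb ξ
  have hR := U_rep hδ hsep hb hφ hrep ξ
  have hA := U_conv hδ hsep hb hf htile ξ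
  have hfe : Integrable fun v => f v * ee (ξ * v) :=
    integrable_mul_bdd hf (by fun_prop) (M := 1) fun v => (norm_ee _).le
  have h1 : ∀ h, ee (-(ξ * h)) * U Λ b ξ h = U Λ b ξ 0 := by
    intro h
    have := key (V := fun x => ee (-(ξ * h)) * U Λ b ξ (x + h) - U Λ b ξ x) hφ hf (by fun_prop)
      (B := C * S0 δ + C * S0 δ) (fun x => (norm_sub_le _ _).trans (add_le_add (by
        rw [norm_mul, norm_ee, one_mul]; exact hB _) (hB _))) (fun x => by
        have i1 := integrable_mul_bdd hφ (V := fun y => U Λ b ξ (x + h + y)) (by fun_prop)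
          fun y => hB _
        have i2 := integrable_mul_bdd hφ (V := fun y => U Λ b ξ (x + y)) (by fun_prop)
          fun y => hB _
        rw [hR (x + h), hR x, ← integral_const_mul, ← integral_sub (i1.const_mul _) i2]
        refine integral_congr_ae (Eventually.of_forall fun y => ?_)
        simp only
        rw [add_right_comm x y h]
        ring) (ξ := ξ) (fun x => by
        have i1 := integrable_mul_bdd hfe (V := fun v => U Λ b ξ (x + h - v)) (by fun_prop)
          fun y => hB _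
        have i2 := integrable_mul_bdd hfe (V := fun v => U Λ b ξ (x - v)) (by fun_prop)
          fun y => hB _
        have e : ∀ v, f v * ee (ξ * v) * (ee (-(ξ * h)) * U Λ b ξ (x - v + h) - U Λ b ξ (x - v)) =
            ee (-(ξ * h)) * (f v * ee (ξ * v) * U Λ b ξ (x + h - v)) -
              f v * ee (ξ * v) * U Λ b ξ (x - v) := fun v => by
          rw [sub_add_eq_add_sub]
          ring
        simp only [e]
        rw [integral_sub (i1.const_mul _) i2, integral_const_mul, hA, hA, ← mul_assoc, ← ee_add,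
          show -(ξ * h) + ξ * (x + h) = ξ * x by ring, sub_self]) (hε.trans_le hξ) 0
    rw [zero_add] at this
    exact sub_eq_zero.mp this
  refine ⟨U Λ b ξ 0, fun x => ?_, fun h0 => ?_⟩
  · rw [← h1 x, U, ← tsum_mul_left]
    refine tsum_congr fun l => ?_
    rw [show ξ * (l - x) = -(ξ * x) + ξ * l by ring, ee_add]
    ring
  · refine key hφ hf hc hB hR (ξ := ξ) (fun x => ?_) (hε.trans_le hξ) 0
    have e : ∀ v, f v * ee (ξ * v) * U Λ b ξ (x - v) =
        f v * ee (0 * v) * (ee (ξ * x) * U Λ b ξ 0) := fun v => by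
      rw [← h1 (x - v), zero_mul, ee_zero, mul_one, ← mul_assoc (ee _), ← ee_add,
        show ξ * x + -(ξ * (x - v)) = ξ * v by ring, mul_assoc]
    simp only [e]
    rw [integral_mul_const, ← fh, h0, zero_mul]

end Pool.Agent.P.MP_731e7b_an
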