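import Pool.Agent.P.MP_731e7b_an.Compact
import Pool.Agent.P.MP_731e7b_an.Bump
import Pool.Agent.P.MP_731e7b_an.Tauber
import Pool.Agent.P.MP_731e7b_an.Enum

/-!
The core theorem: a tiling whose exponential system has a lower Riesz bound on a compact set
where the Fourier transform of the tile does not vanish is periodic.
-/

open MeasureTheory Set Filter Topology

namespace Pool.Agent.P.MP_731e7b_an

theorem continuous_fh' {f : ℝ → ℂ} (hf : Integrable f) : Continuous (fh f) := by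
  refine continuous_of_dominated (bound := fun v => ‖f v‖)
    (fun ξ => hf.aestronglyMeasurable.mul (Continuous.aestronglyMeasurable (by fun_prop)))
    (fun ξ => Eventually.of_forall fun v => ?_) hf.norm
    (Eventually.of_forall fun v => by fun_prop)
  rw [norm_mul, norm_ee, mul_one]

theorem norm_ee_sub_le (a a' : ℝ) : ‖ee a - ee a'‖ ≤ 2 * Real.pi * |a - a'| := by
  have e : ee a - ee a' = ee a' * (ee (a - a') - 1) := by
    rw [mul_sub, ← ee_add, mul_one]; congr 2; ring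
  rw [e, norm_mul, norm_ee, one_mul]
  have := Real.norm_exp_I_mul_ofReal_sub_one_le (x := 2 * Real.pi * (a - a'))
  rw [Real.norm_eq_abs, abs_mul, abs_of_pos (by positivity : 0 < 2 * Real.pi)] at this
  convert this using 3
  rw [ee]; congr 1; push_cast; ring

theorem sep_of_coer {Λ K : Set ℝ} {R c0 : ℝ} (hR : 0 ≤ R)
    (hKR : K ⊆ Icc (-R) R) (hc0 : 0 < c0)
    (hco : ∀ S : Finset ℝ, (S : Set ℝ) ⊆ Λ → ∀ y : ℝ → ℝ,
      c0 * ∑ l ∈ S, y l ^ 2 ≤ ∫ ξ in K, ‖∑ l ∈ S, (y l : ℂ) * ee (ξ * l)‖ ^ 2) :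
    ∃ δ : ℝ, 0 < δ ∧ Sep δ Λ := by
  classical
  have hπ := Real.pi_pos
  set D := 2 * R * (2 * Real.pi * R) ^ 2 + 1 with hD
  have hD0 : 0 < D := by positivity
  refine ⟨√(2 * c0 / D), by positivity, fun a ha a' ha' hne => ?_⟩
  have h1 := hco {a, a'} (by
    intro u hu
    simp only [Finset.coe_insert, Finset.coe_singleton, mem_insert_iff, mem_singleton_iff] at hu
    rcases hu with rfl | rfl <;> assumption) fun u => if u = a then 1 else -1
  simp only [Finset.sum_pair hne, if_true, if_neg hne.symm] at h1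
  have hfin : volume K < ⊤ := (measure_mono hKR).trans_lt measure_Icc_lt_top
  have h2 : ‖∫ ξ in K, ‖((1 : ℝ) : ℂ) * ee (ξ * a) + ((-1 : ℝ) : ℂ) * ee (ξ * a')‖ ^ 2‖ ≤
      (2 * Real.pi * R * |a - a'|) ^ 2 * volume.real K := by
    refine norm_setIntegral_le_of_norm_le_const hfin fun ξ hξ => ?_
    rw [Real.norm_of_nonneg (by positivity)]
    refine pow_le_pow_left₀ (norm_nonneg _) ?_ 2
    have := norm_ee_sub_le (ξ * a) (ξ * a')
    rw [← mul_sub, abs_mul] at this
    have h3 : |ξ| ≤ R := abs_le.mpr (hKR hξ)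
    calc _ = ‖ee (ξ * a) - ee (ξ * a')‖ := by congr 1; push_cast; ring
      _ ≤ 2 * Real.pi * (|ξ| * |a - a'|) := this
      _ ≤ 2 * Real.pi * (R * |a - a'|) := by gcongr
      _ = _ := by ring
  have h4 : volume.real K ≤ 2 * R := by
    have := measureReal_mono (μ := volume) hKR measure_Icc_lt_top.ne
    rw [Real.volume_real_Icc_of_le (by linarith)] at this
    linarith
  have h5 : 2 * c0 ≤ D * |a - a'| ^ 2 := by
    have h6 := (h1.trans (le_abs_self _)).trans h2
    have h7 : (2 * Real.pi * R * |a - a'|) ^ 2 * volume.real K ≤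
        (2 * Real.pi * R * |a - a'|) ^ 2 * (2 * R) := by gcongr
    have : D * |a - a'| ^ 2 = (2 * Real.pi * R * |a - a'|) ^ 2 * (2 * R) + |a - a'| ^ 2 := by
      rw [hD]; ring
    nlinarith [sq_nonneg |a - a'|]
  rw [Real.sqrt_le_left (abs_nonneg _), div_le_iff₀' hD0]
  exact h5

theorem empty_of_vanish {Λ K : Set ℝ} {R c0 δ C : ℝ} {b : ℝ → ℝ} (hδ : 0 < δ) (hsep : Sep δ Λ)
    (hb : IsWin b C) (hK : MeasurableSet K) (hKR : K ⊆ Icc (-R) R) (hc0 : 0 < c0)
    (hco : ∀ S : Finset ℝ, (S : Set ℝ) ⊆ Λ → ∀ y : ℝ → ℝ,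
      c0 * ∑ l ∈ S, y l ^ 2 ≤ ∫ ξ in K, ‖∑ l ∈ S, (y l : ℂ) * ee (ξ * l)‖ ^ 2)
    (h0 : ∀ ξ ∈ K, ∑' l : Λ, (b l : ℂ) * ee (ξ * l) = 0) : Λ = ∅ := by
  by_contra hne
  obtain ⟨a, ha⟩ := nonempty_iff_ne_empty.mpr hne
  have := hsep.countable hδ
  have hfin : volume K < ⊤ := (measure_mono hKR).trans_lt measure_Icc_lt_top
  have : IsFiniteMeasure (volume.restrict K) := ⟨by simpa using hfin⟩
  have hs : Summable fun l : Λ => b l := by
    simpa using hb.summable_sep hδ (fun l : Λ => (l : ℝ)) hsep.family 0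
  have hn : ∀ ξ (l : Λ), ‖(b l : ℂ) * ee (ξ * l)‖ = b l := fun ξ l => by
    rw [norm_mul, norm_ee, mul_one, Complex.norm_real, Real.norm_of_nonneg (hb.pos _).le]
  have h1 : Tendsto (fun S : Finset Λ => ∫ ξ in K, ‖∑ l ∈ S, (b l : ℂ) * ee (ξ * l)‖ ^ 2) atTop
      (𝓝 (∫ _ in K, (0 : ℝ))) := by
    refine tendsto_integral_filter_of_norm_le_const
      (Eventually.of_forall fun i => Continuous.aestronglyMeasurable (by fun_prop))
      ⟨(∑' l : Λ, b l) ^ 2, Eventually.of_forall fun S => Eventually.of_forall fun ξ => ?_⟩ ?_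
    · rw [Real.norm_of_nonneg (by positivity)]
      refine pow_le_pow_left₀ (norm_nonneg _) ((norm_sum_le _ _).trans ?_) 2
      simp_rw [hn]
      exact hs.sum_le_tsum _ fun l _ => (hb.pos _).le
    · rw [ae_restrict_iff' hK]
      refine Eventually.of_forall fun ξ hξ => ?_
      have h2 : Summable fun l : Λ => (b l : ℂ) * ee (ξ * l) :=
        Summable.of_norm (by simpa only [hn] using hs)
      have h3 := h2.hasSum
      rw [h0 ξ hξ] at h3
      have h4 := (Tendsto.norm h3).pow 2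
      simpa using h4
  rw [integral_zero] at h1
  have h2 : c0 * b a ^ 2 ≤ 0 := by
    refine ge_of_tendsto h1 ?_
    filter_upwards [eventually_ge_atTop ({⟨a, ha⟩} : Finset Λ)] with S hS
    have h3 := hco (S.map (Function.Embedding.subtype _)) (fun u hu => by
      obtain ⟨v, -, rfl⟩ := Finset.mem_map.mp hu
      exact v.2) b
    simp only [Finset.sum_map, Function.Embedding.coe_subtype] at h3
    refine le_trans (mul_le_mul_of_nonneg_left ?_ hc0.le) h3
    exact Finset.single_le_sum (f := fun l : Λ => b l ^ 2) (fun _ _ => sq_nonneg _)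
      (hS (Finset.mem_singleton_self _))
  have := mul_pos hc0 (pow_pos (hb.pos a) 2)
  linarith

/-- The core theorem. -/
theorem core (f : ℝ → ℂ) (hf : Integrable f) (Λ : Set ℝ) (w : ℂ)
    (htile : ∀ᵐ x, ∑' l : Λ, f (x - l) = w) (K : Set ℝ) (c0 : ℝ) (hK : IsCompact K)
    (hKf : ∀ ξ ∈ K, fh f ξ ≠ 0) (hc0 : 0 < c0)
    (hco : ∀ S : Finset ℝ, (S : Set ℝ) ⊆ Λ → ∀ y : ℝ → ℝ,
      c0 * ∑ l ∈ S, y l ^ 2 ≤ ∫ ξ in K, ‖∑ l ∈ S, (y l : ℂ) * ee (ξ * l)‖ ^ 2) :
    ∃ a : ℝ, 0 < a ∧ ∃ (N : ℕ) (β : Fin N → ℝ),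
      Λ = ⋃ j, {x | ∃ k : ℤ, x = a * k + β j} ∧
      Pairwise fun i j =>
        Disjoint {x | ∃ k : ℤ, x = a * k + β i} {x | ∃ k : ℤ, x = a * k + β j} := by
  rcases Λ.eq_empty_or_nonempty with hΛ | hΛ
  · exact ⟨1, one_pos, 0, Fin.elim0, by simp [hΛ], fun i => i.elim0⟩
  obtain ⟨R, hR, hKR⟩ : ∃ R : ℝ, 0 ≤ R ∧ K ⊆ Icc (-R) R := by
    obtain ⟨R, hR⟩ := hK.isBounded.subset_closedBall 0
    refine ⟨|R|, abs_nonneg _, fun ξ hξ => abs_le.mp ?_⟩
    have := hR hξ
    rw [mem_closedBall_zero_iff, Real.norm_eq_abs] at this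
    exact this.trans (le_abs_self _)
  obtain ⟨δ, hδ, hsep⟩ := sep_of_coer hR hKR hc0 hco
  have hcont : Continuous fun ξ => ‖fh f ξ‖ := (continuous_fh' hf).norm
  by_cases h0 : fh f 0 = 0
  · obtain ⟨m, hm, hmK⟩ := hK.exists_forall_le' hcont.continuousOn
      fun ξ hξ => norm_pos_iff.mpr (hKf ξ hξ)
    obtain ⟨b, C, hb, H⟩ := tauber exists_win f hf Λ δ hδ hsep w htile m hm
    refine absurd (empty_of_vanish hδ hsep hb hK.measurableSet hKR hc0 hco fun ξ hξ => ?_)
      hΛ.ne_empty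
    obtain ⟨c, hc, hc'⟩ := H ξ (hmK ξ hξ)
    simpa [hc' h0] using hc 0
  have hK' : IsCompact (insert 0 K) := hK.insert 0
  obtain ⟨m, hm, hmK⟩ := hK'.exists_forall_le' hcont.continuousOn
    (a := 0) fun ξ hξ => norm_pos_iff.mpr (by
      rcases hξ with rfl | hξ
      exacts [h0, hKf ξ hξ])
  obtain ⟨η, hη, hηK⟩ := hK'.exists_cthickening_subset_open
    (isOpen_lt continuous_const hcont : IsOpen {ξ | m / 2 < ‖fh f ξ‖})
    fun ξ hξ => by
      have := hmK ξ hξ
      change m / 2 < ‖fh f ξ‖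
      linarith
  obtain ⟨b, C, hb, H⟩ := tauber exists_win f hf Λ δ hδ hsep w htile (m / 2) (half_pos hm)
  choose! c hc _ using H
  have h00 : m / 2 ≤ ‖fh f 0‖ := by linarith [hmK 0 (mem_insert _ _)]
  obtain ⟨δ1, l, hl, hlo, hhi⟩ := enum Λ δ hδ hsep hΛ b C hb (c 0).re fun x => by
    rw [← hc 0 h00 x]
    simp only [zero_mul, ee_zero, mul_one]
    rw [← Complex.ofReal_tsum, Complex.ofReal_re]
  let P : Par :=
    { δ0 := δ, δ1 := δ1, η := η, c0 := c0, R := R, C := C, b := b, K := insert 0 K,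
      U := {ξ | m / 2 ≤ ‖fh f ξ‖}, c := c, δ0_pos := hδ, η_pos := hη, c0_pos := hc0,
      R_nonneg := hR, win := hb, K_meas := hK'.measurableSet
      K_sub := insert_subset ⟨by linarith, hR⟩ hKR
      zero_mem := mem_insert _ _
      U_sup := fun ξ hξ τ hτ => by
        have h1 : m / 2 < ‖fh f (ξ + τ)‖ := hηK (Metric.mem_cthickening_of_dist_le (ξ + τ) ξ η _ hξ
          (by simpa [Real.dist_eq] using hτ))
        exact h1.le }
  have hg : Gaps δ δ1 l := ⟨hlo, hhi⟩
  have hinj := (hg.strictMono hδ).injective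
  subst hl
  have hG : Good P l := by
    refine ⟨hg, fun ξ hξ x => ?_, fun S y => ?_⟩
    · have := hc ξ hξ x
      rw [← (Equiv.ofInjective l hinj).tsum_eq] at this
      exact this
    · have h3 := hco (S.map ⟨l, hinj⟩) (fun u hu => by
        obtain ⟨v, -, rfl⟩ := Finset.mem_map.mp hu
        exact mem_range_self v) fun u => y (Function.invFun l u)
      simp only [Finset.sum_map, Function.Embedding.coeFn_mk,
        Function.leftInverse_invFun hinj _] at h3
      refine h3.trans (le_of_eq ?_)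
      change _ = ∫ ξ in insert 0 K, _
      rw [Measure.restrict_congr_set (insert_ae_eq_self 0 K)]
  obtain ⟨p, hp, t, ht⟩ := hG.periodic
  exact periodic_structure l (hg.strictMono hδ) p hp t ht

end Pool.Agent.P.MP_731e7b_an
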