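import Mathlib

/-!
Definitions for the rigidity theorem on translational tilings of the real line.
-/

open MeasureTheory Set Filter Topology

namespace Pool.Agent.P.MP_731e7b_an

/-- `ee x = exp (2 π i x)`. -/
noncomputable def ee (x : ℝ) : ℂ := Complex.exp (2 * Real.pi * x * Complex.I)

/-- Fourier transform with the positive sign convention. -/
noncomputable def fh (f : ℝ → ℂ) (ξ : ℝ) : ℂ := ∫ v, f v * ee (ξ * v)

/-- `Λ` is `δ`-separated. -/
def Sep (δ : ℝ) (Λ : Set ℝ) : Prop := ∀ x ∈ Λ, ∀ y ∈ Λ, x ≠ y → δ ≤ |x - y|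

/-- A positive, log-Lipschitz window with quartic decay. -/
structure IsWin (b : ℝ → ℝ) (C : ℝ) : Prop where
  pos : ∀ u, 0 < b u
  lip : ∀ u v, b (u + v) ≤ Real.exp |v| * b u
  decay : ∀ u, b u ≤ C / (1 + |u|) ^ 4

theorem ee_zero : ee 0 = 1 := by simp [ee]

theorem ee_add (x y : ℝ) : ee (x + y) = ee x * ee y := by
  simp only [ee, ← Complex.exp_add]; congr 1; push_cast; ring

theorem norm_ee (x : ℝ) : ‖ee x‖ = 1 := by
  have : ee x = Complex.exp (((2 * Real.pi * x : ℝ) : ℂ) * Complex.I) := by
    simp only [ee]; congr 1; push_cast; ring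
  rw [this, Complex.norm_exp_ofReal_mul_I]

theorem ee_neg (x : ℝ) : ee (-x) = (starRingEnd ℂ) (ee x) := by
  simp only [ee, ← Complex.exp_conj, map_mul, Complex.conj_ofReal, Complex.conj_I]
  congr 1
  rw [show (starRingEnd ℂ) 2 = 2 from Complex.conj_ofReal 2 ▸ by simp]
  push_cast; ring

theorem ee_mul_neg (x : ℝ) : ee x * ee (-x) = 1 := by rw [← ee_add]; simp [ee_zero]

@[fun_prop]
theorem continuous_ee : Continuous ee := by unfold ee; fun_prop

theorem hasDerivAt_ee_mul (ξ u : ℝ) :
    HasDerivAt (fun u : ℝ => ee (ξ * u)) (2 * Real.pi * ξ * Complex.I * ee (ξ * u)) u := by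
  have h1 : HasDerivAt (fun u : ℝ => (2 * Real.pi * ((ξ * u : ℝ) : ℂ) * Complex.I))
      (2 * Real.pi * ξ * Complex.I) u := by
    have h0 : HasDerivAt (fun u : ℝ => ((ξ * u : ℝ) : ℂ)) (ξ : ℂ) u := by
      have := ((hasDerivAt_id u).const_mul ξ).ofReal_comp
      simpa using this
    exact (h0.const_mul (2 * Real.pi : ℂ)).mul_const Complex.I
  have := h1.cexp
  simpa [ee, mul_comm] using this

namespace IsWin

variable {b : ℝ → ℝ} {C : ℝ}

theorem C_pos (h : IsWin b C) : 0 < C := by
  have := (h.pos 0).trans_le (h.decay 0)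
  simpa using this

theorem le_C (h : IsWin b C) (u : ℝ) : b u ≤ C := by
  refine (h.decay u).trans (div_le_self h.C_pos.le ?_)
  exact one_le_pow₀ (by linarith [abs_nonneg u])

theorem abs_sub_le (h : IsWin b C) (u v : ℝ) :
    |b (u + v) - b u| ≤ (Real.exp |v| - 1) * b u := by
  have h1 := h.lip u v
  have h2 := h.lip (u + v) (-v)
  rw [abs_neg, add_neg_cancel_right] at h2
  have h3 := h.pos u
  have h4 := h.pos (u + v)
  have h5 : 1 ≤ Real.exp |v| := Real.one_le_exp (abs_nonneg v)
  rw [abs_le]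
  refine ⟨?_, by linarith⟩
  by_contra hc
  push Not at hc
  have h6 : b (u + v) < (2 - Real.exp |v|) * b u := by linarith
  have h7 : Real.exp |v| * b (u + v) < Real.exp |v| * ((2 - Real.exp |v|) * b u) :=
    mul_lt_mul_of_pos_left h6 (by linarith)
  nlinarith [mul_nonneg (sq_nonneg (Real.exp |v| - 1)) h3.le]

theorem continuous (h : IsWin b C) : Continuous b := by
  rw [continuous_iff_continuousAt]
  intro u
  have h1 : Tendsto (fun x : ℝ => (Real.exp |x - u| - 1) * b u) (𝓝 u) (𝓝 0) := by
    have : Continuous (fun x : ℝ => (Real.exp |x - u| - 1) * b u) := by fun_prop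
    have := this.tendsto u
    simpa using this
  rw [ContinuousAt, tendsto_iff_norm_sub_tendsto_zero]
  refine squeeze_zero (fun x => norm_nonneg _) (fun x => ?_) h1
  have := h.abs_sub_le u (x - u)
  simpa using this

theorem decay2 (h : IsWin b C) (u : ℝ) : b u ≤ C * (1 / (1 + |u|) ^ 2) := by
  refine (h.decay u).trans ?_
  rw [mul_one_div]
  exact div_le_div_of_nonneg_left h.C_pos.le (by positivity)
    (pow_le_pow_right₀ (by linarith [abs_nonneg u]) (by norm_num))

theorem integrable (h : IsWin b C) : Integrable b := by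
  refine Integrable.mono' (integrable_inv_one_add_sq.const_mul C)
    h.continuous.aestronglyMeasurable (Eventually.of_forall fun u => ?_)
  rw [Real.norm_of_nonneg (h.pos u).le]
  refine (h.decay2 u).trans (mul_le_mul_of_nonneg_left ?_ h.C_pos.le)
  rw [one_div]
  refine inv_anti₀ (by positivity) ?_
  nlinarith [abs_nonneg u, sq_abs u]

theorem integral_pos (h : IsWin b C) : 0 < ∫ u, b u := by
  rw [integral_pos_iff_support_of_nonneg (fun u => (h.pos u).le) h.integrable]
  have : Function.support b = univ := eq_univ_of_forall fun u => (h.pos u).ne'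
  rw [this]; simp

end IsWin

end Pool.Agent.P.MP_731e7b_an
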