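import Pool.Agent.P.MP_731e7b_an.Basic

open MeasureTheory Set Filter Topology

namespace Pool.Agent.P.MP_731e7b_an

namespace Dom

theorem exists_piece {B : Set ℝ} (hB : 0 < volume B) {δ : ℝ} (hδ : 0 < δ) :
    ∃ a : ℝ, 0 < volume (B ∩ Ioc a (a + δ)) := by
  by_contra hc
  push Not at hc
  have h1 : B = ⋃ n : ℤ, B ∩ Ioc (n • δ) ((n + 1) • δ) := by
    rw [← inter_iUnion, iUnion_Ioc_zsmul hδ, inter_univ]
  have h2 : volume (⋃ n : ℤ, B ∩ Ioc (n • δ) ((n + 1) • δ)) = 0 := by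
    refine measure_iUnion_null fun n => ?_
    have := hc (n • δ)
    rw [add_zsmul, one_zsmul]
    exact le_antisymm this zero_le
  rw [← h1] at h2
  exact hB.ne' h2

theorem shift_Ioc (h : ℝ → ℝ) (a s : ℝ) {δ : ℝ} (hδ : 0 ≤ δ) :
    ∫ t in Ioc a (a + δ), h (t + s) = ∫ t in Ioc (a + s) (a + s + δ), h t := by
  rw [← intervalIntegral.integral_of_le (by linarith),
    ← intervalIntegral.integral_of_le (by linarith), intervalIntegral.integral_comp_add_right]
  congr 1; ring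

theorem sum_Ioc_le {ι : Type*} {h : ℝ → ℝ} (hi : Integrable h) (h0 : ∀ x, 0 ≤ h x)
    {δ : ℝ} (T : Finset ι) (s : ι → ℝ)
    (hs : ∀ i ∈ T, ∀ j ∈ T, i ≠ j → δ ≤ |s i - s j|) (U : Set ℝ)
    (hU : ∀ i ∈ T, Ioc (s i) (s i + δ) ⊆ U) :
    ∑ i ∈ T, ∫ t in Ioc (s i) (s i + δ), h t ≤ ∫ t in U, h t := by
  rw [← integral_biUnion_finset T (fun i _ => measurableSet_Ioc) ?_
    (fun i _ => hi.integrableOn)]
  · refine setIntegral_mono_set hi.integrableOn (Eventually.of_forall h0) ?_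
    exact (iUnion₂_subset hU).eventuallyLE
  · intro i hi' j hj hij
    have := hs i hi' j hj hij
    refine Set.disjoint_left.mpr fun x hx hx' => ?_
    rcases abs_cases (s i - s j) with e | e <;> linarith [hx.1, hx.2, hx'.1, hx'.2, e.1]

theorem sq_integral_le {u : ℝ → ℝ} (hu : Integrable u) (hu2 : Integrable fun x => u x ^ 2)
    (b : ℝ) {δ : ℝ} (hδ : 0 < δ) :
    (∫ t in Ioc b (b + δ), u t) ^ 2 ≤ δ * ∫ t in Ioc b (b + δ), u t ^ 2 := by
  set m := ∫ t in Ioc b (b + δ), u t with hm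
  have hv : (volume : Measure ℝ).real (Ioc b (b + δ)) = δ := by
    rw [Real.volume_real_Ioc_of_le (by linarith)]; ring
  have h1 : ∫ t in Ioc b (b + δ), (2 * (m / δ) * u t - (m / δ) ^ 2) ≤
      ∫ t in Ioc b (b + δ), u t ^ 2 := by
    refine integral_mono ((hu.const_mul _).integrableOn.sub (integrableOn_const (by simp)))
      hu2.integrableOn fun t => ?_
    nlinarith [sq_nonneg (u t - m / δ)]
  rw [integral_sub (hu.const_mul _).integrableOn (integrableOn_const (by simp)),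
    integral_const_mul, setIntegral_const, hv, ← hm, smul_eq_mul] at h1
  have h2 : m ^ 2 = δ * (2 * (m / δ) * m - δ * (m / δ) ^ 2) := by field_simp; ring
  rw [h2]
  exact mul_le_mul_of_nonneg_left h1 hδ.le

theorem fin_sum_le {f : ℝ → ℂ} {Λ : Set ℝ} {W : ℝ}
    (hbdd : ∀ᵐ x, Summable (fun l : Λ => ‖f (x - l)‖) ∧ ∑' l : Λ, ‖f (x - l)‖ ≤ W)
    (S : Finset ℝ) (hS : (S : Set ℝ) ⊆ Λ) (μ : ℝ) :
    ∀ᵐ t, ∑ l ∈ S, ‖f (t + μ - l)‖ ≤ W := by
  classical
  have h1 : ∀ᵐ x, ∑ l ∈ S, ‖f (x - l)‖ ≤ W := by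
    filter_upwards [hbdd] with x hx
    refine le_trans ?_ hx.2
    rw [← Finset.sum_subtype_of_mem (p := (· ∈ Λ)) (fun l => ‖f (x - l)‖) fun l hl => hS hl]
    exact hx.1.sum_le_tsum _ fun _ _ => norm_nonneg _
  exact (measurePreserving_add_right volume μ).quasiMeasurePreserving.ae h1

theorem exists_level {f : ℝ → ℂ} (hf : Integrable f) {W : ℝ}
    (hdom : 0 < volume {x | W / 2 < ‖f x‖}) :
    ∃ k : ℝ, 0 < k ∧ ∃ A : Set ℝ, MeasurableSet A ∧ 0 < volume A ∧
      ∀ x ∈ A, W / 2 + k ≤ ‖f x‖ := by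
  have h1 : {x | W / 2 < ‖f x‖} ⊆ ⋃ n : ℕ, {x | W / 2 + 1 / ((n : ℝ) + 1) ≤ ‖f x‖} := by
    intro x hx
    have hx' : W / 2 < ‖f x‖ := hx
    obtain ⟨n, hn⟩ := exists_nat_one_div_lt (K := ℝ) (sub_pos.mpr hx')
    exact mem_iUnion.mpr ⟨n, by simp only [mem_ofPred_eq]; linarith⟩
  obtain ⟨n, hn⟩ : ∃ n : ℕ, 0 < volume {x | W / 2 + 1 / ((n : ℝ) + 1) ≤ ‖f x‖} := by
    by_contra hc
    push Not at hc
    have := measure_iUnion_null (μ := volume) fun n => le_antisymm (hc n) zero_le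
    exact hdom.ne' (measure_mono_null h1 this)
  have h2 : NullMeasurableSet {x | W / 2 + 1 / ((n : ℝ) + 1) ≤ ‖f x‖} volume :=
    nullMeasurableSet_le aemeasurable_const hf.norm.aemeasurable
  obtain ⟨A, hA, hAm, hAe⟩ := h2.exists_measurable_subset_ae_eq
  exact ⟨1 / ((n : ℝ) + 1), by positivity, A, hAm, by rwa [measure_congr hAe], fun x hx => hA hx⟩

theorem exists_sep {f : ℝ → ℂ} (hf : Integrable f) {Λ : Set ℝ} {W k : ℝ} (hk : 0 < k)
    (hbdd : ∀ᵐ x, Summable (fun l : Λ => ‖f (x - l)‖) ∧ ∑' l : Λ, ‖f (x - l)‖ ≤ W)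
    {A : Set ℝ} (hA : MeasurableSet A) (hA0 : 0 < volume A) (hAk : ∀ x ∈ A, W / 2 + k ≤ ‖f x‖) :
    ∃ δ : ℝ, 0 < δ ∧ δ ≤ 1 ∧ Sep δ Λ := by
  classical
  obtain ⟨a, ha⟩ := exists_piece hA0 one_pos
  set A1 := A ∩ Ioc a (a + 1) with hA1
  have hm : MeasurableSet A1 := hA.inter measurableSet_Ioc
  have hfin : volume A1 ≠ ⊤ :=
    ((measure_mono inter_subset_right).trans_lt measure_Ioc_lt_top).ne
  have hpos : 0 < (volume : Measure ℝ).real A1 := ENNReal.toReal_pos ha.ne' hfin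
  have hc := (continuous_shift_L1 hf).continuousAt (x := 0)
  obtain ⟨δ0, hδ0, hδ⟩ := Metric.continuousAt_iff.mp hc (2 * k * (volume : Measure ℝ).real A1)
    (by positivity)
  refine ⟨min δ0 1, lt_min hδ0 one_pos, min_le_right _ _, fun l hl l' hl' hne => ?_⟩
  by_contra hlt
  push Not at hlt
  have h1 := hδ (x := l - l') (by
    rw [Real.dist_eq, sub_zero]; exact hlt.trans_le (min_le_left _ _))
  simp only [add_zero, sub_self, norm_zero, integral_zero, Real.dist_eq, sub_zero] at h1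
  have hi : Integrable fun y => ‖f (y + (l - l')) - f y‖ :=
    ((hf.comp_add_right _).sub hf).norm
  have h2 := fin_sum_le hbdd {l, l'} (by
    intro x hx
    simp only [Finset.coe_insert, Finset.coe_singleton, mem_insert_iff, mem_singleton_iff] at hx
    rcases hx with rfl | rfl <;> assumption) l
  have h3 : ∫ _ in A1, 2 * k ≤ ∫ y in A1, ‖f (y + (l - l')) - f y‖ := by
    refine setIntegral_mono_on_ae (integrableOn_const hfin) hi.integrableOn hm ?_
    filter_upwards [h2] with t ht htA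
    rw [Finset.sum_pair hne, add_sub_cancel_right, add_sub_assoc] at ht
    have := hAk t htA.1
    have h4 := norm_sub_norm_le (f t) (f (t + (l - l')))
    rw [norm_sub_rev] at h4
    linarith
  rw [setIntegral_const, smul_eq_mul] at h3
  have h4 : ∫ y in A1, ‖f (y + (l - l')) - f y‖ ≤ ∫ y, ‖f (y + (l - l')) - f y‖ :=
    setIntegral_le_integral hi (Eventually.of_forall fun _ => norm_nonneg _)
  have h5 := le_abs_self (∫ y, ‖f (y + (l - l')) - f y‖)
  linarith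

theorem integrable_sq {f : ℝ → ℂ} (hf : Integrable f) {W : ℝ} (S : Finset ℝ)
    (hS : ∀ᵐ x, ∑ l ∈ S, ‖f (x - l)‖ ≤ W) (y : ℝ → ℝ) :
    Integrable fun x => ‖∑ l ∈ S, (y l : ℂ) * f (x - l)‖ ^ 2 := by
  have hF : Integrable fun x => ∑ l ∈ S, (y l : ℂ) * f (x - l) :=
    integrable_finsetSum _ fun l _ => (hf.comp_sub_right l).const_mul _
  refine Integrable.mono' (hF.norm.const_mul ((∑ l ∈ S, |y l|) * W))
    (hF.norm.aestronglyMeasurable.pow 2) ?_
  filter_upwards [hS] with x hx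
  rw [Real.norm_of_nonneg (by positivity), sq]
  refine mul_le_mul_of_nonneg_right ?_ (norm_nonneg _)
  calc ‖∑ l ∈ S, (y l : ℂ) * f (x - l)‖ ≤ ∑ l ∈ S, |y l| * W := by
        refine (norm_sum_le _ _).trans (Finset.sum_le_sum fun l hl => ?_)
        rw [norm_mul, Complex.norm_real, Real.norm_eq_abs]
        refine mul_le_mul_of_nonneg_left (le_trans ?_ hx) (abs_nonneg _)
        exact Finset.single_le_sum (f := fun l => ‖f (x - l)‖) (fun _ _ => norm_nonneg _) hl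
    _ = _ := by rw [Finset.sum_mul]

end Dom

open Dom in
theorem riesz_of_dominant
    (hSJ : ∀ (δ κ : ℝ), 0 < δ → 0 < κ → ∀ p : ℤ → ℝ, (∀ k, 0 ≤ p k) → Summable p →
      ∃ c : ℝ, 0 < c ∧ ∀ (S : Finset ℝ) (M : ℝ → ℝ → ℂ), Sep δ (S : Set ℝ) →
        (∀ μ ∈ S, κ + ∑ l ∈ S.erase μ, ‖M μ l‖ ≤ ‖M μ μ‖) →
        (∀ μ ∈ S, ∀ k : ℤ, ∑ l ∈ S.filter (fun l => ⌊μ - l⌋ = k), ‖M μ l‖ ≤ p k) →
        ∀ y : ℝ → ℝ, c * ∑ l ∈ S, y l ^ 2 ≤ ∑ μ ∈ S, ‖∑ l ∈ S, M μ l * (y l : ℂ)‖ ^ 2)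
    (f : ℝ → ℂ) (hf : Integrable f) (Λ : Set ℝ) (W : ℝ)
    (hbdd : ∀ᵐ x, Summable (fun l : Λ => ‖f (x - l)‖) ∧ ∑' l : Λ, ‖f (x - l)‖ ≤ W)
    (hdom : 0 < volume {x | W / 2 < ‖f x‖}) :
    ∃ c : ℝ, 0 < c ∧ ∀ S : Finset ℝ, (S : Set ℝ) ⊆ Λ → ∀ y : ℝ → ℝ,
      c * ∑ l ∈ S, y l ^ 2 ≤ ∫ x, ‖∑ l ∈ S, (y l : ℂ) * f (x - l)‖ ^ 2 := by
  obtain ⟨k, hk, A, hA, hA0, hAk⟩ := exists_level hf hdom
  obtain ⟨δ, hδ, hδ1, hsep⟩ := exists_sep hf hk hbdd hA hA0 hAk
  obtain ⟨a, ha⟩ := exists_piece hA0 hδ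
  set A0 := A ∩ Ioc a (a + δ) with hA0def
  have hm : MeasurableSet A0 := hA.inter measurableSet_Ioc
  have hfin : volume A0 ≠ ⊤ :=
    ((measure_mono inter_subset_right).trans_lt measure_Ioc_lt_top).ne
  set α := (volume : Measure ℝ).real A0 with hα
  have hpos : 0 < α := ENNReal.toReal_pos ha.ne' hfin
  -- the summable majorant
  set q : ℤ → ℝ := fun n => ∫ t in Ioc (a + n) (a + n + 1), ‖f t‖ with hq
  have hq0 : ∀ n, 0 ≤ q n := fun n => integral_nonneg fun _ => norm_nonneg _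
  have hqs : Summable q := by
    refine summable_of_sum_le hq0 (c := ∫ t in univ, ‖f t‖) fun T => ?_
    refine sum_Ioc_le hf.norm (fun _ => norm_nonneg _) T (fun n : ℤ => a + n) ?_ univ
      fun _ _ => subset_univ _
    intro i _ j _ hij
    rw [add_sub_add_left_eq_sub, ← Int.cast_sub, ← Int.cast_abs]
    exact_mod_cast Int.one_le_abs (sub_ne_zero.mpr hij)
  obtain ⟨c, hc, hcS⟩ := hSJ δ (2 * k * α) hδ (by positivity) (fun n => q n + q (n + 1))
    (fun n => add_nonneg (hq0 _) (hq0 _)) (hqs.add (hqs.comp_injective (add_left_injective 1)))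
  refine ⟨c / δ, by positivity, fun S hS y => ?_⟩
  -- the test function
  set g : ℝ → ℂ := fun t => (starRingEnd ℂ) (f t) / (‖f t‖ : ℂ) with hg
  have hg1 : ∀ t, ‖g t‖ ≤ 1 := fun t => by
    simp only [hg, norm_div, Complex.norm_conj, Complex.norm_real, norm_norm]
    exact div_self_le_one _
  have hgf : ∀ t, g t * f t = (‖f t‖ : ℂ) := fun t => by
    simp only [hg]
    rcases eq_or_ne (f t) 0 with h | h
    · simp [h]
    · have h' : (‖f t‖ : ℂ) ≠ 0 := by exact_mod_cast norm_ne_zero_iff.mpr h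
      rw [div_mul_eq_mul_div, Complex.conj_mul', div_eq_iff h', sq]
  have hgm : AEStronglyMeasurable g volume := by
    refine AEMeasurable.aestronglyMeasurable (AEMeasurable.div ?_ ?_)
    · exact Complex.continuous_conj.measurable.comp_aemeasurable hf.aemeasurable
    · exact Complex.measurable_ofReal.comp_aemeasurable hf.norm.aemeasurable
  have hsh : ∀ s l : ℝ, Integrable fun t => f (t + s - l) := fun s l =>
    (hf.comp_sub_right l).comp_add_right s
  have hint : ∀ {u : ℝ → ℂ}, Integrable u → Integrable fun t => g t * u t := fun hu =>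
    hu.bdd_mul hgm (Eventually.of_forall hg1)
  have hnorm : ∀ {u : ℝ → ℂ}, Integrable u → ‖∫ t in A0, g t * u t‖ ≤ ∫ t in A0, ‖u t‖ := by
    intro u hu
    refine (norm_integral_le_integral_norm _).trans
      (integral_mono (hint hu).norm.integrableOn hu.norm.integrableOn fun t => ?_)
    simp only [norm_mul]
    exact mul_le_of_le_one_left (norm_nonneg _) (hg1 t)
  have hIoc : ∀ {u : ℝ → ℂ}, Integrable u → ∀ s : ℝ,
      ∫ t in A0, ‖u (t + s)‖ ≤ ∫ t in Ioc (a + s) (a + s + δ), ‖u t‖ := by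
    intro u hu s
    rw [← shift_Ioc (fun t => ‖u t‖) a s hδ.le]
    exact setIntegral_mono_set (hu.comp_add_right s).norm.integrableOn
      (Eventually.of_forall fun _ => norm_nonneg _) inter_subset_right.eventuallyLE
  set M : ℝ → ℝ → ℂ := fun μ l => ∫ t in A0, g t * f (t + μ - l) with hM
  have hSsep : Sep δ (S : Set ℝ) := fun x hx z hz hne => hsep x (hS hx) z (hS hz) hne
  have key := hcS S M hSsep ?_ ?_ y
  · set F : ℝ → ℂ := fun x => ∑ l ∈ S, (y l : ℂ) * f (x - l) with hF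
    have hFi : Integrable F := integrable_finsetSum _ fun l _ => (hf.comp_sub_right l).const_mul _
    have hF2 : Integrable fun x => ‖F x‖ ^ 2 := by
      refine integrable_sq hf (W := W) S ?_ y
      simpa using fin_sum_le hbdd S hS 0
    have hz : ∀ μ, ∑ l ∈ S, M μ l * (y l : ℂ) = ∫ t in A0, g t * F (t + μ) := by
      intro μ
      simp only [hM, hF, Finset.mul_sum]
      rw [integral_finsetSum _ fun l _ => (hint ((hsh μ l).const_mul _)).integrableOn]
      refine Finset.sum_congr rfl fun l _ => ?_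
      rw [← integral_mul_const]
      congr 1; ext t; ring
    have h1 : ∑ μ ∈ S, ‖∑ l ∈ S, M μ l * (y l : ℂ)‖ ^ 2 ≤
        ∑ μ ∈ S, δ * ∫ t in Ioc (a + μ) (a + μ + δ), ‖F t‖ ^ 2 := by
      refine Finset.sum_le_sum fun μ _ => ?_
      refine le_trans ?_ (sq_integral_le hFi.norm hF2 (a + μ) hδ)
      rw [hz]
      exact pow_le_pow_left₀ (norm_nonneg _)
        ((hnorm (hFi.comp_add_right μ)).trans (hIoc hFi μ)) 2
    have h2 : ∑ μ ∈ S, ∫ t in Ioc (a + μ) (a + μ + δ), ‖F t‖ ^ 2 ≤ ∫ t in univ, ‖F t‖ ^ 2 := by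
      refine sum_Ioc_le hF2 (fun _ => by positivity) S (fun μ => a + μ) ?_ univ
        fun _ _ => subset_univ _
      intro i hi j hj hij
      rw [add_sub_add_left_eq_sub]
      exact hSsep i hi j hj hij
    rw [setIntegral_univ] at h2
    rw [← Finset.mul_sum] at h1
    rw [div_mul_eq_mul_div, div_le_iff₀ hδ, mul_comm _ δ]
    exact key.trans (h1.trans (mul_le_mul_of_nonneg_left h2 hδ.le))
  · intro μ hμ
    have h1 : ‖M μ μ‖ = ∫ t in A0, ‖f (t + μ - μ)‖ := by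
      simp only [hM, add_sub_cancel_right, hgf]
      rw [integral_complex_ofReal, Complex.norm_real,
        Real.norm_of_nonneg (integral_nonneg fun _ => norm_nonneg _)]
    have h2 : ∫ _ in A0, (W / 2 + k) ≤ ∫ t in A0, ‖f (t + μ - μ)‖ := by
      refine setIntegral_mono_on (integrableOn_const hfin) (hsh μ μ).norm.integrableOn hm
        fun t ht => ?_
      rw [add_sub_cancel_right]
      exact hAk t ht.1
    have h3 : ∑ l ∈ S, ∫ t in A0, ‖f (t + μ - l)‖ ≤ ∫ _ in A0, W := by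
      rw [← integral_finsetSum _ fun l _ => (hsh μ l).norm.integrableOn]
      exact setIntegral_mono_ae
        (integrable_finsetSum _ fun l _ => (hsh μ l).norm).integrableOn
        (integrableOn_const hfin) (fin_sum_le hbdd S hS μ)
    have h4 : ∑ l ∈ S.erase μ, ‖M μ l‖ ≤ ∑ l ∈ S.erase μ, ∫ t in A0, ‖f (t + μ - l)‖ :=
      Finset.sum_le_sum fun l _ => hnorm (hsh μ l)
    rw [← Finset.add_sum_erase _ _ hμ] at h3
    rw [setIntegral_const, smul_eq_mul, ← hα] at h2 h3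
    rw [h1]
    nlinarith
  · intro μ _ n
    have h1 : ∑ l ∈ S.filter (fun l => ⌊μ - l⌋ = n), ‖M μ l‖ ≤
        ∑ l ∈ S.filter (fun l => ⌊μ - l⌋ = n),
          ∫ t in Ioc (a + (μ - l)) (a + (μ - l) + δ), ‖f t‖ := by
      refine Finset.sum_le_sum fun l _ => (hnorm (hsh μ l)).trans ?_
      simp only [add_sub_assoc]
      exact hIoc hf (μ - l)
    refine h1.trans ((sum_Ioc_le hf.norm (fun _ => norm_nonneg _) _ (fun l => a + (μ - l)) ?_
      (Ioc (a + n) (a + n + 1) ∪ Ioc (a + n + 1) (a + n + 1 + 1)) ?_).trans (le_of_eq ?_))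
    · intro i hi j hj hij
      have := hSsep j (Finset.mem_filter.mp hj).1 i (Finset.mem_filter.mp hi).1 hij.symm
      rwa [show a + (μ - i) - (a + (μ - j)) = j - i by ring]
    · intro l hl x hx
      have h2 := Int.floor_eq_iff.mp (Finset.mem_filter.mp hl).2
      rw [Ioc_union_Ioc_eq_Ioc (by linarith) (by linarith)]
      exact ⟨by linarith [hx.1, h2.1], by linarith [hx.2, h2.2]⟩
    · rw [setIntegral_union (Ioc_disjoint_Ioc_of_le le_rfl) measurableSet_Ioc hf.norm.integrableOn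
        hf.norm.integrableOn]
      simp only [hq, Int.cast_add, Int.cast_one, add_assoc]

end Pool.Agent.P.MP_731e7b_an
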