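import Pool.Agent.P.MP_731e7b_an.Pair

/-!
The class of good sequences, its invariance and closedness, and balanced pairs.
-/

open MeasureTheory Set Filter Topology

namespace Pool.Agent.P.MP_731e7b_an

/-- Parameters of the class of good sequences. -/
structure Par where
  δ0 : ℝ
  δ1 : ℝ
  η : ℝ
  c0 : ℝ
  R : ℝ
  C : ℝ
  b : ℝ → ℝ
  K : Set ℝ
  U : Set ℝ
  c : ℝ → ℂ
  δ0_pos : 0 < δ0
  η_pos : 0 < η
  c0_pos : 0 < c0
  R_nonneg : 0 ≤ R
  win : IsWin b C
  K_meas : MeasurableSet K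
  K_sub : K ⊆ Icc (-R) R
  zero_mem : (0 : ℝ) ∈ K
  U_sup : ∀ ξ ∈ K, ∀ τ, |τ| ≤ η → ξ + τ ∈ U

/-- Modulated and translated window. -/
noncomputable def Par.B (P : Par) (ξ x u : ℝ) : ℂ := (P.b (u - x) : ℂ) * ee (ξ * (u - x))

theorem Par.continuous_B (P : Par) (ξ x : ℝ) : Continuous (P.B ξ x) := by
  have := P.win.continuous
  unfold Par.B; fun_prop

theorem Par.norm_B (P : Par) (ξ x u : ℝ) : ‖P.B ξ x u‖ = P.b (u - x) := by
  rw [Par.B, norm_mul, norm_ee, mul_one, Complex.norm_real, Real.norm_of_nonneg (P.win.pos _).le]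

theorem Par.norm_B_le (P : Par) (ξ x u : ℝ) : ‖P.B ξ x u‖ ≤ P.C / (1 + |u - x|) ^ 4 := by
  rw [P.norm_B]; exact P.win.decay _

theorem Par.zero_mem_U (P : Par) : (0 : ℝ) ∈ P.U := by
  simpa using P.U_sup 0 P.zero_mem 0 (by simpa using P.η_pos.le)

/-- Good sequences. -/
structure Good (P : Par) (l : ℤ → ℝ) : Prop where
  gaps : Gaps P.δ0 P.δ1 l
  ident : ∀ ξ ∈ P.U, ∀ x, ∑' n, P.B ξ x (l n) = P.c ξ
  coer : ∀ (S : Finset ℤ) (y : ℤ → ℝ), P.c0 * ∑ n ∈ S, y n ^ 2 ≤
    ∫ ξ in P.K, ‖∑ n ∈ S, (y n : ℂ) * ee (ξ * l n)‖ ^ 2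

variable {P : Par} {l l' : ℤ → ℝ}

theorem Good.shift (h : Good P l) (k : ℤ) (t : ℝ) : Good P fun n => l (n + k) + t := by
  refine ⟨h.gaps.shift k t, fun ξ hξ x => ?_, fun S y => ?_⟩
  · rw [← h.ident ξ hξ (x - t), ← (Equiv.addRight k).tsum_eq fun n => P.B ξ (x - t) (l n)]
    refine tsum_congr fun n => ?_
    simp only [Par.B, Equiv.coe_addRight]
    rw [show l (n + k) + t - x = l (n + k) - (x - t) by ring]
  · have h1 := h.coer (S.map (Equiv.addRight k).toEmbedding) fun n => y (n - k)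
    simp only [Finset.sum_map, Equiv.coe_toEmbedding, Equiv.coe_addRight,
      add_sub_cancel_right] at h1
    refine h1.trans (le_of_eq (integral_congr_ae (Eventually.of_forall fun ξ => ?_)))
    have : ∑ n ∈ S, (y n : ℂ) * ee (ξ * (l (n + k) + t)) =
        (∑ n ∈ S, (y n : ℂ) * ee (ξ * l (n + k))) * ee (ξ * t) := by
      rw [Finset.sum_mul]
      exact Finset.sum_congr rfl fun n _ => by rw [mul_add, ee_add, mul_assoc]
    simp only [this, norm_mul, norm_ee, mul_one]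

theorem Good.transl (h : Good P l) (t : ℝ) : Good P fun n => l n + t := by
  simpa using h.shift 0 t

theorem win_le_of_gaps (P : Par) (h : Gaps P.δ0 P.δ1 l) {x A : ℝ} (hA : |l 0 - x| ≤ A) (n : ℤ) :
    P.b (l n - x) ≤ P.C * (1 + A) ^ 2 * (1 / (1 + P.δ0 * |(n : ℝ)|) ^ 2) := by
  have h1 := h.dist_lower h hA hA n left_mem_uIcc
  have hA0 : 0 ≤ A := (abs_nonneg _).trans hA
  have hδ := P.δ0_pos
  simp only [Int.cast_zero, sub_zero] at h1
  refine (P.win.decay2 _).trans ?_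
  rw [mul_assoc]
  refine mul_le_mul_of_nonneg_left ?_ P.win.C_pos.le
  rw [mul_one_div, div_le_div_iff₀ (by positivity) (by positivity), one_mul, ← mul_pow]
  refine pow_le_pow_left₀ (by positivity) ?_ 2
  nlinarith [mul_nonneg hA0 (abs_nonneg (l n - x))]

theorem Good.limit {ι : Type*} {F : Filter ι} [F.NeBot] [F.IsCountablyGenerated]
    {L : ι → ℤ → ℝ} (hL : ∀ i, Good P (L i)) (h : ∀ n, Tendsto (fun i => L i n) F (𝓝 (l n))) :
    Good P l := by
  refine ⟨⟨fun n => ?_, fun n => ?_⟩, fun ξ hξ x => ?_, fun S y => ?_⟩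
  · exact le_of_tendsto_of_tendsto' ((h n).add_const _) (h (n + 1)) fun i => (hL i).gaps.lo n
  · exact le_of_tendsto_of_tendsto' (h (n + 1)) ((h n).add_const _) fun i => (hL i).gaps.hi n
  · have h1 : Tendsto (fun i => ∑' n, P.B ξ x (L i n)) F (𝓝 (∑' n, P.B ξ x (l n))) := by
      refine tendsto_tsum_of_dominated_convergence
        ((summable_int_inv_sq P.δ0_pos).mul_left (P.C * (1 + (|l 0 - x| + 1)) ^ 2))
        (fun n => ((P.continuous_B ξ x).tendsto _).comp (h n)) ?_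
      filter_upwards [((h 0).sub_const x).abs.eventually_le_const (lt_add_one _)] with i hi n
      rw [P.norm_B]
      exact win_le_of_gaps P (hL i).gaps hi n
    simp_rw [fun i => (hL i).ident ξ hξ x] at h1
    exact (tendsto_nhds_unique h1 tendsto_const_nhds)
  · have hfin : volume P.K < ⊤ := (measure_mono P.K_sub).trans_lt measure_Icc_lt_top
    have : IsFiniteMeasure (volume.restrict P.K) := ⟨by simpa using hfin⟩
    have h1 : Tendsto (fun i => ∫ ξ in P.K, ‖∑ n ∈ S, (y n : ℂ) * ee (ξ * L i n)‖ ^ 2) F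
        (𝓝 (∫ ξ in P.K, ‖∑ n ∈ S, (y n : ℂ) * ee (ξ * l n)‖ ^ 2)) := by
      refine tendsto_integral_filter_of_norm_le_const
        (Eventually.of_forall fun i => Continuous.aestronglyMeasurable (by fun_prop))
        ⟨(∑ n ∈ S, |y n|) ^ 2, Eventually.of_forall fun i => Eventually.of_forall fun ξ => ?_⟩
        (Eventually.of_forall fun ξ => ?_)
      · rw [Real.norm_of_nonneg (by positivity)]
        refine pow_le_pow_left₀ (norm_nonneg _) ?_ 2
        refine (norm_sum_le _ _).trans (Finset.sum_le_sum fun j _ => ?_)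
        rw [norm_mul, norm_ee, mul_one, Complex.norm_real, Real.norm_eq_abs]
      · refine (Tendsto.norm ?_).pow 2
        exact tendsto_finsetSum _ fun n _ =>
          ((continuous_ee.tendsto _).comp ((h n).const_mul ξ)).const_mul _
    exact ge_of_tendsto' h1 fun i => (hL i).coer S y

theorem Good.summable (h : Good P l) (ξ x : ℝ) : Summable fun n => P.B ξ x (l n) := by
  refine Summable.of_norm ?_
  simp_rw [P.norm_B]
  exact P.win.summable_sep P.δ0_pos l (h.gaps.sep P.δ0_pos) x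

theorem Good.c_zero_ne (h : Good P l) : P.c 0 ≠ 0 := by
  rw [← h.ident 0 P.zero_mem_U 0]
  have : ∀ n, P.B 0 0 (l n) = (P.b (l n - 0) : ℂ) := fun n => by simp [Par.B, ee_zero]
  simp_rw [this]
  rw [← Complex.ofReal_tsum, Complex.ofReal_ne_zero]
  exact ((P.win.summable_sep P.δ0_pos l (h.gaps.sep P.δ0_pos) 0).tsum_pos
    (fun n => (P.win.pos _).le) 0 (P.win.pos _)).ne'

/-- The functional of a translated pair. -/
theorem Good.TT_transl (h : Good P l) {ξ : ℝ} (hξ : ξ ∈ P.U) (x t : ℝ) :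
    TT (P.B ξ x) l (fun n => l n + t) = t * P.c ξ := by
  have hs := P.win.summable_sep P.δ0_pos l (h.gaps.sep P.δ0_pos) x
  have h1 : HasSum (fun n => ∫ v in (0 : ℝ)..t, P.B ξ x (l n + v)) (∫ _ in (0 : ℝ)..t, P.c ξ) := by
    refine intervalIntegral.hasSum_integral_of_dominated_convergence
      (fun n _ => Real.exp |t| * P.b (l n - x))
      (fun n => ((P.continuous_B ξ x).comp (by fun_prop)).aestronglyMeasurable)
      (fun n => Eventually.of_forall fun v hv => ?_)
      (Eventually.of_forall fun _ _ => hs.mul_left _) intervalIntegrable_const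
      (Eventually.of_forall fun v _ => ?_)
    · rw [P.norm_B, show l n + v - x = l n - x + v by ring]
      refine (P.win.lip _ _).trans (mul_le_mul_of_nonneg_right ?_ (P.win.pos _).le)
      refine Real.exp_le_exp.mpr ?_
      have := abs_sub_left_of_mem_uIcc (uIoc_subset_uIcc hv)
      simpa using this
    · rw [← (h.transl v).ident ξ hξ x]
      exact ((h.transl v).summable ξ x).hasSum
  unfold TT
  have h2 : ∀ n, ∫ u in l n..(l n + t), P.B ξ x u = ∫ v in (0 : ℝ)..t, P.B ξ x (l n + v) := by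
    intro n
    rw [intervalIntegral.integral_comp_add_left (fun u => P.B ξ x u), add_zero]
  simp_rw [h2]
  rw [h1.tsum_eq]
  simp

theorem TT_B_add (h : Good P l) (h' : Good P l') {l'' : ℤ → ℝ} (h'' : Good P l'') (ξ x : ℝ) :
    TT (P.B ξ x) l l' + TT (P.B ξ x) l' l'' = TT (P.B ξ x) l l'' :=
  TT_add (P.continuous_B ξ x) h.gaps h'.gaps h''.gaps P.δ0_pos (P.norm_B_le ξ x)

theorem TT_B_shift (ξ x : ℝ) (k : ℤ) (t : ℝ) :
    TT (P.B ξ x) (fun n => l (n + k) + t) (fun n => l' (n + k) + t) =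
      TT (P.B ξ (x - t)) l l' := by
  rw [TT_shift]
  congr 1
  funext u
  simp only [Par.B]
  rw [show u + t - x = u - (x - t) by ring]

/-- The functional of a good pair does not depend on the centre of the window. -/
theorem TT_B_const (h : Good P l) (h' : Good P l') {ξ : ℝ} (hξ : ξ ∈ P.U) (x : ℝ) :
    TT (P.B ξ x) l l' = TT (P.B ξ 0) l l' := by
  have e1 := TT_B_shift (P := P) (l := l) (l' := l') ξ x 0 x
  simp only [add_zero, sub_self] at e1
  rw [← e1]
  have a1 := TT_B_add h (h.transl x) (h'.transl x) ξ x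
  have a2 := TT_B_add h h' (h'.transl x) ξ x
  rw [h.TT_transl hξ] at a1
  rw [h'.TT_transl hξ] at a2
  linear_combination a2 - a1

/-- Balanced pairs. -/
def Bal (P : Par) (l l' : ℤ → ℝ) : Prop := TT (P.B 0 0) l l' = 0

theorem Bal.shift (h : Good P l) (h' : Good P l') (hb : Bal P l l') (k : ℤ) (t : ℝ) :
    Bal P (fun n => l (n + k) + t) (fun n => l' (n + k) + t) := by
  unfold Bal
  rw [TT_B_shift, TT_B_const h h' P.zero_mem_U]
  exact hb

theorem exists_bal (h : Good P l) (h' : Good P l') : ∃ t : ℝ, Bal P (fun n => l n + t) l' := by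
  have hre : ∀ φ : ℝ → ℝ, ∀ l l' : ℤ → ℝ, TT (fun u => (φ u : ℂ)) l l' =
      ((∑' n, ∫ u in l n..l' n, φ u : ℝ) : ℂ) := by
    intro φ l l'
    rw [TT, Complex.ofReal_tsum]
    exact tsum_congr fun n => intervalIntegral.integral_ofReal
  have hB : P.B 0 0 = fun u => (P.b u : ℂ) := by funext u; simp [Par.B, ee_zero]
  obtain ⟨a, ha⟩ : ∃ a : ℝ, TT (P.B 0 0) l l' = a := ⟨_, by rw [hB, hre]⟩
  obtain ⟨c, hc⟩ : ∃ c : ℝ, P.c 0 = c := by
    have := h.TT_transl P.zero_mem_U 0 1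
    rw [hB, hre] at this
    exact ⟨_, by rw [this]; simp⟩
  have hc0 : (c : ℂ) ≠ 0 := hc ▸ h.c_zero_ne
  refine ⟨a / c, ?_⟩
  have a1 := TT_B_add h (h.transl (a / c)) h' 0 0
  rw [h.TT_transl P.zero_mem_U, ha, hc] at a1
  unfold Bal
  have : ((a / c : ℝ) : ℂ) * c = a := by push_cast; field_simp
  rw [this] at a1
  linear_combination a1

theorem win_conv_le {b : ℝ → ℝ} {C : ℝ} (hb : IsWin b C) (u x : ℝ) :
    b (u - x) * b x ≤ 16 * C / (1 + |u|) ^ 4 * (b (u - x) + b x) := by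
  have hC := hb.C_pos
  have h1 := hb.pos (u - x)
  have h2 := hb.pos x
  have key : ∀ y, |u| ≤ 2 * |y| → b y ≤ 16 * C / (1 + |u|) ^ 4 := by
    intro y hy
    refine (hb.decay y).trans ?_
    rw [div_le_div_iff₀ (by positivity) (by positivity)]
    have : (1 + |u|) ^ 4 ≤ (2 * (1 + |y|)) ^ 4 :=
      pow_le_pow_left₀ (by positivity) (by linarith) 4
    nlinarith
  have h3 : 0 ≤ 16 * C / (1 + |u|) ^ 4 := by positivity
  have h4 : |u| ≤ |u - x| + |x| := by simpa using abs_add_le (u - x) x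
  rcases le_total |x| |u - x| with h | h
  · have := key (u - x) (by linarith)
    nlinarith [mul_le_mul_of_nonneg_right this h2.le, mul_nonneg h3 h1.le]
  · have := key x (by linarith)
    nlinarith [mul_le_mul_of_nonneg_right this h1.le, mul_nonneg h3 h2.le]

theorem integrable_conv {b : ℝ → ℝ} {C : ℝ} (hb : IsWin b C) (μ : Measure ℝ) [SFinite μ]
    (hμ : Integrable (fun u : ℝ => 16 * C / (1 + |u|) ^ 4) μ) {φ ψ : ℝ → ℂ}
    (hφ : Continuous φ) (hψ : Continuous ψ) (h1 : ∀ u, ‖φ u‖ ≤ b u) (h2 : ∀ u, ‖ψ u‖ ≤ b u) :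
    Integrable (fun p : ℝ × ℝ => φ (p.2 - p.1) * ψ p.1) (volume.prod μ) := by
  have i1 : Integrable (fun p : ℝ × ℝ => 16 * C / (1 + |p.2|) ^ 4 * b (-(p.1 - p.2)))
      (volume.prod μ) :=
    hμ.convolution_integrand (ContinuousLinearMap.mul ℝ ℝ) hb.integrable.comp_neg
  have i2 : Integrable (fun p : ℝ × ℝ => b p.1 * (16 * C / (1 + |p.2|) ^ 4)) (volume.prod μ) :=
    hb.integrable.mul_prod hμ
  refine Integrable.mono' (i1.add i2) (Continuous.aestronglyMeasurable (by fun_prop))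
    (Eventually.of_forall fun p => ?_)
  rw [norm_mul, Pi.add_apply, neg_sub]
  refine (mul_le_mul (h1 _) (h2 _) (norm_nonneg _) (hb.pos _).le).trans ?_
  refine (win_conv_le hb p.2 p.1).trans (le_of_eq (by ring))

/-- For a balanced pair the functional vanishes at all admissible frequencies. -/
theorem Bal.TT_eq_zero (h : Good P l) (h' : Good P l') (hb : Bal P l l') {ξ : ℝ} (hξ : ξ ∈ P.U)
    (x : ℝ) : TT (P.B ξ x) l l' = 0 := by
  have hδ := P.δ0_pos
  have hp : Continuous fun u : ℝ => 16 * P.C / (1 + |u|) ^ 4 :=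
    continuous_const.div (by fun_prop) fun u => by positivity
  have hp' : ∀ u : ℝ, ‖16 * P.C / (1 + |u|) ^ 4‖ ≤ 16 * P.C / (1 + |u - 0|) ^ 4 := fun u => by
    have := P.win.C_pos
    rw [Real.norm_of_nonneg (by positivity), sub_zero]
  have i1 := nu_integrable_decay' hp h.gaps h'.gaps hδ hp'
  have i2 := nu_integrable_decay' hp h'.gaps h.gaps hδ hp'
  have hn : ∀ ζ u, ‖P.B ζ 0 u‖ ≤ P.b u := fun ζ u => by rw [P.norm_B, sub_zero]
  have hBx : ∀ ζ x u, P.B ζ 0 (u - x) = P.B ζ x u := fun ζ x u => by simp [Par.B]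
  -- the pairing identity
  have key : ∀ ζ ∈ P.U, ∀ ζ', TT (P.B ζ 0) l l' * ∫ x, P.B ζ' 0 x =
      ∫ u, (∫ x, P.B ζ 0 (u - x) * P.B ζ' 0 x) ∂(nu l l') -
        ∫ u, (∫ x, P.B ζ 0 (u - x) * P.B ζ' 0 x) ∂(nu l' l) := by
    intro ζ hζ ζ'
    have j1 := integrable_conv P.win _ i1 (P.continuous_B ζ 0) (P.continuous_B ζ' 0) (hn ζ) (hn ζ')
    have j2 := integrable_conv P.win _ i2 (P.continuous_B ζ 0) (P.continuous_B ζ' 0) (hn ζ) (hn ζ')
    rw [← integral_integral_swap (f := fun x u => P.B ζ 0 (u - x) * P.B ζ' 0 x) j1,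
      ← integral_integral_swap (f := fun x u => P.B ζ 0 (u - x) * P.B ζ' 0 x) j2,
      ← integral_sub j1.integral_prod_left j2.integral_prod_left, ← integral_const_mul]
    refine integral_congr_ae (Eventually.of_forall fun x => ?_)
    simp only [integral_mul_const, hBx]
    rw [← sub_mul, ← TT_eq (nu_integrable_decay' (P.continuous_B ζ x) h.gaps h'.gaps hδ
      (P.norm_B_le ζ x)) (nu_integrable_decay' (P.continuous_B ζ x) h'.gaps h.gaps hδ
      (P.norm_B_le ζ x)), TT_B_const h h' hζ x]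
  have k1 := key ξ hξ 0
  have k2 := key 0 P.zero_mem_U ξ
  have hsym : ∀ u, ∫ x, P.B ξ 0 (u - x) * P.B 0 0 x = ∫ x, P.B 0 0 (u - x) * P.B ξ 0 x := by
    intro u
    rw [← integral_sub_left_eq_self (fun x => P.B ξ 0 (u - x) * P.B 0 0 x) volume u]
    refine integral_congr_ae (Eventually.of_forall fun x => ?_)
    simp only [sub_sub_cancel]; ring
  simp_rw [hsym] at k1
  rw [← k2, hb, zero_mul] at k1
  have hI : ∫ x, P.B 0 0 x ≠ 0 := by
    have hB : P.B 0 0 = fun u => (P.b u : ℂ) := by funext u; simp [Par.B, ee_zero]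
    rw [hB, integral_complex_ofReal, Complex.ofReal_ne_zero]
    exact P.win.integral_pos.ne'
  rw [TT_B_const h h' hξ]
  exact (mul_eq_zero.mp k1).resolve_right hI

end Pool.Agent.P.MP_731e7b_an
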