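import Pool.Agent.P.MP_731e7b_an.Basic

/-!
Gaussian window bound, and uniqueness of finite measures with a one-sided exponential moment
from their characteristic functions near the origin.
-/

open MeasureTheory Set Filter Topology

namespace Pool.Agent.P.MP_731e7b_an

namespace Laplace

theorem integrable_ee (m : Measure ℝ) [IsFiniteMeasure m] (s : ℝ) :
    Integrable (fun u => ee (s * u)) m :=
  Integrable.mono' (integrable_const (1 : ℝ)) (Continuous.aestronglyMeasurable (by fun_prop))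
    (Eventually.of_forall fun u => (norm_ee _).le)

theorem norm_ch_le (m : Measure ℝ) [IsFiniteMeasure m] (s : ℝ) :
    ‖∫ u, ee (s * u) ∂m‖ ≤ m.real univ := by
  have := norm_integral_le_of_norm_le_const (μ := m) (f := fun u => ee (s * u)) (C := 1)
    (Eventually.of_forall fun u => (norm_ee _).le)
  simpa using this

theorem continuous_ch (m : Measure ℝ) [IsFiniteMeasure m] :
    Continuous fun s : ℝ => ∫ u, ee (s * u) ∂m :=
  continuous_of_dominated (bound := fun _ => (1 : ℝ))
    (fun _ => Continuous.aestronglyMeasurable (by fun_prop))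
    (fun _ => Eventually.of_forall fun u => (norm_ee _).le) (integrable_const _)
    (Eventually.of_forall fun u => by fun_prop)

theorem window_eq (m : Measure ℝ) [IsFiniteMeasure m] (ξ r x : ℝ) (hr : 0 < r) :
    ∫ u, (Real.exp (-(Real.pi * (u - x) ^ 2 / r)) : ℂ) * ee (ξ * u) ∂m =
      ∫ τ : ℝ, (√r : ℂ) * (Real.exp (-(Real.pi * r * τ ^ 2)) : ℂ) * ee (-(τ * x)) *
        ∫ u, ee ((ξ + τ) * u) ∂m := by
  have hsr : (0 : ℝ) < √r := Real.sqrt_pos.mpr hr
  have e1 : ∀ u : ℝ, (Real.exp (-(Real.pi * (u - x) ^ 2 / r)) : ℂ) * ee (ξ * u) =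
      ∫ τ : ℝ, (√r : ℂ) * (Real.exp (-(Real.pi * r * τ ^ 2)) : ℂ) * ee (-(τ * x)) *
        ee ((ξ + τ) * u) := by
    intro u
    have h1 := integral_gauss_ee hr (u - x)
    have h2 : ∀ τ : ℝ, (√r : ℂ) * (Real.exp (-(Real.pi * r * τ ^ 2)) : ℂ) * ee (-(τ * x)) *
        ee ((ξ + τ) * u) = ((√r : ℂ) * ee (ξ * u)) *
          ((Real.exp (-(Real.pi * r * τ ^ 2)) : ℂ) * ee (τ * (u - x))) := by
      intro τ
      rw [show (ξ + τ) * u = ξ * u + τ * u by ring, ee_add,
        show τ * (u - x) = τ * u + -(τ * x) by ring, ee_add]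
      ring
    simp_rw [h2]
    rw [integral_const_mul, h1]
    have : (√r : ℂ) ≠ 0 := by exact_mod_cast hsr.ne'
    push_cast
    field_simp
  simp_rw [e1]
  rw [integral_integral_swap]
  · refine integral_congr_ae (Eventually.of_forall fun τ => ?_)
    simp only
    rw [integral_const_mul]
  · have hb : Integrable (fun p : ℝ × ℝ => (1 : ℝ) * (√r * Real.exp (-(Real.pi * r * p.2 ^ 2))))
        (m.prod volume) :=
      Integrable.mul_prod (integrable_const (1 : ℝ)) ((integrable_gauss hr).const_mul √r)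
    refine Integrable.mono' hb (Continuous.aestronglyMeasurable ?_)
      (Eventually.of_forall fun p => ?_)
    · unfold Function.uncurry
      fun_prop
    · simp only [Function.uncurry]
      rw [norm_mul, norm_mul, norm_mul, norm_ee, norm_ee, Complex.norm_real, Complex.norm_real,
        Real.norm_of_nonneg hsr.le, Real.norm_of_nonneg (Real.exp_pos _).le]
      simp

theorem integrable_window (m : Measure ℝ) [IsFiniteMeasure m] (ξ r x : ℝ) (hr : 0 < r) :
    Integrable fun τ : ℝ => (√r : ℂ) * (Real.exp (-(Real.pi * r * τ ^ 2)) : ℂ) * ee (-(τ * x)) *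
        ∫ u, ee ((ξ + τ) * u) ∂m := by
  have hc : Continuous fun τ : ℝ => ∫ u, ee ((ξ + τ) * u) ∂m :=
    (continuous_ch m).comp (continuous_const.add continuous_id)
  refine Integrable.mono' (((integrable_gauss hr).const_mul √r).mul_const (m.real univ))
    (Continuous.aestronglyMeasurable (Continuous.mul (by fun_prop) hc))
    (Eventually.of_forall fun τ => ?_)
  rw [norm_mul, norm_mul, norm_mul, norm_ee, Complex.norm_real, Complex.norm_real,
    Real.norm_of_nonneg (Real.sqrt_nonneg _), Real.norm_of_nonneg (Real.exp_pos _).le, mul_one]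
  exact mul_le_mul_of_nonneg_left (norm_ch_le m _) (by positivity)

end Laplace

theorem gauss_window (m1 m2 : Measure ℝ) [IsFiniteMeasure m1] [IsFiniteMeasure m2]
    (ξ η r x : ℝ) (hη : 0 < η) (hr : 0 < r)
    (h : ∀ τ, |τ| ≤ η → ∫ u, ee ((ξ + τ) * u) ∂m1 = ∫ u, ee ((ξ + τ) * u) ∂m2) :
    ‖∫ u, (Real.exp (-(Real.pi * (u - x) ^ 2 / r)) : ℂ) * ee (ξ * u) ∂m1 -
        ∫ u, (Real.exp (-(Real.pi * (u - x) ^ 2 / r)) : ℂ) * ee (ξ * u) ∂m2‖ ≤
      2 * Real.exp (-(Real.pi * r * η ^ 2 / 2)) * (m1.real univ + m2.real univ) := by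
  have hM : 0 ≤ m1.real univ + m2.real univ := by positivity
  have hπ := Real.pi_pos
  rw [Laplace.window_eq m1 ξ r x hr, Laplace.window_eq m2 ξ r x hr,
    ← integral_sub (Laplace.integrable_window m1 ξ r x hr) (Laplace.integrable_window m2 ξ r x hr)]
  have hr2 : 0 < r / 2 := by positivity
  have hint := ((integrable_gauss hr2).const_mul
    (√r * Real.exp (-(Real.pi * r * η ^ 2 / 2)) * (m1.real univ + m2.real univ)))
  refine (norm_integral_le_of_norm_le hint (Eventually.of_forall fun τ => ?_)).trans ?_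
  · rw [← mul_sub, norm_mul, norm_mul, norm_mul, norm_ee, Complex.norm_real, Complex.norm_real,
      Real.norm_of_nonneg (Real.sqrt_nonneg _), Real.norm_of_nonneg (Real.exp_pos _).le, mul_one]
    by_cases hτ : |τ| ≤ η
    · rw [h τ hτ, sub_self, norm_zero, mul_zero]; positivity
    · push Not at hτ
      have h1 : η ^ 2 ≤ τ ^ 2 := by
        rw [← sq_abs τ]; exact pow_le_pow_left₀ hη.le hτ.le 2
      have h2 : Real.exp (-(Real.pi * r * τ ^ 2)) ≤
          Real.exp (-(Real.pi * r * η ^ 2 / 2)) * Real.exp (-(Real.pi * (r / 2) * τ ^ 2)) := by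
        rw [← Real.exp_add]
        refine Real.exp_le_exp.mpr ?_
        nlinarith [mul_le_mul_of_nonneg_left h1 (by positivity : 0 ≤ Real.pi * r)]
      have h3 : ‖∫ u, ee ((ξ + τ) * u) ∂m1 - ∫ u, ee ((ξ + τ) * u) ∂m2‖ ≤
          m1.real univ + m2.real univ :=
        (norm_sub_le _ _).trans (add_le_add (Laplace.norm_ch_le m1 _) (Laplace.norm_ch_le m2 _))
      calc √r * Real.exp (-(Real.pi * r * τ ^ 2)) *
            ‖∫ u, ee ((ξ + τ) * u) ∂m1 - ∫ u, ee ((ξ + τ) * u) ∂m2‖
          ≤ √r * (Real.exp (-(Real.pi * r * η ^ 2 / 2)) *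
              Real.exp (-(Real.pi * (r / 2) * τ ^ 2))) * (m1.real univ + m2.real univ) := by
            gcongr
        _ = _ := by ring
  · rw [integral_const_mul]
    have h1 : ∫ τ : ℝ, Real.exp (-(Real.pi * (r / 2) * τ ^ 2)) = √(2 / r) := by
      have := integral_gaussian (Real.pi * (r / 2))
      simp only [neg_mul] at this
      rw [this]
      congr 1
      field_simp
    have h2 : √r * √(2 / r) ≤ 2 := by
      rw [← Real.sqrt_mul hr.le, show r * (2 / r) = 2 by field_simp]
      exact Real.sqrt_le_iff.mpr ⟨by norm_num, by norm_num⟩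
    rw [h1]
    calc √r * Real.exp (-(Real.pi * r * η ^ 2 / 2)) * (m1.real univ + m2.real univ) * √(2 / r)
        = (√r * √(2 / r)) * (Real.exp (-(Real.pi * r * η ^ 2 / 2)) *
            (m1.real univ + m2.real univ)) := by ring
      _ ≤ 2 * (Real.exp (-(Real.pi * r * η ^ 2 / 2)) * (m1.real univ + m2.real univ)) :=
          mul_le_mul_of_nonneg_right h2 (by positivity)
      _ = _ := by ring

namespace Laplace

theorem exp_le_one_add {σ s : ℝ} (hs : 0 ≤ s) (hsσ : s ≤ σ) (u : ℝ) :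
    Real.exp (-(s * u)) ≤ 1 + Real.exp (-(σ * u)) := by
  rcases le_total 0 u with hu | hu
  · have : Real.exp (-(s * u)) ≤ 1 := Real.exp_le_one_iff.mpr (by nlinarith)
    linarith [Real.exp_pos (-(σ * u))]
  · have : Real.exp (-(s * u)) ≤ Real.exp (-(σ * u)) := Real.exp_le_exp.mpr (by nlinarith)
    linarith

theorem tendsto_window (m : Measure ℝ) [IsFiniteMeasure m] {σ s : ℝ} (hs : 0 ≤ s) (hsσ : s ≤ σ)
    (h1 : Integrable (fun u => Real.exp (-(σ * u))) m) (ξ : ℝ) :
    Tendsto (fun n : ℕ => ∫ u, (Real.exp (-(Real.pi * u ^ 2 / ((n : ℝ) + 1))) : ℂ) *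
        ((Real.exp (-(s * u)) : ℂ) * ee (ξ * u)) ∂m) atTop
      (𝓝 (∫ u, (Real.exp (-(s * u)) : ℂ) * ee (ξ * u) ∂m)) := by
  refine tendsto_integral_of_dominated_convergence (fun u => 1 + Real.exp (-(σ * u)))
    (fun n => Continuous.aestronglyMeasurable (by fun_prop)) ((integrable_const _).add h1)
    (fun n => Eventually.of_forall fun u => ?_) (Eventually.of_forall fun u => ?_)
  · rw [norm_mul, norm_mul, norm_ee, Complex.norm_real, Complex.norm_real,
      Real.norm_of_nonneg (Real.exp_pos _).le, Real.norm_of_nonneg (Real.exp_pos _).le, mul_one]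
    have h2 : Real.exp (-(Real.pi * u ^ 2 / ((n : ℝ) + 1))) ≤ 1 :=
      Real.exp_le_one_iff.mpr (neg_nonpos.mpr (by have := Real.pi_pos; positivity))
    exact (mul_le_of_le_one_left (Real.exp_pos _).le h2).trans (exp_le_one_add hs hsσ u)
  · have h2 : Tendsto (fun n : ℕ => Real.pi * u ^ 2 / ((n : ℝ) + 1)) atTop (𝓝 0) :=
      tendsto_const_nhds.div_atTop (tendsto_atTop_add_const_right _ 1 tendsto_natCast_atTop_atTop)
    have h3 : Tendsto (fun n : ℕ => Real.exp (-(Real.pi * u ^ 2 / ((n : ℝ) + 1)))) atTop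
        (𝓝 1) := by
      have := (Real.continuous_exp.tendsto _).comp h2.neg
      simpa [Function.comp_def] using this
    have h4 := ((Complex.continuous_ofReal.tendsto _).comp h3).mul_const
      ((Real.exp (-(s * u)) : ℂ) * ee (ξ * u))
    simpa [Function.comp_def] using h4

theorem laplace_near (m1 m2 : Measure ℝ) [IsFiniteMeasure m1] [IsFiniteMeasure m2]
    (σ η : ℝ) (hη : 0 < η)
    (h1 : Integrable (fun u => Real.exp (-(σ * u))) m1)
    (h2 : Integrable (fun u => Real.exp (-(σ * u))) m2)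
    (h : ∀ ξ, |ξ| ≤ η → ∫ u, ee (ξ * u) ∂m1 = ∫ u, ee (ξ * u) ∂m2)
    {s ξ : ℝ} (hs : 0 ≤ s) (hsσ : s ≤ σ) (hsη : s ≤ η) (hξ : |ξ| ≤ η / 2) :
    ∫ u, (Real.exp (-(s * u)) : ℂ) * ee (ξ * u) ∂m1 =
      ∫ u, (Real.exp (-(s * u)) : ℂ) * ee (ξ * u) ∂m2 := by
  have hπ := Real.pi_pos
  have hπ3 := Real.pi_gt_three
  set M := m1.real univ + m2.real univ with hM
  set c : ℝ := Real.pi * (η / 2) ^ 2 / 2 - s ^ 2 / (4 * Real.pi) with hc
  have hc0 : 0 < c := by
    rw [hc, sub_pos, div_lt_iff₀ (by positivity)]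
    have a1 : s ^ 2 ≤ η ^ 2 := pow_le_pow_left₀ hs hsη 2
    have a2 : 0 < η ^ 2 := by positivity
    have a3 : 9 < Real.pi ^ 2 := by nlinarith
    nlinarith [mul_lt_mul_of_pos_right a3 a2]
  have hT := (tendsto_window m1 hs hsσ h1 ξ).sub (tendsto_window m2 hs hsσ h2 ξ)
  have hB : Tendsto (fun n : ℕ => 2 * Real.exp (-(c * ((n : ℝ) + 1))) * M) atTop (𝓝 0) := by
    have a1 : Tendsto (fun n : ℕ => c * ((n : ℝ) + 1)) atTop atTop :=
      (tendsto_atTop_add_const_right _ 1 tendsto_natCast_atTop_atTop).const_mul_atTop hc0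
    have a2 := Real.tendsto_exp_neg_atTop_nhds_zero.comp a1
    have a3 := (a2.const_mul 2).mul_const M
    simpa [Function.comp_def] using a3
  refine sub_eq_zero.mp (tendsto_nhds_unique hT (squeeze_zero_norm (fun n : ℕ => ?_) hB))
  · set r : ℝ := (n : ℝ) + 1 with hr
    have hr0 : 0 < r := by positivity
    have hw := gauss_window m1 m2 ξ (η / 2) r (-(s * r / (2 * Real.pi))) (by positivity) hr0
      (fun τ hτ => h _ ((abs_add_le _ _).trans (by linarith)))
    have e1 : ∀ u : ℝ, (Real.exp (-(Real.pi * (u - -(s * r / (2 * Real.pi))) ^ 2 / r)) : ℂ) *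
        ee (ξ * u) = (Real.exp (-(s ^ 2 / (4 * Real.pi) * r)) : ℂ) *
          ((Real.exp (-(Real.pi * u ^ 2 / r)) : ℂ) * ((Real.exp (-(s * u)) : ℂ) * ee (ξ * u))) := by
      intro u
      have : Real.exp (-(Real.pi * (u - -(s * r / (2 * Real.pi))) ^ 2 / r)) =
          Real.exp (-(s ^ 2 / (4 * Real.pi) * r)) *
            (Real.exp (-(Real.pi * u ^ 2 / r)) * Real.exp (-(s * u))) := by
        rw [← Real.exp_add, ← Real.exp_add]
        congr 1
        field_simp
        ring
      rw [this]; push_cast; ring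
    simp_rw [e1] at hw
    rw [integral_const_mul, integral_const_mul, ← mul_sub, norm_mul, Complex.norm_real,
      Real.norm_of_nonneg (Real.exp_pos _).le] at hw
    have e2 : Real.exp (-(Real.pi * r * (η / 2) ^ 2 / 2)) =
        Real.exp (-(s ^ 2 / (4 * Real.pi) * r)) * Real.exp (-(c * r)) := by
      rw [← Real.exp_add]; congr 1; rw [hc]; ring
    rw [e2] at hw
    refine le_of_mul_le_mul_left (hw.trans (le_of_eq ?_)) (Real.exp_pos _)
    ring

theorem mgf_eq (m : Measure ℝ) (s ξ : ℝ) :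
    ProbabilityTheory.complexMGF id m (-s + 2 * Real.pi * ξ * Complex.I) =
      ∫ u, (Real.exp (-(s * u)) : ℂ) * ee (ξ * u) ∂m := by
  unfold ProbabilityTheory.complexMGF
  refine integral_congr_ae (Eventually.of_forall fun u => ?_)
  simp only [id, ee]
  rw [Complex.ofReal_exp, ← Complex.exp_add]
  congr 1
  push_cast
  ring

theorem eq_form (z : ℂ) :
    z = -((-z.re : ℝ) : ℂ) + 2 * Real.pi * ((z.im / (2 * Real.pi) : ℝ) : ℂ) * Complex.I := by
  have hπ : (Real.pi : ℂ) ≠ 0 := by exact_mod_cast Real.pi_ne_zero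
  push_cast
  field_simp
  exact (Complex.re_add_im z).symm

theorem analytic_strip (m : Measure ℝ) [IsFiniteMeasure m] {σ : ℝ}
    (h1 : Integrable (fun u => Real.exp (-(σ * u))) m) :
    AnalyticOnNhd ℂ (ProbabilityTheory.complexMGF id m) {z : ℂ | z.re ∈ Ioo (-σ) 0} := by
  refine ProbabilityTheory.analyticOnNhd_complexMGF.mono fun z hz => ?_
  refine interior_maximal (t := Ioo (-σ) 0) (fun t ht => ?_) isOpen_Ioo hz
  change Integrable (fun u => Real.exp (t * id u)) m
  refine Integrable.mono' ((integrable_const (1 : ℝ)).add h1)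
    (Continuous.aestronglyMeasurable (by fun_prop)) (Eventually.of_forall fun u => ?_)
  rw [Real.norm_of_nonneg (Real.exp_pos _).le]
  have := exp_le_one_add (σ := σ) (s := -t) (by linarith [ht.2]) (by linarith [ht.1]) u
  simpa using this

theorem tendsto_zero_right (m : Measure ℝ) [IsFiniteMeasure m] {σ : ℝ} (hσ : 0 < σ)
    (h1 : Integrable (fun u => Real.exp (-(σ * u))) m) (ξ : ℝ) :
    Tendsto (fun n : ℕ => ∫ u, (Real.exp (-(σ / ((n : ℝ) + 2) * u)) : ℂ) * ee (ξ * u) ∂m) atTop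
      (𝓝 (∫ u, ee (ξ * u) ∂m)) := by
  refine tendsto_integral_of_dominated_convergence (fun u => 1 + Real.exp (-(σ * u)))
    (fun n => Continuous.aestronglyMeasurable (by fun_prop)) ((integrable_const _).add h1)
    (fun n => Eventually.of_forall fun u => ?_) (Eventually.of_forall fun u => ?_)
  · rw [norm_mul, norm_ee, Complex.norm_real, Real.norm_of_nonneg (Real.exp_pos _).le, mul_one]
    refine exp_le_one_add (by positivity) (div_le_self hσ.le ?_) u
    have : (0 : ℝ) ≤ n := Nat.cast_nonneg n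
    linarith
  · have h2 : Tendsto (fun n : ℕ => σ / ((n : ℝ) + 2)) atTop (𝓝 0) :=
      tendsto_const_nhds.div_atTop (tendsto_atTop_add_const_right _ 2 tendsto_natCast_atTop_atTop)
    have h3 : Tendsto (fun n : ℕ => Real.exp (-(σ / ((n : ℝ) + 2) * u))) atTop (𝓝 1) := by
      have := (Real.continuous_exp.tendsto _).comp (h2.mul_const u).neg
      simpa [Function.comp_def] using this
    have h4 := ((Complex.continuous_ofReal.tendsto _).comp h3).mul_const (ee (ξ * u))
    simpa [Function.comp_def] using h4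

end Laplace

theorem laplace_ext (m1 m2 : Measure ℝ) [IsFiniteMeasure m1] [IsFiniteMeasure m2]
    (σ η : ℝ) (hσ : 0 < σ) (hη : 0 < η)
    (h1 : Integrable (fun u => Real.exp (-(σ * u))) m1)
    (h2 : Integrable (fun u => Real.exp (-(σ * u))) m2)
    (h : ∀ ξ, |ξ| ≤ η → ∫ u, ee (ξ * u) ∂m1 = ∫ u, ee (ξ * u) ∂m2) : m1 = m2 := by
  have hπ := Real.pi_pos
  set μ : ℝ := min σ η with hμ
  have hμ0 : 0 < μ := lt_min hσ hη
  have hμσ : μ ≤ σ := min_le_left _ _
  have hμη : μ ≤ η := min_le_right _ _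
  have hconv : Convex ℝ {z : ℂ | z.re ∈ Ioo (-σ) 0} :=
    (convex_Ioo (-σ) 0).linear_preimage Complex.reLm
  have hz0 : ((-(μ / 2) : ℝ) : ℂ) ∈ {z : ℂ | z.re ∈ Ioo (-σ) 0} := by
    simp only [mem_ofPred_eq, Complex.ofReal_re, mem_Ioo]
    constructor <;> linarith
  have hopen : IsOpen {z : ℂ | z.re ∈ Ioo (-μ) 0 ∧ z.im ∈ Ioo (-(Real.pi * η)) (Real.pi * η)} :=
    (isOpen_Ioo.preimage Complex.continuous_re).inter (isOpen_Ioo.preimage Complex.continuous_im)
  have hev : ProbabilityTheory.complexMGF id m1 =ᶠ[𝓝 ((-(μ / 2) : ℝ) : ℂ)]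
      ProbabilityTheory.complexMGF id m2 := by
    have hmem : ((-(μ / 2) : ℝ) : ℂ) ∈
        {z : ℂ | z.re ∈ Ioo (-μ) 0 ∧ z.im ∈ Ioo (-(Real.pi * η)) (Real.pi * η)} := by
      simp only [mem_ofPred_eq, Complex.ofReal_re, Complex.ofReal_im, mem_Ioo]
      have : 0 < Real.pi * η := by positivity
      refine ⟨⟨?_, ?_⟩, ?_, ?_⟩ <;> linarith
    filter_upwards [hopen.mem_nhds hmem] with z hz
    obtain ⟨⟨a1, a2⟩, a3, a4⟩ := hz
    rw [Laplace.eq_form z, Laplace.mgf_eq, Laplace.mgf_eq]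
    refine Laplace.laplace_near m1 m2 σ η hη h1 h2 h (by linarith) (by linarith) (by linarith) ?_
    rw [abs_div, abs_of_pos (by positivity : 0 < 2 * Real.pi), div_le_iff₀ (by positivity)]
    exact abs_le.mpr ⟨by linarith, by linarith⟩
  have hEq := (Laplace.analytic_strip m1 h1).eqOn_of_preconnected_of_eventuallyEq
    (Laplace.analytic_strip m2 h2) hconv.isPreconnected hz0 hev
  have hall : ∀ ξ : ℝ, ∫ u, ee (ξ * u) ∂m1 = ∫ u, ee (ξ * u) ∂m2 := by
    intro ξ
    refine tendsto_nhds_unique (Laplace.tendsto_zero_right m1 hσ h1 ξ)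
      ((Laplace.tendsto_zero_right m2 hσ h2 ξ).congr fun n => ?_)
    rw [← Laplace.mgf_eq, ← Laplace.mgf_eq]
    refine (hEq ?_).symm
    have a0 : (0 : ℝ) ≤ n := Nat.cast_nonneg n
    have a1 : 0 < σ / ((n : ℝ) + 2) := by positivity
    have a2 : σ / ((n : ℝ) + 2) < σ := div_lt_self hσ (by linarith)
    have a3 : (-((σ / ((n : ℝ) + 2) : ℝ) : ℂ) + 2 * Real.pi * ξ * Complex.I).re =
        -(σ / ((n : ℝ) + 2)) := by
      simp only [Complex.add_re, Complex.neg_re, Complex.ofReal_re, Complex.mul_re,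
        Complex.I_re, Complex.I_im, Complex.mul_im, Complex.ofReal_im, Complex.re_ofNat,
        Complex.im_ofNat]
      ring
    simp only [mem_ofPred_eq, a3, mem_Ioo]
    constructor <;> linarith
  refine Measure.ext_of_charFun (funext fun t => ?_)
  have e : ∀ m : Measure ℝ, charFun m t = ∫ u, ee (t / (2 * Real.pi) * u) ∂m := by
    intro m
    rw [charFun_apply_real]
    refine integral_congr_ae (Eventually.of_forall fun u => ?_)
    have hπ' : (Real.pi : ℂ) ≠ 0 := by exact_mod_cast Real.pi_ne_zero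
    simp only [ee]
    congr 1
    push_cast
    field_simp
  rw [e, e, hall]

end Pool.Agent.P.MP_731e7b_an
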