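import Pool.Agent.P.MP_731e7b_an.Basic

/-!
Perturbation of a lower Riesz bound: replacing point masses by short interval integrals.
-/

open MeasureTheory Set Filter Topology

namespace Pool.Agent.P.MP_731e7b_an

namespace Local

/-- One term of the difference, written as an integral over the unit interval. -/
theorem term_eq (l d ξ : ℝ) (w : ℝ → ℝ) (hw : Continuous w) :
    (∫ u in l..(l + d), (w u : ℂ) * ee (ξ * u)) - ((d * w l : ℝ) : ℂ) * ee (ξ * l) =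
      ∫ τ in (0 : ℝ)..1, (((d * (w (l + τ * d) - w l) : ℝ) : ℂ) * ee (ξ * (l + τ * d)) +
        2 * Real.pi * ξ * Complex.I *
          (((d * w l * d * (1 - τ) : ℝ) : ℂ) * ee (ξ * (l + τ * d)))) := by
  have h1 : (∫ u in l..(l + d), (w u : ℂ) * ee (ξ * u)) =
      ∫ τ in (0 : ℝ)..1, (d : ℂ) * ((w (l + τ * d) : ℂ) * ee (ξ * (l + τ * d))) := by
    have h := intervalIntegral.smul_integral_comp_mul_add
      (fun u : ℝ => (w u : ℂ) * ee (ξ * u)) d l (a := 0) (b := 1)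
    rw [mul_zero, zero_add, mul_one, add_comm d l] at h
    rw [← h, intervalIntegral.integral_const_mul, Complex.real_smul]
    congr 1
    refine intervalIntegral.integral_congr fun τ _ => ?_
    simp only [show d * τ + l = l + τ * d by ring]
  have h2 : ((d * w l : ℝ) : ℂ) * ee (ξ * l) =
      ∫ τ in (0 : ℝ)..1, ((d * w l : ℝ) : ℂ) * (ee (ξ * (l + τ * d)) +
        ((τ : ℂ) - 1) * (2 * Real.pi * ξ * Complex.I * ee (ξ * (l + τ * d)) * d)) := by
    have hd : ∀ τ : ℝ, HasDerivAt (fun τ : ℝ => ((τ : ℂ) - 1) * ee (ξ * (l + τ * d)))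
        (ee (ξ * (l + τ * d)) +
          ((τ : ℂ) - 1) * (2 * Real.pi * ξ * Complex.I * ee (ξ * (l + τ * d)) * d)) τ := by
      intro τ
      have a1 : HasDerivAt (fun τ : ℝ => (τ : ℂ) - 1) 1 τ := by
        have := (hasDerivAt_id τ).ofReal_comp
        simpa using this.sub_const (1 : ℂ)
      have a2 : HasDerivAt (fun τ : ℝ => l + τ * d) d τ := by
        simpa using ((hasDerivAt_id τ).mul_const d).const_add l
      have a3 := (hasDerivAt_ee_mul ξ (l + τ * d)).scomp τ a2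
      have a4 : HasDerivAt (fun τ : ℝ => ((τ : ℂ) - 1) * ee (ξ * (l + τ * d))) _ τ :=
        a1.mul a3
      refine a4.congr_deriv ?_
      simp only [Complex.real_smul]
      ring
    rw [intervalIntegral.integral_const_mul,
      intervalIntegral.integral_eq_sub_of_hasDerivAt (fun τ _ => hd τ)
        (Continuous.intervalIntegrable (by fun_prop) _ _)]
    simp
  rw [h1, h2, ← intervalIntegral.integral_sub
    (Continuous.intervalIntegrable (by fun_prop) _ _)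
    (Continuous.intervalIntegrable (by fun_prop) _ _)]
  refine intervalIntegral.integral_congr fun τ _ => ?_
  push_cast
  ring

/-- Jensen's inequality on the unit interval. -/
theorem norm_sq_integral_le (Q : ℝ → ℂ) (hQ : Continuous Q) :
    ‖∫ τ in (0 : ℝ)..1, Q τ‖ ^ 2 ≤ ∫ τ in (0 : ℝ)..1, ‖Q τ‖ ^ 2 := by
  set m := ∫ τ in (0 : ℝ)..1, ‖Q τ‖ with hm
  have h1 : ‖∫ τ in (0 : ℝ)..1, Q τ‖ ≤ m :=
    intervalIntegral.norm_integral_le_integral_norm zero_le_one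
  have h2 : ∫ τ in (0 : ℝ)..1, (2 * m * ‖Q τ‖ - m ^ 2) ≤ ∫ τ in (0 : ℝ)..1, ‖Q τ‖ ^ 2 :=
    intervalIntegral.integral_mono_on zero_le_one
      (Continuous.intervalIntegrable (by fun_prop) _ _)
      (Continuous.intervalIntegrable (by fun_prop) _ _)
      fun τ _ => by nlinarith [sq_nonneg (‖Q τ‖ - m)]
  rw [intervalIntegral.integral_sub (Continuous.intervalIntegrable (by fun_prop) _ _)
    (Continuous.intervalIntegrable (by fun_prop) _ _), intervalIntegral.integral_const_mul,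
    intervalIntegral.integral_const, ← hm] at h2
  have h3 := pow_le_pow_left₀ (norm_nonneg _) h1 2
  simp only [sub_zero, smul_eq_mul, one_mul] at h2
  nlinarith

theorem integrable_prod {R : ℝ} {K : Set ℝ} (hKR : K ⊆ Icc (-R) R) (H : ℝ → ℝ → ℝ)
    (hH : Continuous fun p : ℝ × ℝ => H p.1 p.2) :
    Integrable (Function.uncurry H)
      ((volume.restrict K).prod (volume.restrict (Ioc (0 : ℝ) 1))) := by
  rw [Measure.prod_restrict]
  have h1 : IntegrableOn (Function.uncurry H) (Icc (-R) R ×ˢ Icc (0 : ℝ) 1)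
      ((volume : Measure ℝ).prod volume) :=
    hH.continuousOn.integrableOn_compact (isCompact_Icc.prod isCompact_Icc)
  exact h1.mono_set (Set.prod_mono hKR Ioc_subset_Icc_self)

/-- Fubini on `K × [0,1]` together with a uniform bound on the slices. -/
theorem integral_swap_le {R : ℝ} {K : Set ℝ} (hKR : K ⊆ Icc (-R) R) (H : ℝ → ℝ → ℝ)
    (hH : Continuous fun p : ℝ × ℝ => H p.1 p.2) (M : ℝ)
    (hM : ∀ τ ∈ Icc (0 : ℝ) 1, ∫ ξ in K, H ξ τ ≤ M) :
    ∫ ξ in K, ∫ τ in (0 : ℝ)..1, H ξ τ ≤ M := by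
  have hI := integrable_prod hKR H hH
  simp_rw [intervalIntegral.integral_of_le zero_le_one]
  rw [integral_integral_swap hI]
  calc ∫ τ in Ioc (0 : ℝ) 1, ∫ ξ in K, H ξ τ ≤ ∫ _ in Ioc (0 : ℝ) 1, M :=
        setIntegral_mono_on hI.integral_prod_right (integrableOn_const (by simp))
          measurableSet_Ioc fun τ hτ => hM τ (Ioc_subset_Icc_self hτ)
    _ = M := by simp

theorem integrableOn_slice {R : ℝ} {K : Set ℝ} (hKR : K ⊆ Icc (-R) R) (H : ℝ → ℝ → ℝ)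
    (hH : Continuous fun p : ℝ × ℝ => H p.1 p.2) :
    IntegrableOn (fun ξ => ∫ τ in (0 : ℝ)..1, H ξ τ) K := by
  simp_rw [intervalIntegral.integral_of_le zero_le_one]
  exact (integrable_prod hKR H hH).integral_prod_left

end Local

theorem local_coer (δ R c0 : ℝ) (hδ : 0 < δ) (hR : 0 ≤ R) (hc0 : 0 < c0) (K : Set ℝ)
    (hK : MeasurableSet K) (hKR : K ⊆ Icc (-R) R) :
    ∃ ε : ℝ, 0 < ε ∧ ∀ (S : Finset ℤ) (l d : ℤ → ℝ) (w : ℝ → ℝ) (s : ℝ), Continuous w →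
      (∀ i ∈ S, ∀ j ∈ S, i ≠ j → δ ≤ |l i - l j|) →
      (∀ y : ℤ → ℝ, c0 * ∑ n ∈ S, y n ^ 2 ≤
        ∫ ξ in K, ‖∑ n ∈ S, (y n : ℂ) * ee (ξ * l n)‖ ^ 2) →
      (∀ n ∈ S, |d n| ≤ ε) →
      (∀ n ∈ S, ∀ v, |v| ≤ |d n| → |w (l n + v) - w (l n)| ≤ ε * |w (l n)|) →
      (∀ ξ ∈ K, ‖∑ n ∈ S, ∫ u in l n..(l n + d n), (w u : ℂ) * ee (ξ * u)‖ ≤ s) →
      c0 * ∑ n ∈ S, (d n * w (l n)) ^ 2 ≤ 8 * R * s ^ 2 := by
  obtain ⟨B, hB, hBes⟩ := bessel_bdd (half_pos hδ) R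
  set A : ℝ := 4 * B * (1 + 4 * Real.pi ^ 2 * R ^ 2) with hA
  have hA0 : 0 < A := by positivity
  set ε : ℝ := min (δ / 4) (min 1 (c0 / (2 * A))) with hε
  have hε0 : 0 < ε := by positivity
  have hε1 : ε ≤ δ / 4 := min_le_left _ _
  have hε2 : ε ≤ 1 := (min_le_right _ _).trans (min_le_left _ _)
  have hε3 : ε ≤ c0 / (2 * A) := (min_le_right _ _).trans (min_le_right _ _)
  have hε4 : A * ε ^ 2 ≤ c0 / 2 := by
    rw [le_div_iff₀ (by positivity)] at hε3
    nlinarith [mul_pos hA0 hε0]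
  refine ⟨ε, hε0, fun S l d w s hw hsep hlow hd hwv hs => ?_⟩
  set Y : ℝ := ∑ n ∈ S, (d n * w (l n)) ^ 2 with hY
  have hY0 : 0 ≤ Y := by positivity
  let μ : ℝ → ℤ → ℝ := fun τ n => l n + τ * d n
  let α : ℝ → ℤ → ℂ := fun τ n => ((d n * (w (l n + τ * d n) - w (l n)) : ℝ) : ℂ)
  let β : ℝ → ℤ → ℂ := fun τ n => ((d n * w (l n) * d n * (1 - τ) : ℝ) : ℂ)
  let U : ℝ → ℝ → ℂ := fun ξ τ => ∑ n ∈ S, α τ n * ee (ξ * μ τ n)
  let V : ℝ → ℝ → ℂ := fun ξ τ => ∑ n ∈ S, β τ n * ee (ξ * μ τ n)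
  let H : ℝ → ℝ → ℝ := fun ξ τ => 2 * ‖U ξ τ‖ ^ 2 + 8 * Real.pi ^ 2 * R ^ 2 * ‖V ξ τ‖ ^ 2
  have hU : Continuous fun p : ℝ × ℝ => U p.1 p.2 := by
    simp only [U, α, μ]; fun_prop
  have hV : Continuous fun p : ℝ × ℝ => V p.1 p.2 := by
    simp only [V, β, μ]; fun_prop
  have hH : Continuous fun p : ℝ × ℝ => H p.1 p.2 := by
    simp only [H]; fun_prop
  have hτd : ∀ τ ∈ Icc (0 : ℝ) 1, ∀ n, |τ * d n| ≤ |d n| := fun τ hτ n => by
    rw [abs_mul, abs_of_nonneg hτ.1]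
    exact mul_le_of_le_one_left (abs_nonneg _) hτ.2
  have hμ : ∀ τ ∈ Icc (0 : ℝ) 1, ∀ i ∈ S, ∀ j ∈ S, i ≠ j → δ / 2 ≤ |μ τ i - μ τ j| := by
    intro τ hτ i hi j hj hij
    have h1 := hsep i hi j hj hij
    have h2 := abs_le.mp ((hτd τ hτ i).trans ((hd i hi).trans hε1))
    have h3 := abs_le.mp ((hτd τ hτ j).trans ((hd j hj).trans hε1))
    simp only [μ]
    rcases abs_cases (l i - l j) with h | h
    · exact le_abs.mpr (Or.inl (by linarith [h.1]))
    · exact le_abs.mpr (Or.inr (by linarith [h.1]))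
  have hα : ∀ τ ∈ Icc (0 : ℝ) 1, ∑ n ∈ S, ‖α τ n‖ ^ 2 ≤ ε ^ 2 * Y := by
    intro τ hτ
    rw [hY, Finset.mul_sum]
    refine Finset.sum_le_sum fun n hn => ?_
    have h1 := hwv n hn _ (hτd τ hτ n)
    simp only [α]
    rw [Complex.norm_real, Real.norm_eq_abs, abs_mul, ← sq_abs (d n * w (l n)), abs_mul,
      ← mul_pow]
    refine pow_le_pow_left₀ (by positivity) ?_ 2
    nlinarith [abs_nonneg (d n)]
  have hβ : ∀ τ ∈ Icc (0 : ℝ) 1, ∑ n ∈ S, ‖β τ n‖ ^ 2 ≤ ε ^ 2 * Y := by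
    intro τ hτ
    rw [hY, Finset.mul_sum]
    refine Finset.sum_le_sum fun n hn => ?_
    have h1 := hd n hn
    simp only [β]
    rw [Complex.norm_real, Real.norm_eq_abs, abs_mul, abs_mul, ← sq_abs (d n * w (l n)),
      ← mul_pow, abs_of_nonneg (sub_nonneg.mpr hτ.2)]
    refine pow_le_pow_left₀ (by have := sub_nonneg.mpr hτ.2; positivity) ?_ 2
    have h2 : |d n| * (1 - τ) ≤ ε := by nlinarith [abs_nonneg (d n), hτ.1]
    nlinarith [abs_nonneg (d n * w (l n))]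
  have hslice : ∀ τ ∈ Icc (0 : ℝ) 1, ∫ ξ in K, H ξ τ ≤ A / 2 * ε ^ 2 * Y := by
    intro τ hτ
    have c1 : Continuous fun ξ => ‖U ξ τ‖ ^ 2 := by
      simp only [U]; fun_prop
    have c2 : Continuous fun ξ => ‖V ξ τ‖ ^ 2 := by
      simp only [V]; fun_prop
    have i1 : IntegrableOn (fun ξ => ‖U ξ τ‖ ^ 2) K := c1.integrableOn_Icc.mono_set hKR
    have i2 : IntegrableOn (fun ξ => ‖V ξ τ‖ ^ 2) K := c2.integrableOn_Icc.mono_set hKR
    have b1 : ∫ ξ in K, ‖U ξ τ‖ ^ 2 ≤ B * (ε ^ 2 * Y) :=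
      (hBes K hKR S (μ τ) (hμ τ hτ) (α τ)).trans
        (mul_le_mul_of_nonneg_left (hα τ hτ) hB.le)
    have b2 : ∫ ξ in K, ‖V ξ τ‖ ^ 2 ≤ B * (ε ^ 2 * Y) :=
      (hBes K hKR S (μ τ) (hμ τ hτ) (β τ)).trans
        (mul_le_mul_of_nonneg_left (hβ τ hτ) hB.le)
    simp only [H]
    rw [integral_add (i1.const_mul _) (i2.const_mul _), integral_const_mul, integral_const_mul]
    have b3 := mul_le_mul_of_nonneg_left b2 (by positivity : 0 ≤ 8 * Real.pi ^ 2 * R ^ 2)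
    rw [hA]
    nlinarith
  have hswap := Local.integral_swap_le hKR H hH _ hslice
  have hint := Local.integrableOn_slice hKR H hH
  have hpt : ∀ ξ ∈ K, ‖∑ n ∈ S, ((d n * w (l n) : ℝ) : ℂ) * ee (ξ * l n)‖ ^ 2 ≤
      2 * s ^ 2 + 2 * ∫ τ in (0 : ℝ)..1, H ξ τ := by
    intro ξ hξ
    have cU : Continuous fun τ => U ξ τ := by
      simp only [U, α, μ]; fun_prop
    have cV : Continuous fun τ => V ξ τ := by
      simp only [V, β, μ]; fun_prop
    have e1 : (∑ n ∈ S, ∫ u in l n..(l n + d n), (w u : ℂ) * ee (ξ * u)) -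
        ∑ n ∈ S, ((d n * w (l n) : ℝ) : ℂ) * ee (ξ * l n) =
        ∫ τ in (0 : ℝ)..1, (U ξ τ + 2 * Real.pi * ξ * Complex.I * V ξ τ) := by
      rw [← Finset.sum_sub_distrib, Finset.sum_congr rfl fun n _ =>
        Local.term_eq (l n) (d n) ξ w hw, ← intervalIntegral.integral_finsetSum
          fun n _ => Continuous.intervalIntegrable (by fun_prop) _ _]
      refine intervalIntegral.integral_congr fun τ _ => ?_
      simp only [U, V, α, β, μ, Finset.sum_add_distrib, Finset.mul_sum]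
    have e2 := Local.norm_sq_integral_le
      (fun τ => U ξ τ + 2 * Real.pi * ξ * Complex.I * V ξ τ) (by fun_prop)
    have e3 : ∫ τ in (0 : ℝ)..1, ‖U ξ τ + 2 * Real.pi * ξ * Complex.I * V ξ τ‖ ^ 2 ≤
        ∫ τ in (0 : ℝ)..1, H ξ τ := by
      refine intervalIntegral.integral_mono_on zero_le_one
        (Continuous.intervalIntegrable (by fun_prop) _ _)
        (Continuous.intervalIntegrable (by simp only [H]; fun_prop) _ _) fun τ _ => ?_
      have n1 : ‖2 * Real.pi * ξ * Complex.I * V ξ τ‖ ≤ 2 * Real.pi * R * ‖V ξ τ‖ := by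
        have hξR : |ξ| ≤ R := abs_le.mpr (hKR hξ)
        simp only [norm_mul, Complex.norm_real, Complex.norm_I, mul_one, Real.norm_eq_abs,
          Complex.norm_ofNat, abs_of_pos Real.pi_pos]
        gcongr
      have n2 := (norm_add_le (U ξ τ) _).trans (add_le_add_right n1 _)
      have n3 := pow_le_pow_left₀ (norm_nonneg _) n2 2
      simp only [H]
      nlinarith [sq_nonneg (‖U ξ τ‖ - 2 * Real.pi * R * ‖V ξ τ‖)]
    rw [← e1] at e2
    set P := ∑ n ∈ S, ∫ u in l n..(l n + d n), (w u : ℂ) * ee (ξ * u)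
    set E := ∑ n ∈ S, ((d n * w (l n) : ℝ) : ℂ) * ee (ξ * l n)
    have n4 : ‖E‖ ≤ s + ‖P - E‖ := by
      calc ‖E‖ = ‖P - (P - E)‖ := by rw [sub_sub_cancel]
        _ ≤ ‖P‖ + ‖P - E‖ := norm_sub_le _ _
        _ ≤ _ := by linarith [hs ξ hξ]
    have n5 := pow_le_pow_left₀ (norm_nonneg _) n4 2
    nlinarith [sq_nonneg (s - ‖P - E‖)]
  have hvol : (volume : Measure ℝ).real K ≤ 2 * R := by
    have h1 : (volume : Measure ℝ).real K ≤ (volume : Measure ℝ).real (Icc (-R) R) :=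
      measureReal_mono hKR (by simp)
    rw [Real.volume_real_Icc_of_le (by linarith)] at h1
    linarith
  have hKfin : (volume : Measure ℝ) K ≠ ⊤ :=
    ((measure_mono hKR).trans_lt (by simp)).ne
  have cE : Continuous fun ξ : ℝ =>
      ‖∑ n ∈ S, ((d n * w (l n) : ℝ) : ℂ) * ee (ξ * l n)‖ ^ 2 := by fun_prop
  have hc : IntegrableOn (fun _ : ℝ => 2 * s ^ 2) K := integrableOn_const hKfin
  have hmain : c0 * Y ≤ ∫ ξ in K, (2 * s ^ 2 + 2 * ∫ τ in (0 : ℝ)..1, H ξ τ) :=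
    (hlow fun n => d n * w (l n)).trans
      (setIntegral_mono_on (cE.integrableOn_Icc.mono_set hKR) (hc.add (hint.const_mul 2)) hK hpt)
  rw [integral_add hc (hint.const_mul 2), integral_const_mul, integral_const_mul,
    setIntegral_const, smul_eq_mul] at hmain
  have h1 := mul_le_mul_of_nonneg_right hvol (sq_nonneg s)
  have h2 := mul_le_mul_of_nonneg_right hε4 hY0
  nlinarith

end Pool.Agent.P.MP_731e7b_an
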