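import Pool.Agent.P.MP_731e7b_an.Basic

/-!
Pairs of increasing sequences, the measure carried by the intervals between them,
and the functional `TT`.
-/

open MeasureTheory Set Filter Topology

namespace Pool.Agent.P.MP_731e7b_an

/-- Two-sided gap bounds. -/
structure Gaps (δ0 δ1 : ℝ) (l : ℤ → ℝ) : Prop where
  lo : ∀ n, l n + δ0 ≤ l (n + 1)
  hi : ∀ n, l (n + 1) ≤ l n + δ1

namespace Gaps

variable {δ0 δ1 : ℝ} {l l' : ℤ → ℝ}

theorem bounds (h : Gaps δ0 δ1 l) {n m : ℤ} (hnm : n ≤ m) :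
    l n + δ0 * (m - n) ≤ l m ∧ l m ≤ l n + δ1 * (m - n) := by
  induction m, hnm using Int.leInduction with
  | base => simp
  | succ k _ ih =>
    have h1 := h.lo k
    have h2 := h.hi k
    push_cast
    constructor <;> nlinarith [ih.1, ih.2]

theorem le_delta (h : Gaps δ0 δ1 l) : δ0 ≤ δ1 := by linarith [h.lo 0, h.hi 0]

theorem abs_bounds (h : Gaps δ0 δ1 l) (hδ : 0 < δ0) (n m : ℤ) :
    δ0 * |(n : ℝ) - m| ≤ |l n - l m| ∧ |l n - l m| ≤ δ1 * |(n : ℝ) - m| := by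
  rcases le_total n m with hnm | hnm
  · have h1 := h.bounds hnm
    have h2 : (n : ℝ) - m ≤ 0 := by simpa using (Int.cast_le (R := ℝ)).mpr hnm
    have h3 : l n - l m ≤ 0 := by nlinarith [h1.1]
    rw [abs_of_nonpos h2, abs_of_nonpos h3]
    constructor <;> linarith [h1.1, h1.2]
  · have h1 := h.bounds hnm
    have h2 : 0 ≤ (n : ℝ) - m := by simpa using (Int.cast_le (R := ℝ)).mpr hnm
    have h3 : 0 ≤ l n - l m := by nlinarith [h1.1]
    rw [abs_of_nonneg h2, abs_of_nonneg h3]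
    constructor <;> linarith [h1.1, h1.2]

theorem sep (h : Gaps δ0 δ1 l) (hδ : 0 < δ0) (i j : ℤ) (hij : i ≠ j) : δ0 ≤ |l i - l j| := by
  refine le_trans ?_ (h.abs_bounds hδ i j).1
  have : (1 : ℝ) ≤ |(i : ℝ) - j| := by
    have := Int.one_le_abs (sub_ne_zero.mpr hij)
    exact_mod_cast this
  nlinarith

theorem strictMono (h : Gaps δ0 δ1 l) (hδ : 0 < δ0) : StrictMono l :=
  strictMono_int_of_lt_succ fun n => by linarith [h.lo n]

theorem shift (h : Gaps δ0 δ1 l) (k : ℤ) (t : ℝ) : Gaps δ0 δ1 fun n => l (n + k) + t := by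
  constructor
  · intro n
    have := h.lo (n + k)
    rw [show n + k + 1 = n + 1 + k by ring] at this
    linarith
  · intro n
    have := h.hi (n + k)
    rw [show n + k + 1 = n + 1 + k by ring] at this
    linarith

theorem dist_lower (h : Gaps δ0 δ1 l) (h' : Gaps δ0 δ1 l') {m : ℤ} {x A : ℝ}
    (hm : |l m - x| ≤ A) (hm' : |l' m - x| ≤ A) (n : ℤ) {u : ℝ} (hu : u ∈ uIcc (l n) (l' n)) :
    δ0 * |(n : ℝ) - m| - A ≤ |u - x| := by
  rw [abs_le] at hm hm'
  rcases le_total n m with hnm | hnm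
  · have h1 := (h.bounds hnm).1
    have h1' := (h'.bounds hnm).1
    have h2 : (n : ℝ) - m ≤ 0 := by simpa using (Int.cast_le (R := ℝ)).mpr hnm
    have h3 : u ≤ max (l n) (l' n) := hu.2
    have h4 : max (l n) (l' n) ≤ x + A - δ0 * (m - n) := max_le (by linarith) (by linarith)
    rw [abs_of_nonpos h2]
    linarith [neg_abs_le (u - x)]
  · have h1 := (h.bounds hnm).1
    have h1' := (h'.bounds hnm).1
    have h2 : 0 ≤ (n : ℝ) - m := by simpa using (Int.cast_le (R := ℝ)).mpr hnm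
    have h3 : min (l n) (l' n) ≤ u := hu.1
    have h4 : x - A + δ0 * (n - m) ≤ min (l n) (l' n) := le_min (by linarith) (by linarith)
    rw [abs_of_nonneg h2]
    linarith [le_abs_self (u - x)]

theorem len_le (h : Gaps δ0 δ1 l) (h' : Gaps δ0 δ1 l') (hδ : 0 < δ0) {m : ℤ} {x A : ℝ}
    (hm : |l m - x| ≤ A) (hm' : |l' m - x| ≤ A) (n : ℤ) :
    |l' n - l n| ≤ 2 * A + 2 * δ1 * |(n : ℝ) - m| := by
  have h1 := (h.abs_bounds hδ n m).2
  have h2 := (h'.abs_bounds hδ n m).2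
  rw [abs_le] at *
  constructor <;> linarith [h1.1, h1.2, h2.1, h2.2, hm.1, hm.2, hm'.1, hm'.2]

end Gaps

/-- The constant in the basic pair estimate. -/
noncomputable def QQ (δ0 δ1 A : ℝ) : ℝ := (2 * A + 2 * δ1 / δ0) * (1 + A) ^ 4

theorem pair_bound {δ0 δ1 : ℝ} {l l' : ℤ → ℝ} (h : Gaps δ0 δ1 l) (h' : Gaps δ0 δ1 l')
    (hδ : 0 < δ0) {m : ℤ} {x A : ℝ} (hm : |l m - x| ≤ A) (hm' : |l' m - x| ≤ A) (n : ℤ) {u : ℝ}
    (hu : u ∈ uIcc (l n) (l' n)) :
    |l' n - l n| * (1 / (1 + |u - x|) ^ 4) ≤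
      QQ δ0 δ1 A * (1 / (1 + δ0 * |((n - m : ℤ) : ℝ)|) ^ 2) := by
  have hA : 0 ≤ A := (abs_nonneg _).trans hm
  have hδ1 : 0 < δ1 := hδ.trans_le h.le_delta
  have h1 := h.dist_lower h' hm hm' n hu
  have h2 := h.len_le h' hδ hm hm' n
  push_cast
  set k := |(n : ℝ) - m| with hk
  have hk0 : 0 ≤ k := abs_nonneg _
  set s := |u - x| with hs
  have hs0 : 0 ≤ s := abs_nonneg _
  have h3 : 1 + δ0 * k ≤ (1 + A) * (1 + s) := by nlinarith [mul_nonneg hA hs0]
  have h4 : |l' n - l n| ≤ (2 * A + 2 * δ1 / δ0) * (1 + δ0 * k) := by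
    have : (2 * A + 2 * δ1 / δ0) * (1 + δ0 * k) =
        2 * A + 2 * δ1 * k + (2 * A * (δ0 * k) + 2 * δ1 / δ0) := by field_simp; ring
    rw [this]
    have : 0 ≤ 2 * A * (δ0 * k) + 2 * δ1 / δ0 := by positivity
    linarith
  have h5 : 1 ≤ 1 + δ0 * k := by nlinarith [mul_nonneg hδ.le hk0]
  rw [mul_one_div, mul_one_div, div_le_div_iff₀ (by positivity) (by positivity), QQ]
  calc |l' n - l n| * (1 + δ0 * k) ^ 2
      ≤ (2 * A + 2 * δ1 / δ0) * (1 + δ0 * k) * (1 + δ0 * k) ^ 2 :=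
        mul_le_mul_of_nonneg_right h4 (by positivity)
    _ = (2 * A + 2 * δ1 / δ0) * (1 + δ0 * k) ^ 3 := by ring
    _ ≤ (2 * A + 2 * δ1 / δ0) * ((1 + A) * (1 + s)) ^ 4 := by
        refine mul_le_mul_of_nonneg_left ?_ (by positivity)
        exact (pow_le_pow_right₀ h5 (by norm_num)).trans (pow_le_pow_left₀ (by positivity) h3 4)
    _ = _ := by ring

theorem summable_shift_inv_sq {δ : ℝ} (hδ : 0 < δ) (m : ℤ) :
    Summable fun n : ℤ => 1 / (1 + δ * |((n - m : ℤ) : ℝ)|) ^ 2 :=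
  (summable_int_inv_sq hδ).comp_injective (i := fun n : ℤ => n - m) sub_left_injective

/-- The sum of the basic majorant. -/
noncomputable def ZZ (δ : ℝ) : ℝ := ∑' k : ℤ, 1 / (1 + δ * |(k : ℝ)|) ^ 2

theorem tsum_shift_inv_sq (δ : ℝ) (m : ℤ) :
    ∑' n : ℤ, 1 / (1 + δ * |((n - m : ℤ) : ℝ)|) ^ 2 = ZZ δ :=
  (Equiv.subRight m).tsum_eq fun k : ℤ => 1 / (1 + δ * |(k : ℝ)|) ^ 2

theorem ZZ_nonneg (δ : ℝ) : 0 ≤ ZZ δ := tsum_nonneg fun _ => by positivity

/-- Lebesgue measure on the intervals `(l n, l' n]`, with multiplicity. -/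
noncomputable def nu (l l' : ℤ → ℝ) : Measure ℝ :=
  Measure.sum fun n => volume.restrict (Ioc (l n) (l' n))

instance (l l' : ℤ → ℝ) : SFinite (nu l l') := by unfold nu; infer_instance

theorem setIntegral_Ioc_le {φ : ℝ → ℝ} (hφ : Continuous φ) {p q a : ℝ}
    (h : ∀ u ∈ uIcc p q, |q - p| * φ u ≤ a) (ha : 0 ≤ a) : ∫ u in Ioc p q, φ u ≤ a := by
  rcases le_or_gt q p with hqp | hpq
  · rw [Ioc_eq_empty (not_lt.mpr hqp)]; simpa using ha
  · have hd : 0 < q - p := sub_pos.mpr hpq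
    calc ∫ u in Ioc p q, φ u ≤ ∫ _ in Ioc p q, a / (q - p) := by
          refine setIntegral_mono_on (hφ.integrableOn_Icc.mono_set Ioc_subset_Icc_self)
            (continuous_const.integrableOn_Icc.mono_set Ioc_subset_Icc_self) measurableSet_Ioc
            fun u hu => ?_
          have := h u (by rw [uIcc_of_le hpq.le]; exact Ioc_subset_Icc_self hu)
          rw [abs_of_pos hd] at this
          rw [le_div_iff₀ hd]; linarith
      _ = a := by
          rw [setIntegral_const, Real.volume_real_Ioc_of_le hpq.le, smul_eq_mul]; field_simp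

theorem nu_integrable {E : Type*} [NormedAddCommGroup E] [NormedSpace ℝ E] {φ : ℝ → E}
    (hφ : Continuous φ) {l l' : ℤ → ℝ} {a : ℤ → ℝ} (ha : Summable a)
    (h : ∀ n, ∀ u ∈ uIcc (l n) (l' n), |l' n - l n| * ‖φ u‖ ≤ a n) :
    Integrable φ (nu l l') ∧ ∫ u, ‖φ u‖ ∂(nu l l') ≤ ∑' n, a n := by
  have ha0 : ∀ n, 0 ≤ a n := fun n => le_trans (by positivity) (h n _ left_mem_uIcc)
  have h1 : ∀ n, ∫ u in Ioc (l n) (l' n), ‖φ u‖ ≤ a n := fun n =>
    setIntegral_Ioc_le hφ.norm (h n) (ha0 n)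
  have h2 : Summable fun n => ∫ u in Ioc (l n) (l' n), ‖φ u‖ :=
    Summable.of_nonneg_of_le (fun n => integral_nonneg fun _ => norm_nonneg _) h1 ha
  have h3 : Integrable φ (nu l l') :=
    integrable_sum_measure (fun n => hφ.integrableOn_Icc.mono_set Ioc_subset_Icc_self) h2
  refine ⟨h3, ?_⟩
  rw [nu, integral_sum_measure h3.norm]
  exact h2.tsum_le_tsum h1 ha

theorem norm_intervalIntegral_le {φ : ℝ → ℂ} {p q a : ℝ}
    (h : ∀ u ∈ uIcc p q, |q - p| * ‖φ u‖ ≤ a) : ‖∫ u in p..q, φ u‖ ≤ a := by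
  rcases eq_or_ne q p with hqp | hqp
  · subst hqp
    have := h q left_mem_uIcc
    simpa using this
  · have hd : 0 < |q - p| := abs_pos.mpr (sub_ne_zero.mpr hqp)
    have := intervalIntegral.norm_integral_le_of_norm_le_const (a := p) (b := q) (f := φ)
      (C := a / |q - p|) fun u hu => by
        have := h u (uIoc_subset_uIcc hu)
        rw [le_div_iff₀ hd]; linarith
    rwa [div_mul_cancel₀ _ hd.ne'] at this

/-- The functional attached to a pair of sequences. -/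
noncomputable def TT (φ : ℝ → ℂ) (l l' : ℤ → ℝ) : ℂ := ∑' n, ∫ u in l n..l' n, φ u

theorem hasSum_TT {φ : ℝ → ℂ} {l l' : ℤ → ℝ} (h1 : Integrable φ (nu l l'))
    (h2 : Integrable φ (nu l' l)) :
    HasSum (fun n => ∫ u in l n..l' n, φ u) (∫ u, φ u ∂(nu l l') - ∫ u, φ u ∂(nu l' l)) :=
  (hasSum_integral_measure h1).sub (hasSum_integral_measure h2)

theorem TT_eq {φ : ℝ → ℂ} {l l' : ℤ → ℝ} (h1 : Integrable φ (nu l l'))
    (h2 : Integrable φ (nu l' l)) :
    TT φ l l' = ∫ u, φ u ∂(nu l l') - ∫ u, φ u ∂(nu l' l) := (hasSum_TT h1 h2).tsum_eq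

/-- Integrability of functions with quartic decay, with a quantitative bound. -/
theorem nu_integrable_decay {E : Type*} [NormedAddCommGroup E] [NormedSpace ℝ E] {φ : ℝ → E}
    (hφ : Continuous φ) {δ0 δ1 : ℝ} {l l' : ℤ → ℝ} (h : Gaps δ0 δ1 l) (h' : Gaps δ0 δ1 l')
    (hδ : 0 < δ0) {m : ℤ} {x A D : ℝ} (hm : |l m - x| ≤ A) (hm' : |l' m - x| ≤ A)
    (hD : ∀ u, ‖φ u‖ ≤ D / (1 + |u - x|) ^ 4) :
    Integrable φ (nu l l') ∧ ∫ u, ‖φ u‖ ∂(nu l l') ≤ D * QQ δ0 δ1 A * ZZ δ0 := by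
  have hD0 : 0 ≤ D := by
    have := (norm_nonneg _).trans (hD x)
    simpa using this
  have := nu_integrable hφ (l := l) (l' := l')
    ((summable_shift_inv_sq hδ m).mul_left (D * QQ δ0 δ1 A)) fun n u hu => by
      have h1 := pair_bound h h' hδ hm hm' n hu
      calc |l' n - l n| * ‖φ u‖ ≤ |l' n - l n| * (D / (1 + |u - x|) ^ 4) :=
            mul_le_mul_of_nonneg_left (hD u) (abs_nonneg _)
        _ = D * (|l' n - l n| * (1 / (1 + |u - x|) ^ 4)) := by ring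
        _ ≤ D * (QQ δ0 δ1 A * (1 / (1 + δ0 * |((n - m : ℤ) : ℝ)|) ^ 2)) :=
            mul_le_mul_of_nonneg_left h1 hD0
        _ = _ := by ring
  rwa [tsum_mul_left, tsum_shift_inv_sq] at this

theorem nu_integrable_decay' {E : Type*} [NormedAddCommGroup E] [NormedSpace ℝ E] {φ : ℝ → E}
    (hφ : Continuous φ) {δ0 δ1 : ℝ} {l l' : ℤ → ℝ} (h : Gaps δ0 δ1 l) (h' : Gaps δ0 δ1 l')
    (hδ : 0 < δ0) {x D : ℝ} (hD : ∀ u, ‖φ u‖ ≤ D / (1 + |u - x|) ^ 4) :
    Integrable φ (nu l l') :=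
  (nu_integrable_decay hφ h h' hδ (m := 0) (le_max_left |l 0 - x| |l' 0 - x|)
    (le_max_right _ _) hD).1

theorem TT_add {φ : ℝ → ℂ} (hφ : Continuous φ) {δ0 δ1 : ℝ} {l l' l'' : ℤ → ℝ}
    (h : Gaps δ0 δ1 l) (h' : Gaps δ0 δ1 l') (h'' : Gaps δ0 δ1 l'') (hδ : 0 < δ0) {x D : ℝ}
    (hD : ∀ u, ‖φ u‖ ≤ D / (1 + |u - x|) ^ 4) : TT φ l l' + TT φ l' l'' = TT φ l l'' := by
  have s1 := (hasSum_TT (nu_integrable_decay' hφ h h' hδ hD)
    (nu_integrable_decay' hφ h' h hδ hD)).summable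
  have s2 := (hasSum_TT (nu_integrable_decay' hφ h' h'' hδ hD)
    (nu_integrable_decay' hφ h'' h' hδ hD)).summable
  unfold TT
  rw [← s1.tsum_add s2]
  exact tsum_congr fun n => intervalIntegral.integral_add_adjacent_intervals
    (hφ.intervalIntegrable _ _) (hφ.intervalIntegrable _ _)

theorem TT_self (φ : ℝ → ℂ) (l : ℤ → ℝ) : TT φ l l = 0 := by simp [TT]

theorem TT_shift (φ : ℝ → ℂ) (l l' : ℤ → ℝ) (k : ℤ) (t : ℝ) :
    TT φ (fun n => l (n + k) + t) (fun n => l' (n + k) + t) = TT (fun u => φ (u + t)) l l' := by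
  unfold TT
  rw [← (Equiv.addRight k).tsum_eq fun n => ∫ u in l n..l' n, φ (u + t)]
  refine tsum_congr fun n => ?_
  rw [intervalIntegral.integral_comp_add_right]
  rfl

/-- Continuity of `TT` under pointwise limits of pairs. -/
theorem tendsto_TT {ι : Type*} {F : Filter ι} {φ : ℝ → ℂ} (hφ : Continuous φ) {δ0 δ1 : ℝ}
    (hδ : 0 < δ0) {x D : ℝ} (hD : ∀ u, ‖φ u‖ ≤ D / (1 + |u - x|) ^ 4)
    {L L' : ι → ℤ → ℝ} {l l' : ℤ → ℝ} (hL : ∀ i, Gaps δ0 δ1 (L i)) (hL' : ∀ i, Gaps δ0 δ1 (L' i))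
    (h : ∀ n, Tendsto (fun i => L i n) F (𝓝 (l n)))
    (h' : ∀ n, Tendsto (fun i => L' i n) F (𝓝 (l' n))) :
    Tendsto (fun i => TT φ (L i) (L' i)) F (𝓝 (TT φ l l')) := by
  have hD0 : 0 ≤ D := by
    have := (norm_nonneg _).trans (hD x)
    simpa using this
  set A := max |l 0 - x| |l' 0 - x| + 1 with hA
  refine tendsto_tsum_of_dominated_convergence
    ((summable_shift_inv_sq hδ 0).mul_left (D * QQ δ0 δ1 A)) (fun n => ?_) ?_
  · have e : ∀ p q : ℝ, ∫ u in p..q, φ u = (∫ u in (0 : ℝ)..q, φ u) - ∫ u in (0 : ℝ)..p, φ u :=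
      fun p q => (intervalIntegral.integral_interval_sub_left (hφ.intervalIntegrable _ _)
        (hφ.intervalIntegrable _ _)).symm
    have hc : Continuous fun q : ℝ => ∫ u in (0 : ℝ)..q, φ u :=
      intervalIntegral.continuous_primitive (fun _ _ => hφ.intervalIntegrable _ _) 0
    rw [e (l n) (l' n)]
    exact (((hc.tendsto _).comp (h' n)).sub ((hc.tendsto _).comp (h n))).congr
      fun i => (e _ _).symm
  · have e1 : ∀ᶠ i in F, |L i 0 - x| ≤ A :=
      (((h 0).sub_const x).abs.eventually_le_const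
        (by linarith [le_max_left |l 0 - x| |l' 0 - x|]))
    have e2 : ∀ᶠ i in F, |L' i 0 - x| ≤ A :=
      (((h' 0).sub_const x).abs.eventually_le_const
        (by linarith [le_max_right |l 0 - x| |l' 0 - x|]))
    filter_upwards [e1, e2] with i h1 h2 n
    refine norm_intervalIntegral_le fun u hu => ?_
    have h3 := pair_bound (hL i) (hL' i) hδ h1 h2 n hu
    calc |L' i n - L i n| * ‖φ u‖ ≤ |L' i n - L i n| * (D / (1 + |u - x|) ^ 4) :=
          mul_le_mul_of_nonneg_left (hD u) (abs_nonneg _)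
      _ = D * (|L' i n - L i n| * (1 / (1 + |u - x|) ^ 4)) := by ring
      _ ≤ D * (QQ δ0 δ1 A * (1 / (1 + δ0 * |((n - 0 : ℤ) : ℝ)|) ^ 2)) :=
          mul_le_mul_of_nonneg_left h3 hD0
      _ = _ := by ring

/-- If the measures of a pair agree after a positive density change, the sequences agree. -/
theorem le_of_nu_eq {δ0 δ1 : ℝ} (hδ : 0 < δ0) {l l' : ℤ → ℝ} (h : Gaps δ0 δ1 l)
    (h' : Gaps δ0 δ1 l') (hac : nu l l' ≪ nu l' l) (n : ℤ) : l' n ≤ l n := by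
  by_contra hlt
  push Not at hlt
  have h0 : nu l' l (Ioc (l n) (l' n)) = 0 := by
    rw [nu, Measure.sum_apply _ measurableSet_Ioc, ENNReal.tsum_eq_zero]
    intro m
    rw [Measure.restrict_apply measurableSet_Ioc]
    have : Ioc (l n) (l' n) ∩ Ioc (l' m) (l m) = ∅ := by
      refine eq_empty_of_forall_notMem fun u hu => ?_
      rcases le_total m n with hmn | hmn
      · have := (h.strictMono hδ).monotone hmn
        linarith [hu.1.1, hu.2.2]
      · have := (h'.strictMono hδ).monotone hmn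
        linarith [hu.1.2, hu.2.1]
    rw [this, measure_empty]
  have h1 := hac h0
  have h2 : volume.restrict (Ioc (l n) (l' n)) (Ioc (l n) (l' n)) ≤ nu l l' (Ioc (l n) (l' n)) :=
    Measure.le_sum (fun n => volume.restrict (Ioc (l n) (l' n))) n _
  rw [h1, Measure.restrict_apply measurableSet_Ioc, inter_self, Real.volume_Ioc] at h2
  have := ENNReal.ofReal_pos.mpr (sub_pos.mpr hlt)
  exact absurd h2 (not_le.mpr this)

end Pool.Agent.P.MP_731e7b_an
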