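import Pool.Agent.P.MP_731e7b_an.Good
import Pool.Agent.P.MP_731e7b_an.Laplace
import Pool.Agent.P.MP_731e7b_an.Local

/-!
Rigidity: a balanced pair of good sequences that is close on a left half-line is trivial.
-/

open MeasureTheory Set Filter Topology

namespace Pool.Agent.P.MP_731e7b_an

variable {P : Par} {l l' : ℤ → ℝ}

/-- The finite measure attached to a pair and a centre. -/
noncomputable def mm (P : Par) (l l' : ℤ → ℝ) (x : ℝ) : Measure ℝ :=
  (nu l l').withDensity fun u => ENNReal.ofReal (P.b (u - x))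

theorem measurable_dens (P : Par) (x : ℝ) : Measurable fun u => ENNReal.ofReal (P.b (u - x)) :=
  (P.win.continuous.comp (continuous_id.sub continuous_const)).measurable.ennreal_ofReal

theorem integral_mm {E : Type*} [NormedAddCommGroup E] [NormedSpace ℝ E] (x : ℝ) (g : ℝ → E) :
    ∫ u, g u ∂(mm P l l' x) = ∫ u, P.b (u - x) • g u ∂(nu l l') := by
  rw [mm, integral_withDensity_eq_integral_toReal_smul (measurable_dens P x)
    (Eventually.of_forall fun _ => ENNReal.ofReal_lt_top)]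
  simp_rw [ENNReal.toReal_ofReal (P.win.pos _).le]

theorem continuous_b_sub (P : Par) (x : ℝ) : Continuous fun u => P.b (u - x) :=
  P.win.continuous.comp (continuous_id.sub continuous_const)

theorem norm_b_sub_le (P : Par) (x u : ℝ) : ‖P.b (u - x)‖ ≤ P.C / (1 + |u - x|) ^ 4 := by
  rw [Real.norm_of_nonneg (P.win.pos _).le]; exact P.win.decay _

theorem finite_mm (h : Gaps P.δ0 P.δ1 l) (h' : Gaps P.δ0 P.δ1 l') (x : ℝ) :
    IsFiniteMeasure (mm P l l' x) :=
  isFiniteMeasure_withDensity_ofReal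
    (nu_integrable_decay' (continuous_b_sub P x) h h' P.δ0_pos (norm_b_sub_le P x)).2

theorem mass_mm (h : Gaps P.δ0 P.δ1 l) (h' : Gaps P.δ0 P.δ1 l') {m : ℤ} {x A : ℝ}
    (hm : |l m - x| ≤ A) (hm' : |l' m - x| ≤ A) :
    (mm P l l' x).real univ ≤ P.C * QQ P.δ0 P.δ1 A * ZZ P.δ0 := by
  have h1 := (nu_integrable_decay (continuous_b_sub P x) h h' P.δ0_pos hm hm'
    (norm_b_sub_le P x)).2
  have h2 := integral_mm (P := P) (l := l) (l' := l') x fun _ => (1 : ℝ)
  simp only [integral_const, smul_eq_mul, mul_one] at h2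
  rw [h2]
  simpa only [Real.norm_of_nonneg (P.win.pos _).le] using h1

theorem char_mm (h : Good P l) (h' : Good P l') (hb : Bal P l l') {ζ : ℝ} (hζ : ζ ∈ P.U) (x : ℝ) :
    ∫ u, ee (ζ * u) ∂(mm P l l' x) = ∫ u, ee (ζ * u) ∂(mm P l' l x) := by
  have h0 := hb.TT_eq_zero h h' hζ x
  rw [TT_eq (nu_integrable_decay' (P.continuous_B ζ x) h.gaps h'.gaps P.δ0_pos (P.norm_B_le ζ x))
    (nu_integrable_decay' (P.continuous_B ζ x) h'.gaps h.gaps P.δ0_pos (P.norm_B_le ζ x)),
    sub_eq_zero] at h0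
  have e : ∀ u, P.b (u - x) • ee (ζ * u) = P.B ζ x u * ee (ζ * x) := fun u => by
    rw [Par.B, mul_assoc, ← ee_add, Complex.real_smul]; congr 2; ring
  simp_rw [integral_mm, e, integral_mul_const, h0]

theorem abs_sub_le_of_ratio {p q E : ℝ} (hp : 0 < p) (hE : 1 ≤ E) (h1 : q ≤ E * p)
    (h2 : p ≤ E * q) : |q - p| ≤ (E - 1) * p := by
  rw [abs_le]
  refine ⟨?_, by linarith⟩
  by_contra hc
  push Not at hc
  have h6 : q < (2 - E) * p := by linarith
  have h7 : E * q < E * ((2 - E) * p) := mul_lt_mul_of_pos_left h6 (by linarith)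
  nlinarith [mul_nonneg (sq_nonneg (E - 1)) hp.le]

/-- The window used at scale `r` and centre `x`. -/
noncomputable def ww (P : Par) (r x u : ℝ) : ℝ :=
  P.b (u - x) * Real.exp (-(Real.pi * (u - x) ^ 2 / r))

theorem continuous_ww (P : Par) (r x : ℝ) : Continuous (ww P r x) := by
  have := P.win.continuous
  unfold ww; fun_prop

theorem ww_pos (P : Par) (r x u : ℝ) : 0 < ww P r x u :=
  mul_pos (P.win.pos _) (Real.exp_pos _)

theorem ww_ratio (P : Par) {r x a a' D : ℝ} (hr : 0 < r) (h : |a - x| + |a' - x| ≤ D * r) :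
    ww P r x a' ≤ Real.exp ((1 + Real.pi * D) * |a' - a|) * ww P r x a := by
  have h1 := P.win.lip (a - x) (a' - a)
  rw [show a - x + (a' - a) = a' - x by ring] at h1
  have h2 : Real.exp (-(Real.pi * (a' - x) ^ 2 / r)) ≤
      Real.exp (Real.pi * D * |a' - a|) * Real.exp (-(Real.pi * (a - x) ^ 2 / r)) := by
    rw [← Real.exp_add, Real.exp_le_exp]
    have e1 : (a - x) ^ 2 - (a' - x) ^ 2 ≤ |a' - a| * (D * r) := by
      have : (a - x) ^ 2 - (a' - x) ^ 2 = (a - a') * ((a - x) + (a' - x)) := by ring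
      rw [this]
      refine (le_abs_self _).trans ?_
      rw [abs_mul, abs_sub_comm a a']
      exact mul_le_mul_of_nonneg_left ((abs_add_le _ _).trans h) (abs_nonneg _)
    have e2 : Real.pi * ((a - x) ^ 2 - (a' - x) ^ 2) / r ≤ Real.pi * D * |a' - a| := by
      rw [div_le_iff₀ hr]
      nlinarith [mul_le_mul_of_nonneg_left e1 Real.pi_pos.le]
    have e3 : Real.pi * ((a - x) ^ 2 - (a' - x) ^ 2) / r =
        Real.pi * (a - x) ^ 2 / r - Real.pi * (a' - x) ^ 2 / r := by ring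
    linarith
  unfold ww
  calc P.b (a' - x) * Real.exp (-(Real.pi * (a' - x) ^ 2 / r))
      ≤ (Real.exp |a' - a| * P.b (a - x)) *
          (Real.exp (Real.pi * D * |a' - a|) * Real.exp (-(Real.pi * (a - x) ^ 2 / r))) :=
        mul_le_mul h1 h2 (Real.exp_pos _).le (mul_pos (Real.exp_pos _) (P.win.pos _)).le
    _ = _ := by rw [add_mul, one_mul, Real.exp_add]; ring

theorem norm_ww_ee (P : Par) (r x ξ u : ℝ) : ‖(ww P r x u : ℂ) * ee (ξ * u)‖ = ww P r x u := by
  rw [norm_mul, norm_ee, mul_one, Complex.norm_real, Real.norm_of_nonneg (ww_pos P r x u).le]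

theorem ww_le (P : Par) {r : ℝ} (hr : 0 < r) (x u : ℝ) :
    ww P r x u ≤ P.C / (1 + |u - x|) ^ 4 := by
  refine le_trans ?_ (P.win.decay (u - x))
  refine mul_le_of_le_one_right (P.win.pos _).le (Real.exp_le_one_iff.mpr ?_)
  have := Real.pi_pos
  have : 0 ≤ Real.pi * (u - x) ^ 2 / r := by positivity
  linarith

/-- The windowed functional is exponentially small. -/
theorem TT_window (h : Good P l) (h' : Good P l') (hb : Bal P l l') {ξ : ℝ} (hξ : ξ ∈ P.K)
    {r : ℝ} (hr : 0 < r) {m : ℤ} {x A : ℝ} (hm : |l m - x| ≤ A) (hm' : |l' m - x| ≤ A) :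
    ‖TT (fun u => (ww P r x u : ℂ) * ee (ξ * u)) l l'‖ ≤
      4 * Real.exp (-(Real.pi * r * P.η ^ 2 / 2)) * (P.C * QQ P.δ0 P.δ1 A * ZZ P.δ0) := by
  have := finite_mm h.gaps h'.gaps x
  have := finite_mm h'.gaps h.gaps x
  have h1 := gauss_window (mm P l l' x) (mm P l' l x) ξ P.η r x P.η_pos hr
    fun τ hτ => char_mm h h' hb (P.U_sup ξ hξ τ hτ) x
  have hc : Continuous fun u => (ww P r x u : ℂ) * ee (ξ * u) := by
    have := continuous_ww P r x
    fun_prop
  have hd : ∀ u, ‖(ww P r x u : ℂ) * ee (ξ * u)‖ ≤ P.C / (1 + |u - x|) ^ 4 := fun u => by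
    rw [norm_ww_ee]; exact ww_le P hr x u
  have e : ∀ u, P.b (u - x) • ((Real.exp (-(Real.pi * (u - x) ^ 2 / r)) : ℂ) * ee (ξ * u)) =
      (ww P r x u : ℂ) * ee (ξ * u) := fun u => by
    rw [Complex.real_smul, ww, Complex.ofReal_mul, mul_assoc]
  simp_rw [integral_mm, e] at h1
  rw [TT_eq (nu_integrable_decay' hc h.gaps h'.gaps P.δ0_pos hd)
    (nu_integrable_decay' hc h'.gaps h.gaps P.δ0_pos hd)]
  refine h1.trans ?_
  have m1 := mass_mm h.gaps h'.gaps hm hm'
  have m2 := mass_mm h'.gaps h.gaps hm' hm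
  have := Real.exp_pos (-(Real.pi * r * P.η ^ 2 / 2))
  nlinarith

/-- The finite part of the windowed functional is exponentially small. -/
theorem sum_window (h : Good P l) (h' : Good P l') (hb : Bal P l l') {ξ : ℝ} (hξ : ξ ∈ P.K)
    {N : ℕ} (hN : 0 < N) (hm' : |l' (-N) - l (-N)| ≤ 1) :
    ‖∑ n ∈ Finset.Icc (-(2 * N : ℤ)) 0,
        ∫ u in l n..l' n, (ww P N (l (-N)) u : ℂ) * ee (ξ * u)‖ ≤
      (4 * Real.exp (-(Real.pi * N * P.η ^ 2 / 2)) +
        Real.exp (2 * Real.pi * P.δ0) * Real.exp (-(Real.pi * P.δ0 ^ 2 * N))) *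
        (P.C * QQ P.δ0 P.δ1 1 * ZZ P.δ0) := by
  classical
  have hδ := P.δ0_pos
  have hr : (0 : ℝ) < N := by exact_mod_cast hN
  set x := l (-N) with hx
  set S := Finset.Icc (-(2 * N : ℤ)) 0 with hS
  set G := Real.exp (2 * Real.pi * P.δ0) * Real.exp (-(Real.pi * P.δ0 ^ 2 * N)) with hG
  have hm : |l (-N) - x| ≤ 1 := by simp [hx]
  have h1 := TT_window h h' hb hξ hr hm hm'
  have hc : Continuous fun u => (ww P N x u : ℂ) * ee (ξ * u) := by
    have := continuous_ww P N x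
    fun_prop
  have hd : ∀ u, ‖(ww P N x u : ℂ) * ee (ξ * u)‖ ≤ P.C / (1 + |u - x|) ^ 4 := fun u => by
    rw [norm_ww_ee]; exact ww_le P hr x u
  have s1 := (hasSum_TT (nu_integrable_decay' hc h.gaps h'.gaps hδ hd)
    (nu_integrable_decay' hc h'.gaps h.gaps hδ hd)).summable.hasSum
  set I : ℤ → ℂ := fun n => ∫ u in l n..l' n, (ww P N x u : ℂ) * ee (ξ * u) with hI
  have s2 : HasSum (fun n => if n ∈ S then I n else 0) (∑ n ∈ S, I n) := by
    have := hasSum_sum_of_ne_finset_zero (L := SummationFilter.unconditional ℤ)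
      (f := fun n => if n ∈ S then I n else 0) (s := S) fun n hn => if_neg hn
    rwa [Finset.sum_congr rfl fun n hn => if_pos hn] at this
  have s3 := s1.sub s2
  have s4 := ((summable_shift_inv_sq hδ (-N)).mul_left (G * (P.C * QQ P.δ0 P.δ1 1))).hasSum
  rw [tsum_mul_left, tsum_shift_inv_sq] at s4
  have hC := P.win.C_pos
  have hQ : 0 ≤ QQ P.δ0 P.δ1 1 := by
    have := hδ.trans_le h.gaps.le_delta
    unfold QQ; positivity
  have h2 := s3.norm_le_of_bounded s4 fun n => by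
    by_cases hn : n ∈ S
    · rw [if_pos hn, sub_self, norm_zero]; positivity
    · rw [if_neg hn, sub_zero]
      refine norm_intervalIntegral_le fun u hu => ?_
      have a1 := pair_bound h.gaps h'.gaps hδ hm hm' n hu
      have a2 := h.gaps.dist_lower h'.gaps hm hm' n hu
      have a3 : (N : ℝ) ≤ |(n : ℝ) - ((-N : ℤ) : ℝ)| := by
        have : (N : ℤ) ≤ |n - (-N)| := by
          rw [hS, Finset.mem_Icc, not_and_or] at hn
          rcases hn with hn | hn
          · rw [le_abs]; right; omega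
          · rw [le_abs]; left; omega
        exact_mod_cast this
      have a4 : P.δ0 * N - 1 ≤ |u - x| := by nlinarith
      have a5 : P.δ0 ^ 2 * N ^ 2 - 2 * P.δ0 * N ≤ (u - x) ^ 2 := by
        rw [← sq_abs (u - x)]
        rcases le_total (P.δ0 * N) 1 with a | a
        · nlinarith [mul_pos hδ hr, sq_nonneg |u - x|]
        · nlinarith [pow_le_pow_left₀ (by linarith) a4 2]
      have a6 : Real.exp (-(Real.pi * (u - x) ^ 2 / N)) ≤ G := by
        rw [hG, ← Real.exp_add, Real.exp_le_exp]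
        have : Real.pi * P.δ0 ^ 2 * N - 2 * Real.pi * P.δ0 ≤ Real.pi * (u - x) ^ 2 / N := by
          rw [le_div_iff₀ hr]
          nlinarith [mul_le_mul_of_nonneg_left a5 Real.pi_pos.le]
        linarith
      have a7 : ww P N x u ≤ G * (P.C * (1 / (1 + |u - x|) ^ 4)) := by
        rw [ww, mul_comm G, mul_one_div]
        exact mul_le_mul (P.win.decay _) a6 (Real.exp_pos _).le (by positivity)
      rw [norm_ww_ee]
      have hG0 : 0 ≤ G := by positivity
      calc |l' n - l n| * ww P N x u ≤ |l' n - l n| * (G * (P.C * (1 / (1 + |u - x|) ^ 4))) :=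
            mul_le_mul_of_nonneg_left a7 (abs_nonneg _)
        _ = G * P.C * (|l' n - l n| * (1 / (1 + |u - x|) ^ 4)) := by ring
        _ ≤ G * P.C * (QQ P.δ0 P.δ1 1 * (1 / (1 + P.δ0 * |((n - -N : ℤ) : ℝ)|) ^ 2)) :=
            mul_le_mul_of_nonneg_left a1 (by positivity)
        _ = _ := by ring
  have h3 : ∑ n ∈ S, I n = ∑' n, I n - (∑' n, I n - ∑ n ∈ S, I n) := by ring
  rw [h3]
  refine (norm_sub_le _ _).trans ?_
  have h4 : ‖∑' n, I n‖ ≤ _ := h1
  linarith

/-- Exponential decay of the difference along the left half-line. -/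
theorem decay (P : Par) : ∃ ρ : ℝ, 0 < ρ ∧ ρ ≤ 1 ∧ ∃ C2 γ : ℝ, 0 < γ ∧ 0 ≤ C2 ∧
    ∀ l l' : ℤ → ℝ, Good P l → Good P l' → Bal P l l' → (∀ n ≤ 0, |l' n - l n| ≤ ρ) →
      ∀ N : ℕ, |l' (-N) - l (-N)| ≤ C2 * Real.exp (-(γ * N)) := by
  obtain ⟨ε, hε, hloc⟩ := local_coer P.δ0 P.R P.c0 P.δ0_pos P.R_nonneg P.c0_pos P.K P.K_meas P.K_sub
  have hδ := P.δ0_pos
  have hη := P.η_pos
  have hπ := Real.pi_pos
  set L := 1 + Real.pi * (2 * |P.δ1| + 1) with hL
  have hL0 : 0 < L := by positivity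
  have hlog : 0 < Real.log (1 + ε) := Real.log_pos (by linarith)
  set ρ := min 1 (min ε (Real.log (1 + ε) / L)) with hρ
  have hρ1 : ρ ≤ 1 := min_le_left _ _
  have hρε : ρ ≤ ε := (min_le_right _ _).trans (min_le_left _ _)
  have hρL : L * ρ ≤ Real.log (1 + ε) := by
    have : ρ ≤ Real.log (1 + ε) / L := (min_le_right _ _).trans (min_le_right _ _)
    rwa [le_div_iff₀' hL0] at this
  set M := P.C * QQ P.δ0 P.δ1 1 * ZZ P.δ0 with hM
  set γ := min (Real.pi * P.η ^ 2 / 2) (Real.pi * P.δ0 ^ 2) with hγ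
  have hb0 := P.win.pos 0
  have hc0 := P.c0_pos
  have hR := P.R_nonneg
  set C1 := (8 * P.R / P.c0 + 1) / P.b 0 * ((4 + Real.exp (2 * Real.pi * P.δ0)) * |M|) with hC1
  have hC1' : 0 ≤ C1 := by positivity
  refine ⟨ρ, by positivity, hρ1, C1 + 1, γ, by positivity, by positivity, ?_⟩
  intro l l' h h' hb hd N
  rcases Nat.eq_zero_or_pos N with rfl | hN
  · have := hd 0 le_rfl
    simp only [Nat.cast_zero, neg_zero, mul_zero, Real.exp_zero, mul_one]
    linarith
  have hr : (1 : ℝ) ≤ N := by exact_mod_cast hN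
  have hr0 : (0 : ℝ) < N := by linarith
  set x := l (-N) with hx
  set S := Finset.Icc (-(2 * N : ℤ)) 0 with hS
  have hS0 : ∀ n ∈ S, n ≤ 0 := fun n hn => (Finset.mem_Icc.mp hn).2
  have hmS : (-N : ℤ) ∈ S := by rw [hS, Finset.mem_Icc]; omega
  set s := (4 + Real.exp (2 * Real.pi * P.δ0)) * |M| * Real.exp (-(γ * N)) with hs
  have hs0 : 0 ≤ s := by positivity
  have key := hloc S l (fun n => l' n - l n) (ww P N x) s (continuous_ww P N x)
    (fun i _ j _ hij => h.gaps.sep hδ i j hij) (h.coer S)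
    (fun n hn => (hd n (hS0 n hn)).trans hρε) (fun n hn v hv => ?_) (fun ξ hξ => ?_)
  · have k1 : ((l' (-N) - l (-N)) * ww P N x (l (-N))) ^ 2 ≤
        ∑ n ∈ S, ((l' n - l n) * ww P N x (l n)) ^ 2 :=
      Finset.single_le_sum (f := fun n => ((l' n - l n) * ww P N x (l n)) ^ 2)
        (fun _ _ => sq_nonneg _) hmS
    have k2 : ww P N x (l (-N)) = P.b 0 := by simp [ww, hx]
    rw [k2] at k1
    have k3 : ((l' (-N) - l (-N)) * P.b 0) ^ 2 ≤ ((8 * P.R / P.c0 + 1) * s) ^ 2 := by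
      have k4 : ((l' (-N) - l (-N)) * P.b 0) ^ 2 ≤ 8 * P.R / P.c0 * s ^ 2 := by
        rw [div_mul_eq_mul_div, le_div_iff₀ hc0, mul_comm]
        exact (mul_le_mul_of_nonneg_left k1 hc0.le).trans key
      refine k4.trans ?_
      rw [mul_pow (8 * P.R / P.c0 + 1) s]
      refine mul_le_mul_of_nonneg_right ?_ (sq_nonneg s)
      have : 0 ≤ 8 * P.R / P.c0 := by positivity
      nlinarith only [this]
    have k5 : |(l' (-N) - l (-N)) * P.b 0| ≤ (8 * P.R / P.c0 + 1) * s :=
      abs_le_of_sq_le_sq k3 (by positivity)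
    rw [abs_mul, abs_of_pos hb0, ← le_div_iff₀ hb0] at k5
    refine k5.trans ?_
    have : (8 * P.R / P.c0 + 1) * s / P.b 0 = C1 * Real.exp (-(γ * N)) := by
      rw [hs, hC1]; ring
    rw [this]
    exact mul_le_mul_of_nonneg_right (by linarith only) (Real.exp_pos _).le
  · have hv1 : |v| ≤ ρ := hv.trans (hd n (hS0 n hn))
    have a1 : |l n - x| ≤ |P.δ1| * N := by
      refine (h.gaps.abs_bounds hδ n (-N)).2.trans ?_
      have : |(n : ℝ) - ((-N : ℤ) : ℝ)| ≤ N := by
        have : |n - (-N)| ≤ (N : ℤ) := by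
          rw [hS, Finset.mem_Icc] at hn
          rw [abs_le]; omega
        exact_mod_cast this
      exact mul_le_mul (le_abs_self _) this (abs_nonneg _) (abs_nonneg _)
    have a2 : |l n + v - x| ≤ |P.δ1| * N + N := by
      rw [show l n + v - x = l n - x + v by ring]
      linarith [abs_add_le (l n - x) v]
    have a3 := ww_ratio P (x := x) (a := l n) (a' := l n + v) (D := 2 * |P.δ1| + 1) hr0
      (by linarith)
    have a4 := ww_ratio P (x := x) (a := l n + v) (a' := l n) (D := 2 * |P.δ1| + 1) hr0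
      (by linarith)
    rw [add_sub_cancel_left] at a3
    rw [sub_add_cancel_left, abs_neg] at a4
    have a5 := abs_sub_le_of_ratio (ww_pos P N x (l n))
      (Real.one_le_exp (by positivity)) a3 a4
    refine a5.trans ?_
    rw [abs_of_pos (ww_pos P N x (l n))]
    refine mul_le_mul_of_nonneg_right ?_ (ww_pos P N x (l n)).le
    have a6 : Real.exp (L * |v|) ≤ 1 + ε := by
      rw [← Real.exp_log (show 0 < 1 + ε by linarith only [hε]), Real.exp_le_exp]
      exact (mul_le_mul_of_nonneg_left hv1 hL0.le).trans hρL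
    linarith only [a6]
  · have a1 := sum_window h h' hb hξ hN ((hd _ (hS0 _ hmS)).trans hρ1)
    simp only [add_sub_cancel]
    refine a1.trans ?_
    have a2 : Real.exp (-(Real.pi * N * P.η ^ 2 / 2)) ≤ Real.exp (-(γ * N)) := by
      rw [Real.exp_le_exp]
      linarith only [mul_le_mul_of_nonneg_right (min_le_left (Real.pi * P.η ^ 2 / 2)
        (Real.pi * P.δ0 ^ 2)) hr0.le]
    have a3 : Real.exp (-(Real.pi * P.δ0 ^ 2 * N)) ≤ Real.exp (-(γ * N)) := by
      rw [Real.exp_le_exp]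
      linarith only [mul_le_mul_of_nonneg_right (min_le_right (Real.pi * P.η ^ 2 / 2)
        (Real.pi * P.δ0 ^ 2)) hr0.le]
    have a4 := Real.exp_pos (2 * Real.pi * P.δ0)
    calc _ ≤ (4 * Real.exp (-(Real.pi * N * P.η ^ 2 / 2)) +
            Real.exp (2 * Real.pi * P.δ0) * Real.exp (-(Real.pi * P.δ0 ^ 2 * N))) * |M| :=
          mul_le_mul_of_nonneg_left (le_abs_self _) (by positivity)
      _ ≤ (4 * Real.exp (-(γ * N)) + Real.exp (2 * Real.pi * P.δ0) * Real.exp (-(γ * N))) * |M| :=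
          mul_le_mul_of_nonneg_right (add_le_add (mul_le_mul_of_nonneg_left a2 (by norm_num))
            (mul_le_mul_of_nonneg_left a3 a4.le)) (abs_nonneg _)
      _ = s := by rw [hs]; ring

theorem exp_neg_le {t : ℝ} (ht : 0 ≤ t) : Real.exp (-t) ≤ 2 * (1 / (1 + t) ^ 2) := by
  have := Real.quadratic_le_exp_of_nonneg ht
  rw [Real.exp_neg, mul_one_div, inv_eq_one_div, div_le_div_iff₀ (Real.exp_pos _) (by positivity)]
  nlinarith

theorem integrable_exp_mm (h : Gaps P.δ0 P.δ1 l) (h' : Gaps P.δ0 P.δ1 l') {C2 γ : ℝ} (hγ : 0 < γ)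
    (hC2 : 0 ≤ C2) (h1 : ∀ n ≤ 0, |l' n - l n| ≤ 1)
    (h2 : ∀ N : ℕ, |l' (-N) - l (-N)| ≤ C2 * Real.exp (-(γ * N))) :
    Integrable (fun u => Real.exp (-(γ / (2 * P.δ1) * u))) (mm P l l' 0) := by
  have hδ := P.δ0_pos
  have hδ1 : 0 < P.δ1 := hδ.trans_le h.le_delta
  have hC := P.win.C_pos
  set σ := γ / (2 * P.δ1) with hσ
  have hσ0 : 0 < σ := by positivity
  rw [mm, integrable_withDensity_iff_integrable_smul' (measurable_dens P 0)
    (Eventually.of_forall fun _ => ENNReal.ofReal_lt_top)]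
  simp_rw [ENNReal.toReal_ofReal (P.win.pos _).le]
  set A := max |l 0 - 0| |l' 0 - 0| with hA
  have hA0 : 0 ≤ A := (abs_nonneg _).trans (le_max_left _ _)
  have hQ : 0 ≤ QQ P.δ0 P.δ1 A := by unfold QQ; positivity
  have s1 := (summable_int_inv_sq (half_pos hγ)).mul_left
    (C2 * P.C * Real.exp (σ * (1 - l 0)) * 2)
  have s2 := (summable_shift_inv_sq hδ 0).mul_left (Real.exp (σ * A) * P.C * QQ P.δ0 P.δ1 A)
  refine (nu_integrable (by have := continuous_b_sub P 0; fun_prop) (s1.add s2)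
    fun n u hu => ?_).1
  rw [smul_eq_mul, Real.norm_of_nonneg (mul_pos (P.win.pos _) (Real.exp_pos _)).le]
  rcases le_total n 0 with hn | hn
  · refine le_add_of_le_of_nonneg ?_ (by positivity)
    obtain ⟨N, rfl⟩ : ∃ N : ℕ, n = -N := ⟨n.natAbs, by omega⟩
    have a1 := (h.bounds hn).2
    have a2 : |u - l (-N)| ≤ 1 := (abs_sub_left_of_mem_uIcc hu).trans (h1 _ hn)
    have a3 : Real.exp (-(σ * u)) ≤ Real.exp (σ * (1 - l 0)) * Real.exp (γ / 2 * N) := by
      rw [← Real.exp_add, Real.exp_le_exp]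
      have e : γ / 2 = σ * P.δ1 := by rw [hσ]; field_simp
      push_cast at a1
      rw [abs_le] at a2
      rw [e]
      nlinarith [a2.1]
    have a4 := exp_neg_le (t := γ / 2 * N) (by positivity)
    have a5 : |((-N : ℤ) : ℝ)| = N := by simp
    rw [a5]
    calc |l' (-N) - l (-N)| * (P.b (u - 0) * Real.exp (-(σ * u)))
        ≤ (C2 * Real.exp (-(γ * N))) * (P.C * (Real.exp (σ * (1 - l 0)) * Real.exp (γ / 2 * N))) :=
          mul_le_mul (h2 N) (mul_le_mul (P.win.le_C _) a3 (Real.exp_pos _).le hC.le)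
            (mul_pos (P.win.pos _) (Real.exp_pos _)).le (by positivity)
      _ = C2 * P.C * Real.exp (σ * (1 - l 0)) * (Real.exp (-(γ * N)) * Real.exp (γ / 2 * N)) := by
          ring
      _ = C2 * P.C * Real.exp (σ * (1 - l 0)) * Real.exp (-(γ / 2 * N)) := by
          rw [← Real.exp_add]; congr 2; ring
      _ ≤ C2 * P.C * Real.exp (σ * (1 - l 0)) * (2 * (1 / (1 + γ / 2 * N) ^ 2)) :=
          mul_le_mul_of_nonneg_left a4 (by positivity)
      _ = _ := by ring
  · refine le_add_of_nonneg_of_le (by positivity) ?_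
    have a1 := pair_bound h h' hδ (m := 0) (x := 0) (A := A) (le_max_left _ _) (le_max_right _ _)
      n hu
    have a2 : -A ≤ u := by
      have b1 := (h.strictMono hδ).monotone hn
      have b2 := (h'.strictMono hδ).monotone hn
      have b3 : |l 0 - 0| ≤ A := le_max_left _ _
      have b4 : |l' 0 - 0| ≤ A := le_max_right _ _
      rw [abs_le] at b3 b4
      exact le_trans (le_min (by linarith [b3.1]) (by linarith [b4.1])) hu.1
    have a3 : Real.exp (-(σ * u)) ≤ Real.exp (σ * A) := by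
      rw [Real.exp_le_exp]; nlinarith
    calc |l' n - l n| * (P.b (u - 0) * Real.exp (-(σ * u)))
        ≤ |l' n - l n| * (P.C / (1 + |u - 0|) ^ 4 * Real.exp (σ * A)) :=
          mul_le_mul_of_nonneg_left
            (mul_le_mul (P.win.decay _) a3 (Real.exp_pos _).le (by positivity)) (abs_nonneg _)
      _ = Real.exp (σ * A) * P.C * (|l' n - l n| * (1 / (1 + |u - 0|) ^ 4)) := by ring
      _ ≤ Real.exp (σ * A) * P.C *
            (QQ P.δ0 P.δ1 A * (1 / (1 + P.δ0 * |((n - 0 : ℤ) : ℝ)|) ^ 2)) :=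
          mul_le_mul_of_nonneg_left a1 (by positivity)
      _ = _ := by ring

/-- Rigidity theorem. -/
theorem rigid (P : Par) : ∃ ρ : ℝ, 0 < ρ ∧ ∀ l l' : ℤ → ℝ, Good P l → Good P l' → Bal P l l' →
    (∀ n ≤ 0, |l' n - l n| ≤ ρ) → l' = l := by
  obtain ⟨ρ, hρ, hρ1, C2, γ, hγ, hC2, H⟩ := decay P
  refine ⟨ρ, hρ, fun l l' h h' hb hd => ?_⟩
  have hδ1 : 0 < P.δ1 := P.δ0_pos.trans_le h.gaps.le_delta
  have h2 := H l l' h h' hb hd
  have := finite_mm h.gaps h'.gaps 0
  have := finite_mm h'.gaps h.gaps 0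
  have e := laplace_ext (mm P l l' 0) (mm P l' l 0) (γ / (2 * P.δ1)) P.η (by positivity) P.η_pos
    (integrable_exp_mm h.gaps h'.gaps hγ hC2 (fun n hn => (hd n hn).trans hρ1) h2)
    (integrable_exp_mm h'.gaps h.gaps hγ hC2
      (fun n hn => by rw [abs_sub_comm]; exact (hd n hn).trans hρ1)
      (fun N => by rw [abs_sub_comm]; exact h2 N))
    fun ξ hξ => char_mm h h' hb (by simpa using P.U_sup 0 P.zero_mem ξ hξ) 0
  have ac : ∀ l l' : ℤ → ℝ, nu l l' ≪ mm P l l' 0 := fun l l' =>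
    withDensity_absolutelyContinuous' (measurable_dens P 0).aemeasurable
      (Eventually.of_forall fun u => (ENNReal.ofReal_pos.mpr (P.win.pos _)).ne')
  have ac' : ∀ l l' : ℤ → ℝ, mm P l l' 0 ≪ nu l l' := fun l l' =>
    withDensity_absolutelyContinuous _ _
  funext n
  refine le_antisymm (le_of_nu_eq P.δ0_pos h.gaps h'.gaps ((ac l l').trans (e ▸ ac' l' l)) n)
    (le_of_nu_eq P.δ0_pos h'.gaps h.gaps ((ac l' l).trans (e ▸ ac' l l')) n)

end Pool.Agent.P.MP_731e7b_an
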