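import Pool.Agent.P.MP_731e7b_an.Basic

open MeasureTheory Set Filter Topology

namespace Pool.Agent.P.MP_731e7b_an

namespace Sj

theorem card_near (J : Finset ℤ) (x : ℝ) :
    ((J.filter (fun j : ℤ => |x - j| < 3)).card : ℝ) ≤ 7 := by
  have h : J.filter (fun j : ℤ => |x - j| < 3) ⊆ Finset.Icc (⌊x⌋ - 3) (⌊x⌋ + 3) := by
    intro j hj
    have h1 := abs_lt.1 (Finset.mem_filter.1 hj).2
    have a1 := Int.floor_le x
    have a2 := Int.lt_floor_add_one x
    rw [Finset.mem_Icc]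
    constructor
    · have : ((⌊x⌋ - 3 : ℤ) : ℝ) < j := by push_cast; linarith [h1.2]
      exact (Int.cast_lt.1 this).le
    · have : (j : ℝ) < ((⌊x⌋ + 4 : ℤ) : ℝ) := by push_cast; linarith [h1.1]
      have := Int.cast_lt.1 this
      omega
  have h2 := Finset.card_le_card h
  rw [Int.card_Icc] at h2
  have h3 : (⌊x⌋ + 3 + 1 - (⌊x⌋ - 3)).toNat = 7 := by
    have : ⌊x⌋ + 3 + 1 - (⌊x⌋ - 3) = 7 := by ring
    rw [this]; rfl
  rw [h3] at h2
  exact_mod_cast h2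

/-- tents -/
noncomputable def T (L : ℝ) (j : ℤ) (x : ℝ) : ℝ := max 0 (1 - |x / L - j|)

/-- modulus -/
noncomputable def m (L : ℝ) (k : ℤ) : ℝ := min 1 ((|(k : ℝ)| + 1) / L)

theorem T_nonneg (L : ℝ) (j : ℤ) (x : ℝ) : 0 ≤ T L j x := le_max_left _ _

theorem T_le_one (L : ℝ) (j : ℤ) (x : ℝ) : T L j x ≤ 1 :=
  max_le zero_le_one (by linarith [abs_nonneg (x / L - j)])

theorem m_nonneg {L : ℝ} (hL : 0 < L) (k : ℤ) : 0 ≤ m L k :=
  le_min zero_le_one (by positivity)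

theorem T_sub_le {L : ℝ} (hL : 0 < L) (j : ℤ) (x x' : ℝ) :
    |T L j x' - T L j x| ≤ m L ⌊x - x'⌋ := by
  refine le_min ?_ ?_
  · rw [abs_le]
    constructor <;> linarith [T_nonneg L j x, T_nonneg L j x', T_le_one L j x, T_le_one L j x']
  · have h1 : |T L j x' - T L j x| ≤ |(1 - |x' / L - j|) - (1 - |x / L - j|)| := by
      unfold T
      rw [max_comm 0, max_comm 0]
      exact abs_max_sub_max_le_abs _ _ _
    have h2 : |(1 - |x' / L - j|) - (1 - |x / L - j|)| ≤ |x - x'| / L := by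
      have : (1 - |x' / L - j|) - (1 - |x / L - j|) = |x / L - j| - |x' / L - j| := by ring
      rw [this]
      refine (abs_abs_sub_abs_le_abs_sub _ _).trans (le_of_eq ?_)
      have : x / L - j - (x' / L - j) = (x - x') / L := by ring
      rw [this, abs_div, abs_of_pos hL]
    have h3 : |x - x'| ≤ |((⌊x - x'⌋ : ℤ) : ℝ)| + 1 := by
      have a1 := Int.floor_le (x - x')
      have a2 := Int.lt_floor_add_one (x - x')
      have a3 := le_abs_self ((⌊x - x'⌋ : ℤ) : ℝ)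
      have a4 := neg_abs_le ((⌊x - x'⌋ : ℤ) : ℝ)
      rw [abs_le]; constructor <;> linarith
    exact h1.trans (h2.trans (div_le_div_of_nonneg_right h3 hL.le))

theorem half_le_T (L x : ℝ) : 1 / 2 ≤ T L (round (x / L)) x := by
  have := abs_sub_round (x / L)
  exact le_max_of_le_right (by linarith)

theorem near_of_T_pos {L : ℝ} {j : ℤ} {x : ℝ} (h : 0 < T L j x) : |x / L - j| < 1 := by
  unfold T at h
  rcases lt_max_iff.1 h with h | h
  · exact absurd h (lt_irrefl _)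
  · linarith

theorem exists_L (p : ℤ → ℝ) (hp0 : ∀ k, 0 ≤ p k) (hp : Summable p) {e : ℝ} (he : 0 < e) :
    ∃ L : ℝ, 1 ≤ L ∧ ∀ K : Finset ℤ, ∑ k ∈ K, p k * m L k ≤ e := by
  have h1 : Tendsto (fun L : ℝ => ∑' k, p k * m L k) atTop (𝓝 (∑' _k : ℤ, (0 : ℝ))) := by
    refine tendsto_tsum_of_dominated_convergence hp (fun k => ?_) ?_
    · have a1 : Tendsto (fun L : ℝ => (|(k : ℝ)| + 1) / L) atTop (𝓝 0) :=
        tendsto_const_nhds.div_atTop tendsto_id
      have a2 : Tendsto (fun L : ℝ => m L k) atTop (𝓝 (min 1 0)) :=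
        tendsto_const_nhds.min a1
      have a3 := a2.const_mul (p k)
      simpa using a3
    · filter_upwards [eventually_gt_atTop (0 : ℝ)] with L hL k
      rw [Real.norm_of_nonneg (mul_nonneg (hp0 k) (m_nonneg hL k))]
      exact mul_le_of_le_one_right (hp0 k) (min_le_left _ _)
  rw [tsum_zero] at h1
  obtain ⟨L, hL1, hL2⟩ := ((eventually_ge_atTop (1 : ℝ)).and (h1.eventually (ge_mem_nhds he))).exists
  have hL : 0 < L := by linarith
  refine ⟨L, hL1, fun K => le_trans ?_ hL2⟩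
  have hs : Summable fun k => p k * m L k :=
    Summable.of_nonneg_of_le (fun k => mul_nonneg (hp0 k) (m_nonneg hL k))
      (fun k => mul_le_of_le_one_right (hp0 k) (min_le_left _ _)) hp
  exact hs.sum_le_tsum K fun k _ => mul_nonneg (hp0 k) (m_nonneg hL k)

theorem fiber_le {S S' : Finset ℝ} (hS : S' ⊆ S) (a : ℝ → ℝ) (ha : ∀ l, 0 ≤ a l) (μ : ℝ)
    (p g : ℤ → ℝ) (hg : ∀ k, 0 ≤ g k)
    (h : ∀ k : ℤ, ∑ l ∈ S.filter (fun l => ⌊μ - l⌋ = k), a l ≤ p k) (K : Finset ℤ)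
    (hK : ∀ l ∈ S', ⌊μ - l⌋ ∈ K) :
    ∑ l ∈ S', a l * g ⌊μ - l⌋ ≤ ∑ k ∈ K, p k * g k := by
  rw [← Finset.sum_fiberwise_of_maps_to hK]
  refine Finset.sum_le_sum fun k _ => ?_
  calc ∑ l ∈ S'.filter (fun l => ⌊μ - l⌋ = k), a l * g ⌊μ - l⌋
      = (∑ l ∈ S'.filter (fun l => ⌊μ - l⌋ = k), a l) * g k := by
        rw [Finset.sum_mul]
        refine Finset.sum_congr rfl fun l hl => ?_
        rw [(Finset.mem_filter.1 hl).2]
    _ ≤ p k * g k := by
        refine mul_le_mul_of_nonneg_right (le_trans ?_ (h k)) (hg k)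
        exact Finset.sum_le_sum_of_subset_of_nonneg (Finset.filter_subset_filter _ hS)
          fun l _ _ => ha l

theorem count_le {δ L : ℝ} (hδ : 0 < δ) (hL : 0 < L) {S : Finset ℝ} (hS : Sep δ (S : Set ℝ))
    (i : ℤ) : ((S.filter (fun l => round (l / L) = i)).card : ℝ) ≤ (1 + L) ^ 2 * S0 δ := by
  have h1 := sum_sep_le hδ (S.filter (fun l => round (l / L) = i)) id
    (fun a ha b hb hab => hS a (Finset.mem_coe.2 (Finset.mem_filter.1 ha).1) b
      (Finset.mem_coe.2 (Finset.mem_filter.1 hb).1) hab) (i * L)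
  have h2 : ∑ _j ∈ S.filter (fun l => round (l / L) = i), 1 / (1 + L) ^ 2 ≤
      ∑ j ∈ S.filter (fun l => round (l / L) = i), 1 / (1 + |id j - i * L|) ^ 2 := by
    refine Finset.sum_le_sum fun l hl => ?_
    have a1 := abs_sub_round (l / L)
    rw [(Finset.mem_filter.1 hl).2] at a1
    have a2 : |l - i * L| ≤ L := by
      have : l - i * L = (l / L - i) * L := by field_simp
      rw [this, abs_mul, abs_of_pos hL]
      nlinarith
    exact one_div_le_one_div_of_le (by positivity)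
      (pow_le_pow_left₀ (by positivity) (by simpa using a2) 2)
  rw [Finset.sum_const, nsmul_eq_mul, mul_one_div] at h2
  have h3 := h2.trans h1
  rw [div_le_iff₀ (by positivity)] at h3
  linarith

theorem row_le {κ : ℝ} {S : Finset ℝ} {μ : ℝ} (hμ : μ ∈ S) (M : ℝ → ℂ) (w : ℝ → ℝ)
    (hM : κ + ∑ l ∈ S.erase μ, ‖M l‖ ≤ ‖M μ‖) (hw : ∀ l ∈ S, |w l| ≤ |w μ|) :
    κ * |w μ| ≤ ‖∑ l ∈ S, M l * (w l : ℂ)‖ := by
  rw [← Finset.add_sum_erase S _ hμ]
  have h1 : ‖∑ l ∈ S.erase μ, M l * (w l : ℂ)‖ ≤ (∑ l ∈ S.erase μ, ‖M l‖) * |w μ| := by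
    refine (norm_sum_le _ _).trans ?_
    rw [Finset.sum_mul]
    refine Finset.sum_le_sum fun l hl => ?_
    rw [norm_mul, Complex.norm_real, Real.norm_eq_abs]
    exact mul_le_mul_of_nonneg_left (hw l (Finset.mem_of_mem_erase hl)) (norm_nonneg _)
  have h2 : ‖M μ * (w μ : ℂ)‖ = ‖M μ‖ * |w μ| := by
    rw [norm_mul, Complex.norm_real, Real.norm_eq_abs]
  have h3 : ‖M μ * (w μ : ℂ)‖ ≤ ‖M μ * (w μ : ℂ) + ∑ l ∈ S.erase μ, M l * (w l : ℂ)‖ +
      ‖∑ l ∈ S.erase μ, M l * (w l : ℂ)‖ := by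
    have := norm_sub_le (M μ * (w μ : ℂ) + ∑ l ∈ S.erase μ, M l * (w l : ℂ))
      (∑ l ∈ S.erase μ, M l * (w l : ℂ))
    rwa [add_sub_cancel_right] at this
  have h4 := mul_le_mul_of_nonneg_right hM (abs_nonneg (w μ))
  nlinarith

end Sj

/-- Sjostrand localisation: row dominance gives an `l^2` lower bound. -/
theorem sjostrand (δ κ : ℝ) (hδ : 0 < δ) (hκ : 0 < κ) (p : ℤ → ℝ) (hp0 : ∀ k, 0 ≤ p k)
    (hp : Summable p) :
    ∃ c : ℝ, 0 < c ∧ ∀ (S : Finset ℝ) (M : ℝ → ℝ → ℂ), Sep δ (S : Set ℝ) →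
      (∀ μ ∈ S, κ + ∑ l ∈ S.erase μ, ‖M μ l‖ ≤ ‖M μ μ‖) →
      (∀ μ ∈ S, ∀ k : ℤ, ∑ l ∈ S.filter (fun l => ⌊μ - l⌋ = k), ‖M μ l‖ ≤ p k) →
      ∀ y : ℝ → ℝ, c * ∑ l ∈ S, y l ^ 2 ≤ ∑ μ ∈ S, ‖∑ l ∈ S, M μ l * (y l : ℂ)‖ ^ 2 := by
  obtain ⟨L, hL1, hLe⟩ := Sj.exists_L p hp0 hp (show 0 < κ / 11 by positivity)
  have hL : 0 < L := by linarith
  set N : ℝ := (1 + L) ^ 2 * S0 δ with hN
  have hN0 : 0 ≤ N := mul_nonneg (by positivity) (S0_nonneg hδ)
  refine ⟨κ ^ 2 / (112 * (N + 1)), by positivity, fun S M hS hM hp' y => ?_⟩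
  rcases S.eq_empty_or_nonempty with rfl | hne
  · simp
  have hex : ∀ j : ℤ, ∃ μ ∈ S, ∀ l ∈ S, |Sj.T L j l * y l| ≤ |Sj.T L j μ * y μ| := fun j =>
    Finset.exists_max_image S (fun l => |Sj.T L j l * y l|) hne
  choose mu hmu hmax using hex
  set u : ℤ → ℝ := fun j => |Sj.T L j (mu j) * y (mu j)| with hu
  set ix : ℝ → ℤ := fun l => round (l / L) with hix
  set z : ℝ → ℝ := fun μ => ‖∑ l ∈ S, M μ l * (y l : ℂ)‖ with hz
  set a : ℤ → ℝ → ℝ := fun j l => ‖M (mu j) l‖ * Sj.m L ⌊mu j - l⌋ with ha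
  have ha0 : ∀ j l, 0 ≤ a j l := fun j l => mul_nonneg (norm_nonneg _) (Sj.m_nonneg hL _)
  have hu0 : ∀ j, 0 ≤ u j := fun j => abs_nonneg _
  have hy : ∀ l ∈ S, |y l| ≤ 2 * u (ix l) := by
    intro l hl
    have h1 := hmax (ix l) l hl
    have h2 := Sj.half_le_T L l
    rw [abs_mul, abs_of_nonneg (Sj.T_nonneg _ _ _)] at h1
    have h3 : |Sj.T L (ix l) (mu (ix l)) * y (mu (ix l))| = u (ix l) := rfl
    have h4 : 1 / 2 * |y l| ≤ Sj.T L (ix l) l * |y l| :=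
      mul_le_mul_of_nonneg_right h2 (abs_nonneg _)
    linarith
  have hrow : ∀ j, κ * u j ≤ z (mu j) + 2 * ∑ l ∈ S, a j l * u (ix l) := by
    intro j
    have h1 := Sj.row_le (hmu j) (M (mu j)) (fun l => Sj.T L j l * y l) (hM _ (hmu j)) (hmax j)
    have h2 : ∑ l ∈ S, M (mu j) l * ((Sj.T L j l * y l : ℝ) : ℂ) =
        (Sj.T L j (mu j) : ℂ) * ∑ l ∈ S, M (mu j) l * (y l : ℂ) +
          ∑ l ∈ S, M (mu j) l * (((Sj.T L j l - Sj.T L j (mu j)) * y l : ℝ) : ℂ) := by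
      rw [Finset.mul_sum, ← Finset.sum_add_distrib]
      refine Finset.sum_congr rfl fun l _ => ?_
      push_cast; ring
    have h3 : ‖(Sj.T L j (mu j) : ℂ) * ∑ l ∈ S, M (mu j) l * (y l : ℂ)‖ ≤ z (mu j) := by
      rw [norm_mul, Complex.norm_real, Real.norm_of_nonneg (Sj.T_nonneg _ _ _)]
      exact mul_le_of_le_one_left (norm_nonneg _) (Sj.T_le_one _ _ _)
    have h4 : ‖∑ l ∈ S, M (mu j) l * (((Sj.T L j l - Sj.T L j (mu j)) * y l : ℝ) : ℂ)‖ ≤
        2 * ∑ l ∈ S, a j l * u (ix l) := by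
      refine (norm_sum_le _ _).trans ?_
      rw [Finset.mul_sum]
      refine Finset.sum_le_sum fun l hl => ?_
      rw [norm_mul, Complex.norm_real, Real.norm_eq_abs, abs_mul]
      have b1 := Sj.T_sub_le hL j (mu j) l
      have b2 := mul_le_mul b1 (hy l hl) (abs_nonneg _) (Sj.m_nonneg hL _)
      have b3 := mul_le_mul_of_nonneg_left b2 (norm_nonneg (M (mu j) l))
      refine b3.trans (le_of_eq ?_)
      simp only [ha]; ring
    rw [h2] at h1
    have h5 := h1.trans (norm_add_le _ _)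
    have h6 : |Sj.T L j (mu j) * y (mu j)| = u j := rfl
    simp only [h6] at h5
    linarith
  set J : Finset ℤ := S.image ix with hJ
  set Jp : Finset ℤ := J.filter (fun j : ℤ => |mu j / L - j| < 1) with hJp
  set K : Finset ℤ := (S ×ˢ S).image (fun q : ℝ × ℝ => ⌊q.1 - q.2⌋) with hK
  have hKm : ∀ j, ∀ l ∈ S, ⌊mu j - l⌋ ∈ K := fun j l hl =>
    Finset.mem_image.2 ⟨(mu j, l), Finset.mem_product.2 ⟨hmu j, hl⟩, rfl⟩
  have hixJ : ∀ l ∈ S, ix l ∈ J := fun l hl => Finset.mem_image_of_mem _ hl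
  set U : ℝ := ∑ j ∈ J, u j ^ 2 with hU
  have hU0 : 0 ≤ U := Finset.sum_nonneg fun _ _ => sq_nonneg _
  have hUp : ∑ j ∈ Jp, u j ^ 2 = U := by
    refine Finset.sum_filter_of_ne fun j _ hj => Sj.near_of_T_pos ?_
    refine lt_of_le_of_ne (Sj.T_nonneg _ _ _) fun h => hj ?_
    simp only [hu, ← h]; simp
  -- row sums
  have hrs : ∀ j, ∑ l ∈ S, a j l ≤ κ / 11 := fun j =>
    (Sj.fiber_le (Finset.Subset.refl S) (fun l => ‖M (mu j) l‖) (fun _ => norm_nonneg _) (mu j) p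
      (Sj.m L) (Sj.m_nonneg hL) (hp' _ (hmu j)) K (hKm j)).trans (hLe K)
  -- column sums
  have hcs : ∀ i : ℤ, ∑ j ∈ Jp, ∑ l ∈ S.filter (fun l => ix l = i), a j l ≤ 7 * (κ / 11) := by
    intro i
    have h1 : ∀ j ∈ Jp, ∑ l ∈ S.filter (fun l => ix l = i), a j l ≤
        ∑ k ∈ K, if |(k / L + i : ℝ) - j| < 3 then p k * Sj.m L k else 0 := by
      intro j hj
      rw [← Finset.sum_filter]
      refine Sj.fiber_le (Finset.filter_subset _ S) (fun l => ‖M (mu j) l‖)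
        (fun _ => norm_nonneg _) (mu j) p (Sj.m L) (Sj.m_nonneg hL) (hp' _ (hmu j)) _
        fun l hl => Finset.mem_filter.2 ⟨hKm j l (Finset.mem_filter.1 hl).1, ?_⟩
      have b1 := abs_lt.1 (Finset.mem_filter.1 hj).2
      have b2 := abs_sub_round (l / L)
      have b3 : round (l / L) = i := (Finset.mem_filter.1 hl).2
      rw [b3] at b2
      have b4 := abs_le.1 b2
      have b5 := Int.floor_le (mu j - l)
      have b6 := Int.lt_floor_add_one (mu j - l)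
      have b7 : ((⌊mu j - l⌋ : ℤ) : ℝ) / L ≤ mu j / L - l / L := by
        rw [← sub_div]; exact div_le_div_of_nonneg_right b5 hL.le
      have b8 : mu j / L - l / L ≤ ((⌊mu j - l⌋ : ℤ) : ℝ) / L + 1 / L := by
        rw [← sub_div, ← add_div]; exact div_le_div_of_nonneg_right b6.le hL.le
      have b9 : 1 / L ≤ 1 := by rw [div_le_one hL]; exact hL1
      rw [abs_lt]; constructor <;> linarith [b1.1, b1.2, b4.1, b4.2]
    refine (Finset.sum_le_sum h1).trans ?_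
    rw [Finset.sum_comm]
    refine le_trans ?_ (mul_le_mul_of_nonneg_left (hLe K) (by norm_num))
    rw [Finset.mul_sum]
    refine Finset.sum_le_sum fun k _ => ?_
    rw [← Finset.sum_filter, Finset.sum_const, nsmul_eq_mul]
    exact mul_le_mul_of_nonneg_right (Sj.card_near Jp _) (mul_nonneg (hp0 k) (Sj.m_nonneg hL k))
  -- Schur
  have hB : ∑ j ∈ Jp, (∑ l ∈ S, a j l * u (ix l)) ^ 2 ≤ κ / 11 * (7 * (κ / 11) * U) := by
    have h1 : ∀ j ∈ Jp, (∑ l ∈ S, a j l * u (ix l)) ^ 2 ≤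
        κ / 11 * ∑ l ∈ S, a j l * u (ix l) ^ 2 := by
      intro j _
      have b1 := Finset.sum_sq_le_sum_mul_sum_of_sq_le_mul S (r := fun l => a j l * u (ix l))
        (f := fun l => a j l) (g := fun l => a j l * u (ix l) ^ 2) (fun l _ => ha0 j l)
        (fun l _ => mul_nonneg (ha0 j l) (sq_nonneg _)) (fun l _ => le_of_eq (by ring))
      exact b1.trans (mul_le_mul_of_nonneg_right (hrs j)
        (Finset.sum_nonneg fun l _ => mul_nonneg (ha0 j l) (sq_nonneg _)))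
    refine (Finset.sum_le_sum h1).trans ?_
    rw [← Finset.mul_sum]
    refine mul_le_mul_of_nonneg_left ?_ (by positivity)
    have h2 : ∀ j ∈ Jp, ∑ l ∈ S, a j l * u (ix l) ^ 2 =
        ∑ i ∈ J, (∑ l ∈ S.filter (fun l => ix l = i), a j l) * u i ^ 2 := by
      intro j _
      rw [← Finset.sum_fiberwise_of_maps_to hixJ]
      refine Finset.sum_congr rfl fun i _ => ?_
      rw [Finset.sum_mul]
      refine Finset.sum_congr rfl fun l hl => ?_
      rw [(Finset.mem_filter.1 hl).2]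
    rw [Finset.sum_congr rfl h2, Finset.sum_comm, hU, Finset.mul_sum]
    refine Finset.sum_le_sum fun i _ => ?_
    rw [← Finset.sum_mul]
    exact mul_le_mul_of_nonneg_right (hcs i) (sq_nonneg _)
  set Z : ℝ := ∑ μ ∈ S, z μ ^ 2 with hZ
  have hZJ : ∑ j ∈ Jp, z (mu j) ^ 2 ≤ 7 * Z := by
    rw [← Finset.sum_fiberwise_of_maps_to (t := S) (g := mu) (fun j _ => hmu j), hZ,
      Finset.mul_sum]
    refine Finset.sum_le_sum fun μ _ => ?_
    have h1 : ∑ j ∈ Jp.filter (fun j => mu j = μ), z (mu j) ^ 2 =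
        ((Jp.filter (fun j => mu j = μ)).card : ℝ) * z μ ^ 2 := by
      rw [← nsmul_eq_mul, ← Finset.sum_const]
      refine Finset.sum_congr rfl fun j hj => ?_
      rw [(Finset.mem_filter.1 hj).2]
    rw [h1]
    refine mul_le_mul_of_nonneg_right (le_trans ?_ (Sj.card_near J (μ / L))) (sq_nonneg _)
    refine Nat.cast_le.2 (Finset.card_le_card fun j hj => ?_)
    have b1 := Finset.mem_filter.1 hj
    have b2 := Finset.mem_filter.1 b1.1
    refine Finset.mem_filter.2 ⟨b2.1, ?_⟩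
    rw [← b1.2]; linarith [b2.2]
  have hmain : κ ^ 2 * U ≤ 28 * Z := by
    have h1 : ∑ j ∈ Jp, κ ^ 2 * u j ^ 2 ≤
        ∑ j ∈ Jp, (2 * z (mu j) ^ 2 + 8 * (∑ l ∈ S, a j l * u (ix l)) ^ 2) := by
      refine Finset.sum_le_sum fun j _ => ?_
      have b1 := pow_le_pow_left₀ (mul_nonneg hκ.le (hu0 j)) (hrow j) 2
      nlinarith [sq_nonneg (z (mu j) - 2 * ∑ l ∈ S, a j l * u (ix l))]
    rw [← Finset.mul_sum, hUp, Finset.sum_add_distrib, ← Finset.mul_sum, ← Finset.mul_sum] at h1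
    have h2 : 0 ≤ κ ^ 2 * U := by positivity
    nlinarith
  have hyU : ∑ l ∈ S, y l ^ 2 ≤ 4 * N * U := by
    rw [← Finset.sum_fiberwise_of_maps_to hixJ, hU, Finset.mul_sum]
    refine Finset.sum_le_sum fun i _ => ?_
    have h1 : ∑ l ∈ S.filter (fun l => ix l = i), y l ^ 2 ≤
        ∑ _l ∈ S.filter (fun l => ix l = i), 4 * u i ^ 2 := by
      refine Finset.sum_le_sum fun l hl => ?_
      have b1 := hy l (Finset.mem_filter.1 hl).1
      rw [(Finset.mem_filter.1 hl).2] at b1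
      have b2 := pow_le_pow_left₀ (abs_nonneg _) b1 2
      rw [sq_abs] at b2
      linarith
    rw [Finset.sum_const, nsmul_eq_mul] at h1
    have h2 := mul_le_mul_of_nonneg_right (Sj.count_le hδ hL hS i)
      (show 0 ≤ 4 * u i ^ 2 by positivity)
    have h3 : (1 + L) ^ 2 * S0 δ * (4 * u i ^ 2) = 4 * N * u i ^ 2 := by rw [hN]; ring
    exact h1.trans (h2.trans h3.le)
  have hZ0 : 0 ≤ Z := Finset.sum_nonneg fun _ _ => sq_nonneg _
  rw [div_mul_eq_mul_div, div_le_iff₀ (by positivity)]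
  have h1 := mul_le_mul_of_nonneg_left hyU (sq_nonneg κ)
  have h2 := mul_le_mul_of_nonneg_left hmain (show 0 ≤ 4 * N by positivity)
  nlinarith

end Pool.Agent.P.MP_731e7b_an
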